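import Pool.Agent.Work.MP_1399e9_co.StepA

/-!
# The value of the function
-/

namespace Pool.Agent.Work.MP_1399e9_co

open Finset Relation

/-- The sizes of the large sides. -/
def nu (t : ℕ) : ℕ → ℕ
  | 0 => 1
  | j + 1 => nu t j + (t + j)

theorem nu_succ (t j : ℕ) : nu t (j + 1) = nu t j + (t + j) := rfl

theorem nu_mono (t : ℕ) : Monotone (nu t) :=
  monotone_nat_of_le_succ fun j => by
    rw [nu_succ]
    exact Nat.le_add_right _ _

theorem nu_pos (t j : ℕ) : 1 ≤ nu t j := nu_mono t (Nat.zero_le j)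

section
variable {V : Type} {r : V → V → Prop} [DecidableEq V]

/-- Either all large separations have large order, or there is a plateau. -/
theorem dichotomy {t : ℕ} {U : Finset V} (h : SC r t 1 U) : ∀ J,
    (∀ j ≤ J, SC r (t + j) (nu t j) U) ∨ ∃ j < J, ∃ L X R, IsSep r U L X R ∧ X.card = t + j ∧
      SC r (t + j) (nu t j) U ∧ nu t j + (t + j) ≤ L.card ∧ nu t j + (t + j) ≤ R.card := by
  intro J
  induction J with
  | zero =>
    left
    intro j hj
    have : j = 0 := by omega
    subst this
    exact h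
  | succ J ih =>
    rcases ih with ih | ⟨j, hj, h1⟩
    · by_cases hsc : SC r (t + (J + 1)) (nu t (J + 1)) U
      · left
        intro j hj
        by_cases hjJ : j = J + 1
        · subst hjJ
          exact hsc
        · exact ih j (by omega)
      · right
        unfold SC at hsc
        push Not at hsc
        obtain ⟨L, X, R, h1, h2, h3, h4⟩ := hsc
        rw [nu_succ] at h2 h3
        have h5 := ih J le_rfl L X R h1 (by omega) (by omega)
        exact ⟨J, by omega, L, X, R, h1, by omega, ih J le_rfl, h2, h3⟩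
    · exact Or.inr ⟨j, by omega, h1⟩

end

theorem num_large2 (t m : ℕ) : ∃ N₀, ∀ N, N₀ ≤ N →
    8 * t * (2 * m + 2 * (Nat.log 2 N + 2) + 1) ≤ N := by
  obtain ⟨N₀, h⟩ := num_large (2 * t * (m + 1))
  refine ⟨N₀, fun N hN => le_trans ?_ (h N hN)⟩
  generalize Nat.log 2 N = L
  nlinarith [Nat.zero_le (t * m * L), Nat.zero_le (t * m), Nat.zero_le (t * L), Nat.zero_le t]

/-- Every large tournament without separations of order less than `t` has the parts. -/
theorem main_t : ∀ t, 1 ≤ t → ∃ N₀ : ℕ, ∀ (V : Type) [DecidableEq V] (r : V → V → Prop),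
    IsTournament r → ∀ U : Finset V, N₀ ≤ U.card → SC r t 1 U → ∀ n : ℕ → ℕ,
    (∀ i < t, 3 ≤ n i) → (∀ i j, i ≤ j → j < t → n i ≤ n j) → ∑ i ∈ range t, n i = U.card →
    HasParts r t n U := by
  intro t ht
  induction t, ht using Nat.le_induction with
  | base =>
    refine ⟨0, ?_⟩
    intro V _ r hT U _ hsc n _ _ hsum
    refine ⟨fun _ => U, ?_, ?_⟩
    · intro j hj
      have : j = 0 := by omega
      subst this
      refine ⟨Finset.Subset.refl _, ?_, hsc.cut le_rfl⟩
      rw [← hsum]
      simp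
    · intro i hi j hj hij
      omega
  | succ s hs ih =>
    obtain ⟨N', ih⟩ := ih
    obtain ⟨t, ht⟩ : ∃ t, t = s + 1 := ⟨_, rfl⟩
    rw [← ht]
    -- constants
    obtain ⟨jB, hjB⟩ : ∃ jB, jB = kp t 0 := ⟨_, rfl⟩
    obtain ⟨mB, hmB⟩ : ∃ mB, mB = nu t jB := ⟨_, rfl⟩
    obtain ⟨C, hC⟩ : ∃ C, C = 10 * (2 * mB * t) + 4 * (t + 3) + 16 := ⟨_, rfl⟩
    obtain ⟨mA, hmA⟩ : ∃ mA, mA = nu t C := ⟨_, rfl⟩
    obtain ⟨d, hd⟩ : ∃ d, d = mA + t + C := ⟨_, rfl⟩
    obtain ⟨φ, hφ⟩ : ∃ φ, φ = 2 * ((2 * d + 1) * (d + 1)) := ⟨_, rfl⟩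
    obtain ⟨m', hm'⟩ : ∃ m', m' = nu t (φ + 1) := ⟨_, rfl⟩
    obtain ⟨J, hJ⟩ : ∃ J, J = jB + C + φ + 1 := ⟨_, rfl⟩
    obtain ⟨N1, hN1⟩ := num_large2 t mB
    refine ⟨N' + C + (φ + 2 * m' + C) + 4 * t * (2 * mB * t) +
      8 * t * (2 * mB + 2 * (t + 3) + 1 + 3 * (2 * mB * t)) + N1 +
      t * (3 * (t + J) + 2 * nu t J), ?_⟩
    intro V _ r hT U hU hsc n hn hmono hsum
    have hlast : t * (3 * (t + J) + 2 * nu t J) ≤ t * n (t - 1) := by
      have h1 : ∑ i ∈ range t, n i ≤ t * n (t - 1) := by
        have := Finset.sum_le_card_nsmul (range t) n (n (t - 1)) (fun l hl => by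
          rw [Finset.mem_range] at hl
          exact hmono l (t - 1) (by omega) (by omega))
        simpa using this
      omega
    have hlast' : 3 * (t + J) + 2 * nu t J ≤ n (t - 1) :=
      Nat.le_of_mul_le_mul_left hlast (by omega)
    rcases dichotomy hsc J with hNP | ⟨j, hj, L, X, R, hsep, hX, hscj, hL, hR⟩
    · by_cases hsmall : ∀ i < t, C ≤ n i
      · -- all parts are large
        have h1 := hNP jB (by omega)
        apply step_B hT (m := mB) (by omega) (by rw [hmB]; exact nu_pos _ _)
          (hsc.cut (by omega)) (h1.mono (by omega) (by omega)) hsum hmono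
        · intro i hi
          rw [← hC]
          exact hsmall i hi
        · omega
        · omega
        · exact hN1 _ (by omega)
      · -- a small part
        push Not at hsmall
        obtain ⟨i, hi, hiC⟩ := hsmall
        have hn0 : n 0 ≤ C := (hmono 0 i (Nat.zero_le _) hi).trans hiC.le
        obtain ⟨K, hKU, hKc, hKcut, hKsc⟩ := step_A hT (t := t) (C := C) (m := mA) (m' := m')
          (d := d) (φ := φ) (n := n 0) (by rw [hm']; exact nu_pos _ _) hsc
          (by rw [hmA]; exact hNP C (by omega)) hd hφ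
          (by rw [hm']; exact (hNP (φ + 1) (by omega)).mono (by omega) le_rfl)
          (hn 0 (by omega)) hn0 (by omega)
        have hUK := Finset.card_sdiff_add_card_eq_card hKU
        have hsum' : ∑ i ∈ range s, n (i + 1) + n 0 = U.card := by
          rw [← hsum, ht, Finset.sum_range_succ']
        obtain ⟨P, hP1, hP2⟩ := ih V r hT (U \ K) (by omega)
          (by
            have : t - 1 = s := by omega
            rwa [this] at hKsc)
          (fun i => n (i + 1)) (fun i hi => hn (i + 1) (by omega))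
          (fun i j hij hj => hmono (i + 1) (j + 1) (by omega) (by omega)) (by omega)
        have hPK : ∀ j < s, Disjoint K (P j) := by
          intro j hj
          exact Finset.disjoint_of_subset_right (hP1 j hj).1 Finset.disjoint_sdiff
        refine ⟨fun j => if j = 0 then K else P (j - 1), ?_, ?_⟩
        · intro j hj
          by_cases hj0 : j = 0
          · subst hj0
            simp only [if_true]
            exact ⟨hKU, hKc, hKcut⟩
          · simp only [if_neg hj0]
            obtain ⟨h1, h2, h3⟩ := hP1 (j - 1) (by omega)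
            refine ⟨h1.trans Finset.sdiff_subset, ?_, h3⟩
            rw [h2]
            change n (j - 1 + 1) = n j
            rw [Nat.sub_add_cancel (by omega)]
        · intro i hi j hj hij
          by_cases hi0 : i = 0
          · subst hi0
            simp only [if_true, if_neg (Ne.symm hij)]
            exact hPK (j - 1) (by omega)
          · by_cases hj0 : j = 0
            · subst hj0
              simp only [if_true, if_neg hij]
              exact (hPK (i - 1) (by omega)).symm
            · simp only [if_neg hi0, if_neg hj0]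
              exact hP2 (i - 1) (by omega) (j - 1) (by omega) (by omega)
    · -- a plateau
      have h1 : nu t j ≤ nu t J := nu_mono t hj.le
      exact plateau hT (by omega) (by omega) hsep hX hscj hsc hL hR hn hsum (by omega)

theorem KConnected.sc {V : Type} [Fintype V] [DecidableEq V] {r : V → V → Prop} {k : ℕ}
    (h : KConnected r k) : SC r k 1 (univ : Finset V) := by
  intro L X R hs hL hR
  by_contra hX
  push Not at hX
  have hcut := (h.2 X hX).cut
  obtain ⟨h1, h2, h3, h4, h5⟩ := hs
  have hcov : ∀ v, v ∈ L ∨ v ∈ X ∨ v ∈ R := by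
    intro v
    have : v ∈ L ∪ X ∪ R := by
      rw [h4]
      exact Finset.mem_univ v
    rw [Finset.mem_union, Finset.mem_union] at this
    tauto
  obtain ⟨l, hl⟩ := Finset.card_pos.1 hL
  obtain ⟨u, hu, v, hv, huv⟩ := hcut R
    (by
      intro v hv
      exact Finset.mem_sdiff.2 ⟨Finset.mem_univ v, fun hvX => (Finset.disjoint_left.1 h3) hvX hv⟩)
    (Finset.card_pos.1 hR)
    (by
      intro he
      have : l ∈ R := by
        rw [he]
        exact Finset.mem_sdiff.2 ⟨Finset.mem_univ l, (Finset.disjoint_left.1 h1) hl⟩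
      exact (Finset.disjoint_left.1 h2) hl this)
  rw [Finset.mem_sdiff, Finset.mem_sdiff] at hv
  rcases hcov v with h6 | h6 | h6
  · exact h5 u hu v h6 huv
  · exact hv.1.2 h6
  · exact hv.2 h6

/-- From parts to cycles. -/
theorem partitionable_of_parts {V : Type} [Fintype V] [DecidableEq V] {r : V → V → Prop} {t : ℕ}
    (hT : IsTournament r) (h : ∀ n : ℕ → ℕ, (∀ i < t, 3 ≤ n i) →
      (∀ i j, i ≤ j → j < t → n i ≤ n j) → ∑ i ∈ range t, n i = (univ : Finset V).card →
      HasParts r t n univ) : Partitionable r t := by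
  intro n hn hN
  let σ := Tuple.sort n
  have hσ : Monotone (n ∘ σ) := Tuple.monotone_sort n
  let n' : ℕ → ℕ := fun i => if h : i < t then n (σ ⟨i, h⟩) else 0
  have hn' : ∀ i (h : i < t), n' i = n (σ ⟨i, h⟩) := fun i h => dif_pos h
  have hsum : ∑ l ∈ range t, n' l = (univ : Finset V).card := by
    rw [Finset.card_univ, ← hN, ← Equiv.sum_comp σ n, Finset.sum_range]
    apply Finset.sum_congr rfl
    intro i _
    rw [hn' i.1 i.2]
  obtain ⟨P, hP1, hP2⟩ := h n'
    (fun i hi => by
      rw [hn' i hi]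
      exact hn _)
    (fun i j hij hj => by
      rw [hn' i (by omega), hn' j hj]
      exact hσ (show (⟨i, by omega⟩ : Fin t) ≤ ⟨j, hj⟩ from hij)) hsum
  have hex : ∀ i : Fin t, ∃ c : ZMod (n i) → V, Function.Injective c ∧
      (∀ x, c x ∈ P (σ.symm i).1) ∧ ∀ x, r (c x) (c (x + 1)) := by
    intro i
    have h1 := (hP1 (σ.symm i).1 (σ.symm i).2).2
    rw [hn' _ (σ.symm i).2] at h1
    have h2 : n (σ ⟨(σ.symm i).1, (σ.symm i).2⟩) = n i := by simp
    rw [h2] at h1
    exact exists_hamilton hT h1.2 (hn i) h1.1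
  choose c hc1 hc2 hc3 using hex
  refine ⟨c, hc1, ?_, hc3⟩
  intro i j hij x y hxy
  have h1 : (σ.symm i).1 ≠ (σ.symm j).1 := by
    intro h
    exact hij (σ.symm.injective (Fin.ext h))
  exact (Finset.disjoint_left.1 (hP2 _ (σ.symm i).2 _ (σ.symm j).2 h1)) (hc2 i x)
    (hxy ▸ hc2 j y)

/-- The upper bound. -/
theorem f_le {t : ℕ} (ht : 1 ≤ t) : f t ≤ (t : ℕ∞) := by
  apply sInf_le
  obtain ⟨N₀, h⟩ := main_t t ht
  refine ⟨t, ht, rfl, N₀, ?_⟩
  intro N hN r hT hk
  apply partitionable_of_parts hT
  intro n hn hmono hsum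
  exact h (Fin N) r hT univ (by rw [Finset.card_univ, Fintype.card_fin]; exact hN) hk.sc n hn
    hmono hsum

end Pool.Agent.Work.MP_1399e9_co
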