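import Pool.Agent.Work.MP_1399e9_co.Cut

/-!
# The lower bound: `(t - 1)`-connected tournaments without `t` disjoint cycles
-/

namespace Pool.Agent.Work.MP_1399e9_co

open Finset Relation

/-- The order `0 < 1 < …` in which the arcs between the first `s` vertices and the vertices from
`s + M` on are reversed. -/
def low (s M : ℕ) {N : ℕ} (a b : Fin N) : Prop :=
  (a.1 < b.1 ∧ ¬ (a.1 < s ∧ s + M ≤ b.1)) ∨ (b.1 < s ∧ s + M ≤ a.1)

theorem low_tournament (s M N : ℕ) : IsTournament (low s M (N := N)) := by
  constructor
  · intro v h
    unfold low at h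
    omega
  · intro u v huv
    have h : u.1 ≠ v.1 := fun h => huv (Fin.ext h)
    unfold low
    omega

theorem low_kconn {s M N : ℕ} (hM : s < M) (hN : N = s + 2 * M) :
    KConnected (low s M (N := N)) s := by
  classical
  refine ⟨by rw [Fintype.card_fin]; omega, ?_⟩
  intro X hX
  have h1 : ∃ a : Fin N, a.1 < s ∧ a ∉ X := by
    by_contra hcon
    push Not at hcon
    have h2 : (univ.filter (fun a : Fin N => a.1 < s)) ⊆ X := fun a ha =>
      hcon a (Finset.mem_filter.1 ha).2
    have h3 := Finset.card_le_card h2
    have h4 : (univ.filter (fun a : Fin N => a.1 < s)).card = s := by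
      rw [Fin.card_filter_val_lt]
      omega
    omega
  have h2 : ∃ a : Fin N, s ≤ a.1 ∧ a.1 < s + M ∧ a ∉ X := by
    by_contra hcon
    push Not at hcon
    have h2 : (univ.filter (fun a : Fin N => s ≤ a.1 ∧ a.1 < s + M)) ⊆ X := fun a ha =>
      hcon a (Finset.mem_filter.1 ha).2.1 (Finset.mem_filter.1 ha).2.2
    have h3 := Finset.card_le_card h2
    have h4 : M ≤ (univ.filter (fun a : Fin N => s ≤ a.1 ∧ a.1 < s + M)).card := by
      have h5 : (univ.image (fun i : Fin M => (⟨s + i.1, by omega⟩ : Fin N))) ⊆
          univ.filter (fun a : Fin N => s ≤ a.1 ∧ a.1 < s + M) := by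
        intro a ha
        obtain ⟨i, _, rfl⟩ := Finset.mem_image.1 ha
        simp only [Finset.mem_filter, Finset.mem_univ, true_and]
        omega
      have h6 := Finset.card_le_card h5
      rw [Finset.card_image_of_injective _ (fun i j hij => by
        have := congrArg Fin.val hij
        simp only at this
        exact Fin.ext (by omega)), Finset.card_univ, Fintype.card_fin] at h6
      exact h6
    omega
  have h3 : ∃ a : Fin N, s + M ≤ a.1 ∧ a ∉ X := by
    by_contra hcon
    push Not at hcon
    have h2 : (univ.filter (fun a : Fin N => s + M ≤ a.1)) ⊆ X := fun a ha =>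
      hcon a (Finset.mem_filter.1 ha).2
    have h3 := Finset.card_le_card h2
    have h4 : M ≤ (univ.filter (fun a : Fin N => s + M ≤ a.1)).card := by
      have h5 : (univ.image (fun i : Fin M => (⟨s + M + i.1, by omega⟩ : Fin N))) ⊆
          univ.filter (fun a : Fin N => s + M ≤ a.1) := by
        intro a ha
        obtain ⟨i, _, rfl⟩ := Finset.mem_image.1 ha
        simp only [Finset.mem_filter, Finset.mem_univ, true_and]
        omega
      have h6 := Finset.card_le_card h5
      rw [Finset.card_image_of_injective _ (fun i j hij => by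
        have := congrArg Fin.val hij
        simp only at this
        exact Fin.ext (by omega)), Finset.card_univ, Fintype.card_fin] at h6
      exact h6
    omega
  obtain ⟨a, ha, haX⟩ := h1
  obtain ⟨b, hb1, hb2, hbX⟩ := h2
  obtain ⟨c, hc, hcX⟩ := h3
  have hmem : ∀ v : Fin N, v ∉ X → v ∈ univ \ X := fun v hv =>
    Finset.mem_sdiff.2 ⟨Finset.mem_univ _, hv⟩
  have hr : ∀ u v : Fin N, u ∉ X → v ∉ X → low s M u v → Rch (low s M) (univ \ X) u v :=
    fun u v hu hv h => Rch.single (hmem u hu) (hmem v hv) h
  have hab : Rch (low s M) (univ \ X) a b := hr a b haX hbX (by unfold low; omega)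
  have hbc : Rch (low s M) (univ \ X) b c := hr b c hbX hcX (by unfold low; omega)
  have hca : Rch (low s M) (univ \ X) c a := hr c a hcX haX (by unfold low; omega)
  apply StrongOn.of_hub a
  · intro v hv
    have hvX := (Finset.mem_sdiff.1 hv).2
    by_cases h1 : v.1 < s
    · exact (hab.trans hbc).trans (hr c v hcX hvX (by unfold low; omega))
    · by_cases h2 : v.1 < s + M
      · exact hr a v haX hvX (by unfold low; omega)
      · exact hab.trans (hr b v hbX hvX (by unfold low; omega))
  · intro v hv
    have hvX := (Finset.mem_sdiff.1 hv).2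
    by_cases h1 : v.1 < s
    · exact (hr v b hvX hbX (by unfold low; omega)).trans (hbc.trans hca)
    · by_cases h2 : v.1 < s + M
      · exact (hr v c hvX hcX (by unfold low; omega)).trans hca
      · exact hr v a hvX haX (by unfold low; omega)

theorem low_not_partitionable {s M N : ℕ} (hN3 : 3 * (s + 1) ≤ N) :
    ¬ Partitionable (low s M (N := N)) (s + 1) := by
  intro h
  obtain ⟨c, _, hc2, hc3⟩ := h (fun i => if i = 0 then N - 3 * s else 3)
    (by
      intro i
      by_cases hi : i = 0
      · simp only [if_pos hi]
        omega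
      · simp only [if_neg hi]
        omega)
    (by
      rw [Fin.sum_univ_succ, Fintype.card_fin]
      simp only [if_true, Fin.succ_ne_zero, if_false, Finset.sum_const, Finset.card_univ,
        Fintype.card_fin, smul_eq_mul]
      omega)
  -- every cycle meets the first `s` vertices
  have hmeet : ∀ i : Fin (s + 1), ∃ x, (c i x).1 < s := by
    intro i
    by_contra hcon
    push Not at hcon
    have hlt : ∀ x, (c i x).1 < (c i (x + 1)).1 := by
      intro x
      have h1 := hc3 i x
      have h2 := hcon x
      have h3 := hcon (x + 1)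
      unfold low at h1
      omega
    have hne : NeZero (if i = 0 then N - 3 * s else 3) := by
      constructor
      by_cases hi : i = 0
      · simp only [if_pos hi]
        omega
      · simp only [if_neg hi]
        omega
    obtain ⟨x, hx⟩ := Finite.exists_max (fun x => (c i x).1)
    have h4 := hx (x + 1)
    have h5 := hlt x
    omega
  choose g hg using hmeet
  have hinj : Function.Injective (fun i : Fin (s + 1) => (⟨(c i (g i)).1, hg i⟩ : Fin s)) := by
    intro i j hij
    by_contra hne
    have h1 := congrArg Fin.val hij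
    exact hc2 i j hne (g i) (g j) (Fin.ext h1)
  have := Fintype.card_le_of_injective _ hinj
  rw [Fintype.card_fin, Fintype.card_fin] at this
  omega

theorem KConnected.mono {V : Type} [Fintype V] [DecidableEq V] {r : V → V → Prop} {k k' : ℕ}
    (h : KConnected r k) (hk : k' ≤ k) : KConnected r k' :=
  ⟨hk.trans_lt h.1, fun S hS => h.2 S (hS.trans_le hk)⟩

theorem le_f {t : ℕ} : (t : ℕ∞) ≤ f t := by
  apply le_sInf
  rintro k ⟨m, hm, rfl, n₀, h⟩
  rw [Nat.cast_le]
  by_contra hlt
  push Not at hlt
  obtain ⟨s, rfl⟩ : ∃ s, t = s + 1 := ⟨t - 1, by omega⟩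
  have h1 := h (s + 2 * (n₀ + 3 * (s + 1))) (by omega) (low s (n₀ + 3 * (s + 1)))
    (low_tournament _ _ _) ((low_kconn (by omega) rfl).mono (by omega))
  exact low_not_partitionable (by omega) h1

end Pool.Agent.Work.MP_1399e9_co
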