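import Pool.Agent.Work.MP_1399e9_co.Cut

/-!
# Almost dominating transitive sets
-/

namespace Pool.Agent.Work.MP_1399e9_co

open Finset Relation

variable {V : Type} {r : V → V → Prop}

open Classical in
/-- Some vertex of `U` has fewer than `|U| / 2` in-neighbours in `U`. -/
theorem exists_low (hT : IsTournament r) {U : Finset V} (hU : U.Nonempty) :
    ∃ x ∈ U, 2 * (U.filter (fun v => r v x)).card < U.card := by
  by_contra hcon
  push Not at hcon
  have h1 : ∑ x ∈ U, (U.filter (fun v => r v x)).card = ∑ x ∈ U, (U.filter (fun v => r x v)).card := by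
    simp only [Finset.card_filter]
    rw [Finset.sum_comm]
  have h2 : ∀ x ∈ U, (U.filter (fun v => r v x)).card + (U.filter (fun v => r x v)).card + 1
      = U.card := by
    intro x hx
    have hd : Disjoint (U.filter (fun v => r v x)) (U.filter (fun v => r x v)) := by
      rw [Finset.disjoint_filter]
      intro v _ h3 h4
      exact hT.asymm h3 h4
    rw [← Finset.card_union_of_disjoint hd]
    have hxn : x ∉ U.filter (fun v => r v x) ∪ U.filter (fun v => r x v) := by
      simp only [Finset.mem_union, Finset.mem_filter, not_or, not_and]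
      exact ⟨fun _ => hT.1 x, fun _ => hT.1 x⟩
    rw [← Finset.card_insert_of_notMem hxn]
    congr 1
    ext v
    simp only [Finset.mem_insert, Finset.mem_union, Finset.mem_filter]
    constructor
    · rintro (rfl | h | h)
      · exact hx
      · exact h.1
      · exact h.1
    · intro hv
      by_cases hvx : v = x
      · exact Or.inl hvx
      · rcases hT.total hvx with h | h
        · exact Or.inr (Or.inl ⟨hv, h⟩)
        · exact Or.inr (Or.inr ⟨hv, h⟩)
  have h3 : ∑ x ∈ U, ((U.filter (fun v => r v x)).card + (U.filter (fun v => r x v)).card + 1)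
      = U.card * U.card := by
    rw [Finset.sum_congr rfl h2, Finset.sum_const, smul_eq_mul]
  rw [Finset.sum_add_distrib, Finset.sum_add_distrib, ← h1, Finset.sum_const] at h3
  have h4 : U.card * U.card ≤ ∑ x ∈ U, 2 * (U.filter (fun v => r v x)).card := by
    have := Finset.card_nsmul_le_sum U _ _ hcon
    simpa using this
  rw [← Finset.mul_sum] at h4
  have h5 : 0 < U.card := hU.card_pos
  simp only [smul_eq_mul, mul_one] at h3
  omega

open Classical in
theorem exists_dom (hT : IsTournament r) : ∀ (c : ℕ) (U : Finset V), U.Nonempty →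
    ∃ A ⊆ U, A.card ≤ c + 1 ∧ ∃ a ∈ A, ∃ x ∈ A, (∀ v ∈ A, v ≠ a → r a v) ∧
      (∀ v ∈ A, v ≠ x → r v x) ∧ 2 * (U.filter (fun v => r v x)).card < U.card ∧
      2 ^ (c + 1) * (U.filter (fun v => ∀ w ∈ A, r v w)).card ≤ U.card := by
  intro c
  induction c with
  | zero =>
    intro U hU
    obtain ⟨x, hx, h⟩ := exists_low hT hU
    refine ⟨{x}, Finset.singleton_subset_iff.2 hx, by simp, x, Finset.mem_singleton_self _, x,
      Finset.mem_singleton_self _, ?_, ?_, h, ?_⟩
    · intro v hv hvx
      exact absurd (Finset.mem_singleton.1 hv) hvx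
    · intro v hv hvx
      exact absurd (Finset.mem_singleton.1 hv) hvx
    · have : U.filter (fun v => ∀ w ∈ ({x} : Finset V), r v w) = U.filter (fun v => r v x) := by
        ext v
        simp
      rw [this]
      omega
  | succ c ih =>
    intro U hU
    obtain ⟨x, hx, h⟩ := exists_low hT hU
    by_cases hne : (U.filter (fun v => r v x)).Nonempty
    · obtain ⟨A, hA, hAc, a, ha, y, hy, h1, h2, h3, h4⟩ := ih _ hne
      have hxA : x ∉ A := fun h5 => hT.1 x (Finset.mem_filter.1 (hA h5)).2
      have hAx : ∀ v ∈ A, r v x := fun v hv => (Finset.mem_filter.1 (hA hv)).2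
      refine ⟨insert x A, Finset.insert_subset hx (hA.trans (Finset.filter_subset _ _)), ?_,
        a, Finset.mem_insert_of_mem ha, x, Finset.mem_insert_self _ _, ?_, ?_, h, ?_⟩
      · rw [Finset.card_insert_of_notMem hxA]
        omega
      · intro v hv hva
        rcases Finset.mem_insert.1 hv with rfl | hv
        · exact hAx a ha
        · exact h1 v hv hva
      · intro v hv hvx
        rcases Finset.mem_insert.1 hv with rfl | hv
        · exact absurd rfl hvx
        · exact hAx v hv
      · have e : U.filter (fun v => ∀ w ∈ insert x A, r v w)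
            = (U.filter (fun v => r v x)).filter (fun v => ∀ w ∈ A, r v w) := by
          ext v
          simp only [Finset.mem_filter, Finset.mem_insert, forall_eq_or_imp]
          tauto
        rw [e, pow_succ]
        calc 2 ^ (c + 1) * 2 * ((U.filter (fun v => r v x)).filter (fun v => ∀ w ∈ A, r v w)).card
            = 2 * (2 ^ (c + 1) *
              ((U.filter (fun v => r v x)).filter (fun v => ∀ w ∈ A, r v w)).card) := by ring
          _ ≤ 2 * (U.filter (fun v => r v x)).card := Nat.mul_le_mul_left _ h4
          _ ≤ U.card := h.le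
    · rw [Finset.not_nonempty_iff_eq_empty] at hne
      refine ⟨{x}, Finset.singleton_subset_iff.2 hx, by simp, x, Finset.mem_singleton_self _, x,
        Finset.mem_singleton_self _, ?_, ?_, h, ?_⟩
      · intro v hv hvx
        exact absurd (Finset.mem_singleton.1 hv) hvx
      · intro v hv hvx
        exact absurd (Finset.mem_singleton.1 hv) hvx
      · have : U.filter (fun v => ∀ w ∈ ({x} : Finset V), r v w) = ∅ := by
          rw [← hne]
          ext v
          simp
        rw [this]
        simp

end Pool.Agent.Work.MP_1399e9_co
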