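import Pool.Agent.Work.MP_1399e9_co.Thin
import Pool.Agent.Work.MP_1399e9_co.Dom

/-!
# Absorbing structures
-/

namespace Pool.Agent.Work.MP_1399e9_co

open Finset Relation

variable {V : Type} {r : V → V → Prop} [DecidableEq V]

open Classical in
theorem exists_link (hT : IsTournament r) {U : Finset V} {x y : V} (_hx : x ∈ U) (_hy : y ∈ U)
    (hx1 : 2 * (U.filter (fun v => r v x)).card < U.card)
    (hy1 : 2 * (U.filter (fun v => r y v)).card < U.card) :
    ∃ Z ⊆ U, Z.card ≤ 1 ∧ Rch r (insert x (insert y Z)) x y ∧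
      ∀ z ∈ Z, Rch r (insert x (insert y Z)) x z ∧ Rch r (insert x (insert y Z)) z y := by
  by_cases hxy : x = y
  · subst hxy
    refine ⟨∅, Finset.empty_subset _, by simp, Rch.refl, ?_⟩
    intro z hz
    exact absurd hz (Finset.notMem_empty _)
  by_cases hr : r x y
  · refine ⟨∅, Finset.empty_subset _, by simp, Rch.single (by simp) (by simp) hr, ?_⟩
    intro z hz
    exact absurd hz (Finset.notMem_empty _)
  · have hyx : r y x := hT.of_not (Ne.symm hxy) hr
    obtain ⟨z, hz, h1, h2⟩ : ∃ z ∈ U, ¬ r z x ∧ ¬ r y z := by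
      by_contra hcon
      push Not at hcon
      have h3 : U ⊆ U.filter (fun v => r v x) ∪ U.filter (fun v => r y v) := by
        intro z hz
        rw [Finset.mem_union, Finset.mem_filter, Finset.mem_filter]
        by_cases h : r z x
        · exact Or.inl ⟨hz, h⟩
        · exact Or.inr ⟨hz, hcon z hz h⟩
      have h4 := Finset.card_le_card h3
      have h5 := Finset.card_union_le (U.filter (fun v => r v x)) (U.filter (fun v => r y v))
      omega
    have hzx : z ≠ x := by
      rintro rfl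
      exact h2 hyx
    have hzy : z ≠ y := by
      rintro rfl
      exact h1 hyx
    have hxz : r x z := hT.of_not hzx.symm h1
    have hzy' : r z y := hT.of_not hzy h2
    have e1 : Rch r (insert x (insert y {z})) x z := Rch.single (by simp) (by simp) hxz
    have e2 : Rch r (insert x (insert y {z})) z y := Rch.single (by simp) (by simp) hzy'
    refine ⟨{z}, Finset.singleton_subset_iff.2 hz, by simp, e1.trans e2, ?_⟩
    intro w hw
    rw [Finset.mem_singleton] at hw
    subst hw
    exact ⟨e1, e2⟩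

open Classical in
theorem absorb (hT : IsTournament r) {k : ℕ} {U : Finset V} (hU : Conn r k U) (hk : 1 ≤ k)
    (hne : U.Nonempty) (c : ℕ) (hc : 1 ≤ c) :
    ∃ D ⊆ U, ∃ E : Finset V, 2 ^ c * E.card ≤ 2 * U.card ∧
      (∀ S ⊆ U, Disjoint S E → Cut r (D ∪ S)) ∧
      k * (D.card - (2 * c + 1)) ≤ U.card ∧
      ∀ C ⊆ D, ∀ k', k' + (2 * c + 3) ≤ k → Conn r k' (U \ C) := by
  obtain ⟨c, rfl⟩ : ∃ c', c = c' + 1 := ⟨c - 1, by omega⟩
  obtain ⟨A, hAU, hAc, a, haA, x, hxA, hA1, hA2, hA3, hA4⟩ := exists_dom hT c U hne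
  obtain ⟨B, hBU, hBc, b, hbB, y, hyB, hB1, hB2, hB3, hB4⟩ := exists_dom hT.flip c U hne
  have haU := hAU haA
  have hbU := hBU hbB
  obtain ⟨d, hdb, hd, hpred⟩ := exists_dist (hU.cut hk).strongOn hbU
  obtain ⟨P, hPU, hbP, haP, _, hPinj, hPc, hP1, hP2⟩ := exists_path hbU hdb hpred (d a) a haU rfl
  obtain ⟨Z, hZU, hZc, hZ1, hZ2⟩ := exists_link hT (hAU hxA) (hBU hyB) hA3 hB3
  have hDsub : A ∪ B ∪ Z ∪ P ⊆ U :=
    Finset.union_subset (Finset.union_subset (Finset.union_subset hAU hBU) hZU) hPU
  have hDP : (A ∪ B ∪ Z ∪ P) \ P ⊆ (A.erase a) ∪ (B.erase b) ∪ Z := by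
    intro v hv
    simp only [Finset.mem_sdiff, Finset.mem_union] at hv
    simp only [Finset.mem_union, Finset.mem_erase]
    have h1 : v ≠ a := by
      rintro rfl
      exact hv.2 haP
    have h2 : v ≠ b := by
      rintro rfl
      exact hv.2 hbP
    tauto
  have hDPc : ((A ∪ B ∪ Z ∪ P) \ P).card ≤ 2 * c + 1 := by
    have h1 := Finset.card_le_card hDP
    have h2 := Finset.card_union_le ((A.erase a) ∪ (B.erase b)) Z
    have h3 := Finset.card_union_le (A.erase a) (B.erase b)
    have h4 := Finset.card_erase_of_mem haA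
    have h5 := Finset.card_erase_of_mem hbB
    omega
  refine ⟨A ∪ B ∪ Z ∪ P, hDsub,
    U.filter (fun v => ∀ w ∈ A, r v w) ∪ U.filter (fun v => ∀ w ∈ B, r w v), ?_, ?_, ?_, ?_⟩
  · have h1 := Finset.card_union_le (U.filter (fun v => ∀ w ∈ A, r v w))
      (U.filter (fun v => ∀ w ∈ B, r w v))
    calc 2 ^ (c + 1) * (U.filter (fun v => ∀ w ∈ A, r v w) ∪
          U.filter (fun v => ∀ w ∈ B, r w v)).card
        ≤ 2 ^ (c + 1) * ((U.filter (fun v => ∀ w ∈ A, r v w)).card +
          (U.filter (fun v => ∀ w ∈ B, r w v)).card) := Nat.mul_le_mul_left _ h1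
      _ = 2 ^ (c + 1) * (U.filter (fun v => ∀ w ∈ A, r v w)).card +
          2 ^ (c + 1) * (U.filter (fun v => ∀ w ∈ B, r w v)).card := by ring
      _ ≤ U.card + U.card := Nat.add_le_add hA4 hB4
      _ = 2 * U.card := by ring
  · intro S hSU hSE
    apply StrongOn.cut
    have hW : A ∪ B ∪ Z ∪ P ⊆ (A ∪ B ∪ Z ∪ P) ∪ S := Finset.subset_union_left
    have hAW : A ⊆ (A ∪ B ∪ Z ∪ P) ∪ S := fun v hv => by simp [hv]
    have hBW : B ⊆ (A ∪ B ∪ Z ∪ P) ∪ S := fun v hv => by simp [hv]
    have hPW : P ⊆ (A ∪ B ∪ Z ∪ P) ∪ S := fun v hv => by simp [hv]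
    have hSW : S ⊆ (A ∪ B ∪ Z ∪ P) ∪ S := Finset.subset_union_right
    have hZW : insert x (insert y Z) ⊆ (A ∪ B ∪ Z ∪ P) ∪ S := by
      intro v hv
      rcases Finset.mem_insert.1 hv with rfl | hv
      · exact hAW hxA
      · rcases Finset.mem_insert.1 hv with rfl | hv
        · exact hBW hyB
        · simp [hv]
    have hmem : ∀ v ∈ (A ∪ B ∪ Z ∪ P) ∪ S, v ∈ A ∨ v ∈ B ∨ v ∈ Z ∨ v ∈ P ∨ v ∈ S := by
      intro v hv
      simp only [Finset.mem_union] at hv
      tauto
    generalize (A ∪ B ∪ Z ∪ P) ∪ S = W at *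
    have ra : ∀ v ∈ A, Rch r W a v := by
      intro v hv
      by_cases h : v = a
      · subst h
        exact Rch.refl
      · exact Rch.single (hAW haA) (hAW hv) (hA1 v hv h)
    have rx : ∀ v ∈ A, Rch r W v x := by
      intro v hv
      by_cases h : v = x
      · subst h
        exact Rch.refl
      · exact Rch.single (hAW hv) (hAW hxA) (hA2 v hv h)
    have ry : ∀ v ∈ B, Rch r W y v := by
      intro v hv
      by_cases h : v = y
      · subst h
        exact Rch.refl
      · exact Rch.single (hBW hyB) (hBW hv) (hB2 v hv h)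
    have rb : ∀ v ∈ B, Rch r W v b := by
      intro v hv
      by_cases h : v = b
      · subst h
        exact Rch.refl
      · exact Rch.single (hBW hv) (hBW hbB) (hB1 v hv h)
    have rxy : Rch r W x y := hZ1.mono hZW
    have rba : Rch r W b a := (hP2 b hbP).mono hPW
    have ray : Rch r W a y := (ra x hxA).trans rxy
    have rya : Rch r W y a := (rb y hyB).trans rba
    have rab : Rch r W a b := ray.trans (ry b hbB)
    have hSE1 : ∀ v ∈ S, ∃ w ∈ A, v = w ∨ r w v := by
      intro v hv
      by_contra hcon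
      push Not at hcon
      have h1 : v ∉ U.filter (fun v => ∀ w ∈ A, r v w) := fun h =>
        (Finset.disjoint_left.1 hSE hv) (Finset.mem_union_left _ h)
      apply h1
      refine Finset.mem_filter.2 ⟨hSU hv, fun w hw => ?_⟩
      exact hT.of_not (hcon w hw).1 (hcon w hw).2
    have hSE2 : ∀ v ∈ S, ∃ w ∈ B, v = w ∨ r v w := by
      intro v hv
      by_contra hcon
      push Not at hcon
      have h1 : v ∉ U.filter (fun v => ∀ w ∈ B, r w v) := fun h =>
        (Finset.disjoint_left.1 hSE hv) (Finset.mem_union_right _ h)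
      apply h1
      refine Finset.mem_filter.2 ⟨hSU hv, fun w hw => ?_⟩
      exact hT.of_not (Ne.symm (hcon w hw).1) (hcon w hw).2
    apply StrongOn.of_hub a
    · intro v hv
      rcases hmem v hv with h | h | h | h | h
      · exact ra v h
      · exact ray.trans (ry v h)
      · exact (ra x hxA).trans ((hZ2 v h).1.mono hZW)
      · exact rab.trans ((hP1 v h).mono hPW)
      · obtain ⟨w, hw, rfl | h1⟩ := hSE1 v h
        · exact ra v hw
        · exact (ra w hw).trans (Rch.single (hAW hw) hv h1)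
    · intro v hv
      rcases hmem v hv with h | h | h | h | h
      · exact (rx v h).trans (rxy.trans rya)
      · exact (rb v h).trans rba
      · exact ((hZ2 v h).2.mono hZW).trans rya
      · exact (hP2 v h).mono hPW
      · obtain ⟨w, hw, rfl | h1⟩ := hSE2 v h
        · exact (rb v hw).trans rba
        · exact (Rch.single hv (hBW hw) h1).trans ((rb w hw).trans rba)
  · have h1 := path_short hU hbU hdb hd haU
    have h2 : (A ∪ B ∪ Z ∪ P).card ≤ ((A ∪ B ∪ Z ∪ P) \ P).card + P.card := by
      rw [Finset.card_sdiff_add_card]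
      exact Finset.card_le_card Finset.subset_union_left
    refine (Nat.mul_le_mul_left k ?_).trans h1
    omega
  · intro C hC k' hk' X hX
    have e : (U \ C) \ X = (U \ (P ∩ C)) \ (X ∪ (C \ P)) := by
      ext v
      simp only [Finset.mem_sdiff, Finset.mem_inter, Finset.mem_union]
      tauto
    rw [e]
    apply thin hT hU d hd (Finset.inter_subset_left.trans hPU)
    · intro p hp q hq hpq
      exact hPinj p (Finset.mem_inter.1 hp).1 q (Finset.mem_inter.1 hq).1 hpq
    · have h1 : (C \ P).card ≤ 2 * c + 1 :=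
        (Finset.card_le_card (Finset.sdiff_subset_sdiff hC (Finset.Subset.refl P))).trans hDPc
      have h2 := Finset.card_union_le X (C \ P)
      omega

end Pool.Agent.Work.MP_1399e9_co
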