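import Pool.Agent.Work.MP_1399e9_co.Thin2
import Pool.Agent.Work.MP_1399e9_co.Absorb

/-!
# Absorbing structures in tournaments all of whose large separations have large order
-/

namespace Pool.Agent.Work.MP_1399e9_co

open Finset Relation

variable {V : Type} {r : V → V → Prop} [DecidableEq V]

/-- `v` has an in-neighbour and an out-neighbour in `D`. -/
def Att (r : V → V → Prop) (D : Finset V) (v : V) : Prop := (∃ w ∈ D, r w v) ∧ ∃ w ∈ D, r v w

omit [DecidableEq V] in
theorem Att.mono {D D' : Finset V} (h : D ⊆ D') {v : V} (hv : Att r D v) : Att r D' v := by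
  obtain ⟨⟨a, ha, h1⟩, b, hb, h2⟩ := hv
  exact ⟨⟨a, h ha, h1⟩, b, h hb, h2⟩

theorem Cut.union_att {D S : Finset V} (hD : Cut r D) (hne : D.Nonempty)
    (hS : ∀ v ∈ S, v ∈ D ∨ Att r D v) : Cut r (D ∪ S) := by
  apply StrongOn.cut
  have hD' := hD.strongOn
  obtain ⟨a, ha⟩ := hne
  have hs : D ⊆ D ∪ S := Finset.subset_union_left
  have hin : ∀ v ∈ D, ∀ w ∈ D, Rch r (D ∪ S) v w := fun v hv w hw => Rch.mono hs (hD' v hv w hw)
  apply StrongOn.of_hub a
  · intro v hv
    by_cases hvD : v ∈ D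
    · exact hin a ha v hvD
    · have hvS : v ∈ S := (Finset.mem_union.1 hv).resolve_left hvD
      obtain ⟨⟨w, hw, h1⟩, _⟩ := (hS v hvS).resolve_left hvD
      exact (hin a ha w hw).trans (Rch.single (hs hw) hv h1)
  · intro v hv
    by_cases hvD : v ∈ D
    · exact hin v hvD a ha
    · have hvS : v ∈ S := (Finset.mem_union.1 hv).resolve_left hvD
      obtain ⟨_, w, hw, h1⟩ := (hS v hvS).resolve_left hvD
      exact (Rch.single hv (hs hw) h1).trans (hin w hw a ha)

theorem geo_rch {p : ℕ → V} {l : ℕ} (hr : ∀ j < l, r (p j) (p (j + 1))) {i j : ℕ} (hij : i ≤ j)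
    (hj : j ≤ l) : Rch r ((Finset.Icc i j).image p) (p i) (p j) := by
  induction j, hij using Nat.le_induction with
  | base => exact Rch.refl
  | succ j hij ih =>
    have h1 : (Finset.Icc i j).image p ⊆ (Finset.Icc i (j + 1)).image p :=
      Finset.image_subset_image (Finset.Icc_subset_Icc_right (Nat.le_succ j))
    refine ((ih (by omega)).mono h1).trans (Rch.single ?_ ?_ (hr j (by omega)))
    · exact Finset.mem_image_of_mem _ (Finset.mem_Icc.2 ⟨hij, Nat.le_succ j⟩)
    · exact Finset.mem_image_of_mem _ (Finset.mem_Icc.2 ⟨by omega, le_rfl⟩)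

open Classical in
theorem absorb2 (hT : IsTournament r) {k m : ℕ} {U : Finset V} (hU : Cut r U)
    (hsc : SC r k m U) (hne : U.Nonempty) (c : ℕ) (hc : 1 ≤ c) :
    ∃ D ⊆ U, ∃ E : Finset V, ∃ (d : V → ℕ) (p : ℕ → V) (l : ℕ), 2 ^ c * E.card ≤ 2 * U.card ∧
      Cut r D ∧ D.Nonempty ∧ (∀ v ∈ U, v ∉ E → v ∈ D ∨ Att r D v) ∧
      D.card ≤ l + 1 + (2 * c + 1) ∧ k * (l + 1 - 2 * m) ≤ U.card ∧
      (∀ u ∈ U, ∀ v ∈ U, r u v → d v ≤ d u + 1) ∧ (∀ j ≤ l, p j ∈ U ∧ d (p j) = j) ∧
      (∀ j < l, r (p j) (p (j + 1))) ∧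
      ∀ k', k' + (2 * c + 1) + 4 ≤ k → SC r k' m (U \ D) := by
  obtain ⟨c, rfl⟩ : ∃ c', c = c' + 1 := ⟨c - 1, by omega⟩
  obtain ⟨A, hAU, hAc, a, haA, x, hxA, hA1, hA2, hA3, hA4⟩ := exists_dom hT c U hne
  obtain ⟨B, hBU, hBc, b, hbB, y, hyB, hB1, hB2, hB3, hB4⟩ := exists_dom hT.flip c U hne
  have haU := hAU haA
  have hbU := hBU hbB
  obtain ⟨d, hdb, hd, hpred⟩ := exists_dist hU.strongOn hbU
  obtain ⟨p, hp0, hpl, hp, hpr⟩ := exists_geo hbU hdb hpred (d a) a haU rfl
  obtain ⟨l, hl⟩ : ∃ l, l = d a := ⟨_, rfl⟩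
  rw [← hl] at hpl hp hpr
  obtain ⟨P, hP⟩ : ∃ P, P = (Finset.Icc 0 l).image p := ⟨_, rfl⟩
  have hPmem : ∀ v, v ∈ P ↔ ∃ j ≤ l, p j = v := by
    intro v
    rw [hP, Finset.mem_image]
    constructor
    · rintro ⟨j, hj, h⟩
      exact ⟨j, (Finset.mem_Icc.1 hj).2, h⟩
    · rintro ⟨j, hj, h⟩
      exact ⟨j, Finset.mem_Icc.2 ⟨Nat.zero_le _, hj⟩, h⟩
  have hPU : P ⊆ U := by
    intro v hv
    obtain ⟨j, hj, rfl⟩ := (hPmem v).1 hv
    exact (hp j hj).1
  have hPinj : ∀ v ∈ P, ∀ w ∈ P, d v = d w → v = w := by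
    intro v hv w hw hvw
    obtain ⟨i, hi, rfl⟩ := (hPmem v).1 hv
    obtain ⟨j, hj, rfl⟩ := (hPmem w).1 hw
    rw [(hp i hi).2, (hp j hj).2] at hvw
    rw [hvw]
  have hPc : P.card ≤ l + 1 := by
    rw [hP]
    refine Finset.card_image_le.trans ?_
    rw [Nat.card_Icc]
    omega
  have haP : a ∈ P := (hPmem a).2 ⟨l, le_rfl, hpl⟩
  have hbP : b ∈ P := (hPmem b).2 ⟨0, Nat.zero_le _, hp0⟩
  have hP1 : ∀ v ∈ P, Rch r P b v := by
    intro v hv
    obtain ⟨j, hj, rfl⟩ := (hPmem v).1 hv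
    rw [← hp0]
    refine (geo_rch hpr (Nat.zero_le j) hj).mono ?_
    rw [hP]
    exact Finset.image_subset_image (Finset.Icc_subset_Icc_right hj)
  have hP2 : ∀ v ∈ P, Rch r P v a := by
    intro v hv
    obtain ⟨j, hj, rfl⟩ := (hPmem v).1 hv
    rw [← hpl]
    refine (geo_rch hpr hj le_rfl).mono ?_
    rw [hP]
    exact Finset.image_subset_image (Finset.Icc_subset_Icc_left (Nat.zero_le j))
  obtain ⟨Z, hZU, hZc, hZ1, hZ2⟩ := exists_link hT (hAU hxA) (hBU hyB) hA3 hB3
  have hDsub : A ∪ B ∪ Z ∪ P ⊆ U :=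
    Finset.union_subset (Finset.union_subset (Finset.union_subset hAU hBU) hZU) hPU
  have hDP : (A ∪ B ∪ Z ∪ P) \ P ⊆ (A.erase a) ∪ (B.erase b) ∪ Z := by
    intro v hv
    simp only [Finset.mem_sdiff, Finset.mem_union] at hv
    simp only [Finset.mem_union, Finset.mem_erase]
    have h1 : v ≠ a := by
      rintro rfl
      exact hv.2 haP
    have h2 : v ≠ b := by
      rintro rfl
      exact hv.2 hbP
    tauto
  have hDPc : ((A ∪ B ∪ Z ∪ P) \ P).card ≤ 2 * c + 1 := by
    have h1 := Finset.card_le_card hDP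
    have h2 := Finset.card_union_le ((A.erase a) ∪ (B.erase b)) Z
    have h3 := Finset.card_union_le (A.erase a) (B.erase b)
    have h4 := Finset.card_erase_of_mem haA
    have h5 := Finset.card_erase_of_mem hbB
    omega
  refine ⟨A ∪ B ∪ Z ∪ P, hDsub,
    U.filter (fun v => ∀ w ∈ A, r v w) ∪ U.filter (fun v => ∀ w ∈ B, r w v), d, p, l, ?_, ?_,
    ⟨a, by simp [haA]⟩, ?_, ?_, geo_short hsc hd hp, hd, hp, hpr, ?_⟩
  · have h1 := Finset.card_union_le (U.filter (fun v => ∀ w ∈ A, r v w))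
      (U.filter (fun v => ∀ w ∈ B, r w v))
    calc 2 ^ (c + 1) * (U.filter (fun v => ∀ w ∈ A, r v w) ∪
          U.filter (fun v => ∀ w ∈ B, r w v)).card
        ≤ 2 ^ (c + 1) * ((U.filter (fun v => ∀ w ∈ A, r v w)).card +
          (U.filter (fun v => ∀ w ∈ B, r w v)).card) := Nat.mul_le_mul_left _ h1
      _ = 2 ^ (c + 1) * (U.filter (fun v => ∀ w ∈ A, r v w)).card +
          2 ^ (c + 1) * (U.filter (fun v => ∀ w ∈ B, r w v)).card := by ring
      _ ≤ U.card + U.card := Nat.add_le_add hA4 hB4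
      _ = 2 * U.card := by ring
  · apply StrongOn.cut
    have hAW : A ⊆ A ∪ B ∪ Z ∪ P := fun v hv => by simp [hv]
    have hBW : B ⊆ A ∪ B ∪ Z ∪ P := fun v hv => by simp [hv]
    have hPW : P ⊆ A ∪ B ∪ Z ∪ P := fun v hv => by simp [hv]
    have hZW : insert x (insert y Z) ⊆ A ∪ B ∪ Z ∪ P := by
      intro v hv
      rcases Finset.mem_insert.1 hv with rfl | hv
      · exact hAW hxA
      · rcases Finset.mem_insert.1 hv with rfl | hv
        · exact hBW hyB
        · simp [hv]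
    have hmem : ∀ v ∈ A ∪ B ∪ Z ∪ P, v ∈ A ∨ v ∈ B ∨ v ∈ Z ∨ v ∈ P := by
      intro v hv
      simp only [Finset.mem_union] at hv
      tauto
    generalize A ∪ B ∪ Z ∪ P = W at *
    have ra : ∀ v ∈ A, Rch r W a v := by
      intro v hv
      by_cases h : v = a
      · subst h
        exact Rch.refl
      · exact Rch.single (hAW haA) (hAW hv) (hA1 v hv h)
    have rx : ∀ v ∈ A, Rch r W v x := by
      intro v hv
      by_cases h : v = x
      · subst h
        exact Rch.refl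
      · exact Rch.single (hAW hv) (hAW hxA) (hA2 v hv h)
    have ry : ∀ v ∈ B, Rch r W y v := by
      intro v hv
      by_cases h : v = y
      · subst h
        exact Rch.refl
      · exact Rch.single (hBW hyB) (hBW hv) (hB2 v hv h)
    have rb : ∀ v ∈ B, Rch r W v b := by
      intro v hv
      by_cases h : v = b
      · subst h
        exact Rch.refl
      · exact Rch.single (hBW hv) (hBW hbB) (hB1 v hv h)
    have rxy : Rch r W x y := hZ1.mono hZW
    have rba : Rch r W b a := (hP2 b hbP).mono hPW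
    have ray : Rch r W a y := (ra x hxA).trans rxy
    have rya : Rch r W y a := (rb y hyB).trans rba
    have rab : Rch r W a b := ray.trans (ry b hbB)
    apply StrongOn.of_hub a
    · intro v hv
      rcases hmem v hv with h | h | h | h
      · exact ra v h
      · exact ray.trans (ry v h)
      · exact (ra x hxA).trans ((hZ2 v h).1.mono hZW)
      · exact rab.trans ((hP1 v h).mono hPW)
    · intro v hv
      rcases hmem v hv with h | h | h | h
      · exact (rx v h).trans (rxy.trans rya)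
      · exact (rb v h).trans rba
      · exact ((hZ2 v h).2.mono hZW).trans rya
      · exact (hP2 v h).mono hPW
  · intro v hv hvE
    rw [Finset.mem_union, not_or, Finset.mem_filter, Finset.mem_filter, not_and, not_and] at hvE
    have h1 := hvE.1 hv
    have h2 := hvE.2 hv
    push Not at h1 h2
    obtain ⟨w1, hw1, h1⟩ := h1
    obtain ⟨w2, hw2, h2⟩ := h2
    by_cases e1 : v = w1
    · left
      rw [e1]
      simp [hw1]
    · by_cases e2 : v = w2
      · left
        rw [e2]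
        simp [hw2]
      · right
        exact ⟨⟨w1, by simp [hw1], hT.of_not (Ne.symm e1) h1⟩,
          w2, by simp [hw2], hT.of_not e2 h2⟩
  · have h2 : (A ∪ B ∪ Z ∪ P).card ≤ ((A ∪ B ∪ Z ∪ P) \ P).card + P.card := by
      rw [Finset.card_sdiff_add_card]
      exact Finset.card_le_card Finset.subset_union_left
    omega
  · intro k' hk'
    have h1 : SC r (k' + (2 * c + 1)) m (U \ P) := thin_sc hT hsc d hd hPU hPinj (by omega)
    have e : U \ (A ∪ B ∪ Z ∪ P) = (U \ P) \ ((A ∪ B ∪ Z ∪ P) \ P) := by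
      ext v
      simp only [Finset.mem_sdiff, Finset.mem_union]
      tauto
    rw [e]
    exact h1.sdiff _ (by omega)

end Pool.Agent.Work.MP_1399e9_co
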