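import Pool.Agent.Work.MP_1399e9_co.Defs

/-!
# Cuts and reachability
-/

namespace Pool.Agent.Work.MP_1399e9_co

open Finset Relation

variable {V : Type} {r : V → V → Prop}

theorem IsTournament.ne (h : IsTournament r) {u v : V} (huv : r u v) : u ≠ v := by
  rintro rfl
  exact h.1 u huv

theorem IsTournament.asymm (h : IsTournament r) {u v : V} (huv : r u v) : ¬ r v u :=
  (h.2 u v (h.ne huv)).1 huv

theorem IsTournament.of_not (h : IsTournament r) {u v : V} (hne : u ≠ v) (huv : ¬ r v u) :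
    r u v := (h.2 u v hne).2 huv

theorem IsTournament.total (h : IsTournament r) {u v : V} (hne : u ≠ v) : r u v ∨ r v u := by
  by_cases h1 : r v u
  · exact Or.inr h1
  · exact Or.inl (h.of_not hne h1)

theorem IsTournament.flip (h : IsTournament r) : IsTournament (fun a b => r b a) :=
  ⟨h.1, fun u v huv => h.2 v u huv.symm⟩

/-- Reachability inside `W`. -/
def Rch (r : V → V → Prop) (W : Finset V) : V → V → Prop :=
  ReflTransGen (fun a b => a ∈ W ∧ b ∈ W ∧ r a b)

theorem Rch.mono {W W' : Finset V} (h : W ⊆ W') {u v : V} (huv : Rch r W u v) :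
    Rch r W' u v := by
  induction huv with
  | refl => exact ReflTransGen.refl
  | tail _ h1 ih => exact ih.tail ⟨h h1.1, h h1.2.1, h1.2.2⟩

theorem Rch.single {W : Finset V} {u v : V} (hu : u ∈ W) (hv : v ∈ W) (h : r u v) :
    Rch r W u v := ReflTransGen.single ⟨hu, hv, h⟩

theorem Rch.refl {W : Finset V} {u : V} : Rch r W u u := ReflTransGen.refl

theorem Rch.trans {W : Finset V} {u v w : V} (h : Rch r W u v) (h' : Rch r W v w) :
    Rch r W u w := ReflTransGen.trans h h'

section
variable [DecidableEq V]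

/-- There is an arc from every nonempty proper subset `R` of `S` to `S \ R`. -/
def Cut (r : V → V → Prop) (S : Finset V) : Prop :=
  ∀ R ⊆ S, R.Nonempty → R ≠ S → ∃ u ∈ R, ∃ v ∈ S \ R, r u v

/-- Removing fewer than `k` vertices leaves the cut property. -/
def Conn (r : V → V → Prop) (k : ℕ) (U : Finset V) : Prop :=
  ∀ X : Finset V, X.card < k → Cut r (U \ X)

theorem StrongOn.cut {S : Finset V} (h : StrongOn r S) : Cut r S := by
  intro R hR hne hRS
  obtain ⟨u, hu⟩ := hne
  obtain ⟨v, hvS, hvR⟩ : ∃ v ∈ S, v ∉ R := by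
    by_contra hcon
    push Not at hcon
    exact hRS (Finset.Subset.antisymm hR hcon)
  have h1 := h u (hR hu) v hvS
  by_contra hcon
  push Not at hcon
  have key : ∀ w, ReflTransGen (fun a b => a ∈ S ∧ b ∈ S ∧ r a b) u w → w ∈ R := by
    intro w hw
    induction hw with
    | refl => exact hu
    | tail _ h2 ih =>
      by_contra h3
      exact hcon _ ih _ (Finset.mem_sdiff.2 ⟨h2.2.1, h3⟩) h2.2.2
  exact hvR (key v h1)

theorem Cut.strongOn {S : Finset V} (h : Cut r S) : StrongOn r S := by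
  classical
  intro u hu v hv
  by_contra hcon
  let R : Finset V := S.filter (fun w => ReflTransGen (fun a b => a ∈ S ∧ b ∈ S ∧ r a b) u w)
  have hR : R ⊆ S := Finset.filter_subset _ _
  have huR : u ∈ R := Finset.mem_filter.2 ⟨hu, ReflTransGen.refl⟩
  have hvR : v ∉ R := fun h1 => hcon (Finset.mem_filter.1 h1).2
  obtain ⟨a, ha, b, hb, hab⟩ := h R hR ⟨u, huR⟩ (fun h1 => hvR (h1 ▸ hv))
  rw [Finset.mem_sdiff] at hb
  exact hb.2 (Finset.mem_filter.2 ⟨hb.1, (Finset.mem_filter.1 ha).2.tail ⟨hR ha, hb.1, hab⟩⟩)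

theorem cut_iff {S : Finset V} : Cut r S ↔ StrongOn r S := ⟨Cut.strongOn, StrongOn.cut⟩

omit [DecidableEq V] in
theorem StrongOn.of_hub {S : Finset V} (a : V) (h1 : ∀ v ∈ S, Rch r S a v)
    (h2 : ∀ v ∈ S, Rch r S v a) : StrongOn r S :=
  fun u hu v hv => (h2 u hu).trans (h1 v hv)

theorem Conn.mono {k k' : ℕ} (hk : k' ≤ k) {U : Finset V} (h : Conn r k U) : Conn r k' U :=
  fun X hX => h X (hX.trans_le hk)

theorem Conn.cut {k : ℕ} {U : Finset V} (h : Conn r k U) (hk : 1 ≤ k) : Cut r U := by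
  have := h ∅ (by rw [Finset.card_empty]; omega)
  simpa using this

end

end Pool.Agent.Work.MP_1399e9_co
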