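import Mathlib

/-!
# Disjoint cycles of prescribed lengths covering a highly connected tournament: definitions
-/

namespace Pool.Agent.Work.MP_1399e9_co

/-- `r` is a tournament on `V`: there are no loops and every two distinct vertices are joined by
exactly one arc (`r u v` says that there is an arc from `u` to `v`). -/
def IsTournament {V : Type} (r : V → V → Prop) : Prop :=
  (∀ v, ¬ r v v) ∧ ∀ u v, u ≠ v → (r u v ↔ ¬ r v u)

/-- The subdigraph of `r` induced on `U` is strongly connected: for all `u, v ∈ U` there is a
directed walk from `u` to `v` inside `U`. -/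
def StrongOn {V : Type} (r : V → V → Prop) (U : Finset V) : Prop :=
  ∀ u ∈ U, ∀ v ∈ U, Relation.ReflTransGen (fun a b => a ∈ U ∧ b ∈ U ∧ r a b) u v

/-- `r` is `k`-connected: it has more than `k` vertices and deleting fewer than `k` vertices
always leaves a strongly connected digraph. -/
def KConnected {V : Type} [Fintype V] [DecidableEq V] (r : V → V → Prop) (k : ℕ) : Prop :=
  k < Fintype.card V ∧ ∀ S : Finset V, S.card < k → StrongOn r (Finset.univ \ S)

/-- `r` is `t`-partitionable: for all `n₁, …, n_t ≥ 3` whose sum is the number of vertices there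
are pairwise disjoint directed cycles of lengths `n₁, …, n_t`. The cycle of length `n i` is
given by its vertices `c i x`, `x ∈ ZMod (n i)`. -/
def Partitionable {V : Type} [Fintype V] (r : V → V → Prop) (t : ℕ) : Prop :=
  ∀ n : Fin t → ℕ, (∀ i, 3 ≤ n i) → ∑ i, n i = Fintype.card V →
    ∃ c : (i : Fin t) → ZMod (n i) → V,
      (∀ i, Function.Injective (c i)) ∧
      (∀ i j, i ≠ j → ∀ x y, c i x ≠ c j y) ∧
      ∀ i x, r (c i x) (c i (x + 1))

/-- The function of the problem: `f t` is the least `k ≥ 1` such that all tournaments with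
sufficiently many vertices that are `k`-connected are `t`-partitionable (`⊤` if there is none). -/
noncomputable def f (t : ℕ) : ℕ∞ :=
  sInf {k : ℕ∞ | ∃ m : ℕ, 1 ≤ m ∧ k = m ∧ ∃ n₀ : ℕ, ∀ N : ℕ, n₀ ≤ N →
    ∀ r : Fin N → Fin N → Prop, IsTournament r → KConnected r m → Partitionable r t}

end Pool.Agent.Work.MP_1399e9_co
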