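import Mathlib

/-!
# Greedy choice of disjoint sets avoiding forbidden sets
-/

namespace Pool.Agent.Work.MP_1399e9_co

open Finset

theorem fill {V : Type} [DecidableEq V] (W : Finset V) (ρ : ℕ → ℕ) (E : ℕ → Finset V) (T : ℕ)
    (h : ∀ j < T, ∑ l ∈ range (j + 1), ρ l + (E j).card ≤ W.card) :
    ∃ R : ℕ → Finset V, (∀ j < T, R j ⊆ W ∧ (R j).card = ρ j ∧ Disjoint (R j) (E j)) ∧
      ∀ i < T, ∀ j < T, i ≠ j → Disjoint (R i) (R j) := by
  induction T with
  | zero => exact ⟨fun _ => ∅, fun j hj => absurd hj (Nat.not_lt_zero j),
      fun j hj => absurd hj (Nat.not_lt_zero j)⟩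
  | succ T ih =>
    obtain ⟨R, hR1, hR2⟩ := ih (fun j hj => h j (by omega))
    have h1 : ((range T).biUnion R).card ≤ ∑ l ∈ range T, ρ l := by
      refine Finset.card_biUnion_le.trans (Finset.sum_le_sum fun l hl => ?_)
      exact (hR1 l (Finset.mem_range.1 hl)).2.1.le
    have h2 := h T (by omega)
    rw [Finset.sum_range_succ] at h2
    have h3 : ρ T ≤ (W \ (E T ∪ (range T).biUnion R)).card := by
      have h4 := Finset.le_card_sdiff (E T ∪ (range T).biUnion R) W
      have h5 := Finset.card_union_le (E T) ((range T).biUnion R)
      omega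
    obtain ⟨X, hX, hXc⟩ := Finset.exists_subset_card_eq h3
    have hX1 : X ⊆ W := hX.trans Finset.sdiff_subset
    have hX2 : Disjoint X (E T) := by
      rw [Finset.disjoint_left]
      intro v hv hv2
      have := hX hv
      rw [Finset.mem_sdiff, Finset.mem_union, not_or] at this
      exact this.2.1 hv2
    have hX3 : ∀ j < T, Disjoint X (R j) := by
      intro j hj
      rw [Finset.disjoint_left]
      intro v hv hv2
      have := hX hv
      rw [Finset.mem_sdiff, Finset.mem_union, not_or] at this
      exact this.2.2 (Finset.mem_biUnion.2 ⟨j, Finset.mem_range.2 hj, hv2⟩)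
    refine ⟨Function.update R T X, ?_, ?_⟩
    · intro j hj
      by_cases hjT : j = T
      · subst hjT
        rw [Function.update_self]
        exact ⟨hX1, hXc, hX2⟩
      · rw [Function.update_of_ne hjT]
        exact hR1 j (by omega)
    · intro i hi j hj hij
      by_cases hiT : i = T
      · subst hiT
        rw [Function.update_self, Function.update_of_ne (Ne.symm hij)]
        exact hX3 j (by omega)
      · by_cases hjT : j = T
        · subst hjT
          rw [Function.update_self, Function.update_of_ne hij]
          exact (hX3 i (by omega)).symm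
        · rw [Function.update_of_ne hiT, Function.update_of_ne hjT]
          exact hR2 i (by omega) j (by omega) hij

end Pool.Agent.Work.MP_1399e9_co
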