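import Pool.Agent.Work.MP_1399e9_co.GL0

/-!
# The augmentation step of the directed Győri–Lovász theorem
-/

namespace Pool.Agent.Work.MP_1399e9_co

open Finset Relation

/-- The data of an augmentation problem: a digraph `r`, a ground set `Ω`, a part `G0` that is to
grow, and roots `x i` and sizes `s i` (`i ∈ I`) of the other parts. -/
structure Dat (V ι : Type) where
  r : V → V → Prop
  Ω : Finset V
  G0 : Finset V
  I : Finset ι
  x : ι → V
  s : ι → ℕ

variable {V ι : Type} [DecidableEq V] [DecidableEq ι] (D : Dat V ι)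

/-- A system of disjoint rooted parts. -/
structure Dat.Sys (G : ι → Finset V) : Prop where
  sub : ∀ i ∈ D.I, G i ⊆ D.Ω \ D.G0
  root : ∀ i ∈ D.I, Rooted D.r (D.x i) (G i)
  disj : ∀ i ∈ D.I, ∀ j ∈ D.I, i ≠ j → Disjoint (G i) (G j)
  card : ∀ i ∈ D.I, (G i).card = D.s i

/-- The set reached through the reservoirs of the vertices `v i`. -/
noncomputable def Dat.Bv (G : ι → Finset V) (v : ι → V) : Finset V :=
  D.G0 ∪ D.I.biUnion (fun i => Res D.r (G i) (D.x i) (v i))

/-- The step condition of a cascade. -/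
def Dat.StepC (G : ι → Finset V) (v w : ι → V) : Prop :=
  ∀ i ∈ D.I, w i = v i ∨ (w i ∈ G i ∧ w i ∉ Res D.r (G i) (D.x i) (v i) ∧ w i ≠ v i ∧
    ∃ b ∈ D.Bv G v, D.r b (w i))

/-- Cascades. -/
structure Dat.Casc (G : ι → Finset V) (u : ℕ → ι → V) : Prop where
  zero : ∀ i ∈ D.I, u 0 i = D.x i
  step : ∀ j, D.StepC G (u j) (u (j + 1))

/-- Lexicographically maximal in the first `j` ranks. -/
def Dat.Good : ℕ → (ι → Finset V) → (ℕ → ι → V) → Prop
  | 0, _, _ => True
  | j + 1, G, u => Dat.Good j G u ∧ ∀ G' u', D.Sys G' → D.Casc G' u' → Dat.Good j G' u' →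
      (D.Bv G' (u' (j + 1))).card ≤ (D.Bv G (u (j + 1))).card

variable {D}

omit [DecidableEq ι] in
theorem Dat.Sys.leftover_mem {G : ι → Finset V} {w : V}
    (hw : w ∈ D.Ω \ (D.G0 ∪ D.I.biUnion G)) : w ∈ D.Ω ∧ w ∉ D.G0 ∧ ∀ i ∈ D.I, w ∉ G i := by
  simp only [Finset.mem_sdiff, Finset.mem_union, Finset.mem_biUnion, not_or, not_exists,
    not_and] at hw
  exact ⟨hw.1, hw.2.1, hw.2.2⟩

omit [DecidableEq ι] in
theorem mem_Bv {G : ι → Finset V} {v : ι → V} {b : V} :
    b ∈ D.Bv G v ↔ b ∈ D.G0 ∨ ∃ i ∈ D.I, b ∈ Res D.r (G i) (D.x i) (v i) := by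
  simp [Dat.Bv]

omit [DecidableEq ι] in
theorem Dat.Casc.mem {G : ι → Finset V} {u : ℕ → ι → V} (hG : D.Sys G) (hu : D.Casc G u) :
    ∀ j, ∀ i ∈ D.I, u j i ∈ G i := by
  intro j
  induction j with
  | zero =>
    intro i hi
    rw [hu.zero i hi]
    exact (hG.root i hi).1
  | succ j ih =>
    intro i hi
    rcases hu.step j i hi with h | h
    · rw [h]
      exact ih i hi
    · exact h.1

omit [DecidableEq ι] in
theorem StepC_mono {G : ι → Finset V} {v w : ι → V} (hG : D.Sys G) (hv : ∀ i ∈ D.I, v i ∈ G i)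
    (h : D.StepC G v w) {i : ι} (hi : i ∈ D.I) :
    Res D.r (G i) (D.x i) (v i) ⊆ Res D.r (G i) (D.x i) (w i) ∧
      (w i = v i ∨ v i ∈ Res D.r (G i) (D.x i) (w i)) := by
  rcases h i hi with h | h
  · rw [h]
    exact ⟨Finset.Subset.refl _, Or.inl rfl⟩
  · have := Res_lt (hG.root i hi) (hv i hi) h.2.1 h.2.2.1
    exact ⟨this.1, Or.inr this.2⟩

omit [DecidableEq ι] in
theorem Bv_mono {G : ι → Finset V} {v w : ι → V} (hG : D.Sys G) (hv : ∀ i ∈ D.I, v i ∈ G i)
    (h : D.StepC G v w) : D.Bv G v ⊆ D.Bv G w := by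
  intro b hb
  rw [mem_Bv] at hb ⊢
  rcases hb with hb | ⟨i, hi, hb⟩
  · exact Or.inl hb
  · exact Or.inr ⟨i, hi, (StepC_mono hG hv h hi).1 hb⟩

omit [DecidableEq ι] in
theorem Dat.Casc.Bv_le {G : ι → Finset V} {u : ℕ → ι → V} (hG : D.Sys G) (hu : D.Casc G u)
    {j k : ℕ} (hjk : j ≤ k) : D.Bv G (u j) ⊆ D.Bv G (u k) := by
  induction k, hjk using Nat.le_induction with
  | base => exact Finset.Subset.refl _
  | succ k _ ih => exact ih.trans (Bv_mono hG (hu.mem hG k) (hu.step k))

omit [DecidableEq ι] in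
theorem Dat.Casc.Res_le {G : ι → Finset V} {u : ℕ → ι → V} (hG : D.Sys G) (hu : D.Casc G u)
    {j k : ℕ} (hjk : j ≤ k) {i : ι} (hi : i ∈ D.I) :
    Res D.r (G i) (D.x i) (u j i) ⊆ Res D.r (G i) (D.x i) (u k i) := by
  induction k, hjk using Nat.le_induction with
  | base => exact Finset.Subset.refl _
  | succ k _ ih => exact ih.trans (StepC_mono hG (hu.mem hG k) (hu.step k) hi).1

omit [DecidableEq ι] in
theorem Bv_zero {G : ι → Finset V} {u : ℕ → ι → V} (hu : D.Casc G u) :
    D.Bv G (u 0) = D.G0 := by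
  ext b
  rw [mem_Bv]
  constructor
  · rintro (h | ⟨i, hi, h⟩)
    · exact h
    · rw [hu.zero i hi, Res_root] at h
      exact absurd h (Finset.notMem_empty _)
  · exact Or.inl

omit [DecidableEq ι] in
theorem Dat.Good.of_eq {G G' : ι → Finset V} {u u' : ℕ → ι → V} :
    ∀ j, D.Good j G u → (∀ k ≤ j, (D.Bv G' (u' k)).card = (D.Bv G (u k)).card) →
      D.Good j G' u' := by
  intro j
  induction j with
  | zero =>
    intro _ _
    trivial
  | succ j ih =>
    intro h hc
    refine ⟨ih h.1 (fun k hk => hc k (by omega)), ?_⟩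
    intro G'' u'' h1 h2 h3
    rw [hc (j + 1) le_rfl]
    exact h.2 G'' u'' h1 h2 h3

omit [DecidableEq ι] in
theorem Dat.Good.le {G : ι → Finset V} {u : ℕ → ι → V} {j k : ℕ} (hjk : j ≤ k)
    (h : D.Good k G u) : D.Good j G u := by
  induction k, hjk using Nat.le_induction with
  | base => exact h
  | succ k _ ih => exact ih h.1

omit [DecidableEq ι] in
theorem card_Bv_le {G : ι → Finset V} {v : ι → V} (hG : D.Sys G) :
    (D.Bv G v).card ≤ (D.Ω ∪ D.G0).card := by
  apply Finset.card_le_card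
  intro b hb
  rw [mem_Bv] at hb
  rw [Finset.mem_union]
  rcases hb with hb | ⟨i, hi, hb⟩
  · exact Or.inr hb
  · exact Or.inl (Finset.mem_sdiff.1 (hG.sub i hi (Res_sub hb))).1

omit [DecidableEq ι] in
theorem exists_good {G0 : ι → Finset V} (hG0 : D.Sys G0) :
    ∀ j, ∃ G u, D.Sys G ∧ D.Casc G u ∧ D.Good j G u := by
  classical
  intro j
  induction j with
  | zero =>
    refine ⟨G0, fun _ => D.x, hG0, ⟨fun _ _ => rfl, fun _ _ _ => Or.inl rfl⟩, trivial⟩
  | succ j ih =>
    obtain ⟨G, u, h1, h2, h3⟩ := ih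
    let P : ℕ → Prop := fun n => ∃ G u, D.Sys G ∧ D.Casc G u ∧ D.Good j G u ∧
      (D.Bv G (u (j + 1))).card = n
    have hP : P (D.Bv G (u (j + 1))).card := ⟨G, u, h1, h2, h3, rfl⟩
    have hb : ∀ n, P n → n ≤ (D.Ω ∪ D.G0).card := by
      rintro n ⟨G, u, h1, _, _, rfl⟩
      exact card_Bv_le h1
    obtain ⟨G', u', h1', h2', h3', h4'⟩ := Nat.findGreatest_spec (hb _ hP) hP
    refine ⟨G', u', h1', h2', h3', ?_⟩
    intro G'' u'' g1 g2 g3
    rw [h4']
    exact Nat.le_findGreatest (hb _ ⟨G'', u'', g1, g2, g3, rfl⟩) ⟨G'', u'', g1, g2, g3, rfl⟩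

omit [DecidableEq ι] in
/-- Extension of an initial segment of a cascade. -/
theorem casc_ext {G : ι → Finset V} {u : ℕ → ι → V} {j : ℕ} {w : ι → V}
    (h0 : ∀ i ∈ D.I, u 0 i = D.x i) (h1 : ∀ k < j, D.StepC G (u k) (u (k + 1)))
    (h2 : D.StepC G (u j) w) : D.Casc G (fun k => if k ≤ j then u k else w) := by
  constructor
  · intro i hi
    simp only [Nat.zero_le, if_true]
    exact h0 i hi
  · intro k
    by_cases hk : k < j
    · have hk1 : k ≤ j := hk.le
      have hk2 : k + 1 ≤ j := hk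
      simp only [if_pos hk1, if_pos hk2]
      exact h1 k hk
    · by_cases hk' : k = j
      · subst hk'
        have hk2 : ¬ k + 1 ≤ k := by omega
        simp only [le_refl, if_true, if_neg hk2]
        exact h2
      · have hk1 : ¬ k ≤ j := by omega
        have hk2 : ¬ k + 1 ≤ j := by omega
        simp only [if_neg hk1, if_neg hk2]
        intro i _
        exact Or.inl rfl

/-- Exchanging a vertex `z` of the part `G i₀` for a new vertex `w`. -/
def swp (G : ι → Finset V) (i₀ : ι) (z w : V) : ι → Finset V :=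
  Function.update G i₀ (insert w ((G i₀).erase z))

theorem swp_self {G : ι → Finset V} {i₀ : ι} {z w : V} :
    swp G i₀ z w i₀ = insert w ((G i₀).erase z) := Function.update_self _ _ _

theorem swp_ne {G : ι → Finset V} {i₀ i : ι} {z w : V} (h : i ≠ i₀) :
    swp G i₀ z w i = G i := Function.update_of_ne h _ _

theorem swp_sys {G : ι → Finset V} (hG : D.Sys G) {i₀ : ι} (hi₀ : i₀ ∈ D.I) {z w b : V}
    (hz : z ∈ G i₀) (hzr : Rooted D.r (D.x i₀) ((G i₀).erase z))
    (hw : w ∈ D.Ω \ (D.G0 ∪ D.I.biUnion G)) (hb : b ∈ (G i₀).erase z) (hbw : D.r b w) :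
    D.Sys (swp G i₀ z w) := by
  obtain ⟨hwΩ, hwG0, hwG⟩ := Dat.Sys.leftover_mem hw
  have hsub : ∀ i ∈ D.I, ∀ v ∈ swp G i₀ z w i, v = w ∨ v ∈ G i := by
    intro i hi v hv
    by_cases h : i = i₀
    · subst h
      rw [swp_self] at hv
      rcases Finset.mem_insert.1 hv with h | h
      · exact Or.inl h
      · exact Or.inr (Finset.mem_erase.1 h).2
    · rw [swp_ne h] at hv
      exact Or.inr hv
  constructor
  · intro i hi v hv
    rcases hsub i hi v hv with rfl | h
    · exact Finset.mem_sdiff.2 ⟨hwΩ, hwG0⟩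
    · exact hG.sub i hi h
  · intro i hi
    by_cases h : i = i₀
    · subst h
      rw [swp_self]
      exact hzr.insert hb hbw
    · rw [swp_ne h]
      exact hG.root i hi
  · intro i hi j hj hij
    rw [Finset.disjoint_left]
    intro v hv hv'
    rcases hsub i hi v hv with rfl | h1
    · rcases hsub j hj v hv' with _ | h2
      · -- both contain `w`
        by_cases h : i = i₀
        · subst h
          rw [swp_ne (Ne.symm hij)] at hv'
          exact hwG j hj hv'
        · rw [swp_ne h] at hv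
          exact hwG i hi hv
      · exact hwG j hj h2
    · rcases hsub j hj v hv' with rfl | h2
      · exact hwG i hi h1
      · exact (Finset.disjoint_left.1 (hG.disj i hi j hj hij)) h1 h2
  · intro i hi
    by_cases h : i = i₀
    · subst h
      rw [swp_self, Finset.card_insert_of_notMem (fun h => hwG i hi (Finset.mem_erase.1 h).2),
        Finset.card_erase_of_mem hz, hG.card i hi]
      have := Finset.card_pos.2 ⟨z, hz⟩
      rw [hG.card i hi] at this
      omega
    · rw [swp_ne h]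
      exact hG.card i hi

/-- The exchange does not change reservoirs that avoid `z` and do not dominate `w`. -/
theorem swp_Res {G : ι → Finset V} {i₀ : ι} {z w : V}
    (hzr : Rooted D.r (D.x i₀) ((G i₀).erase z)) (hwG : w ∉ G i₀) {i : ι} {v : V}
    (hz : i = i₀ → z ∉ Res D.r (G i) (D.x i) v)
    (hw : i = i₀ → ∀ a ∈ Res D.r (G i) (D.x i) v, ¬ D.r a w) :
    Res D.r (swp G i₀ z w i) (D.x i) v = Res D.r (G i) (D.x i) v := by
  by_cases h : i = i₀
  · subst h
    have hx : D.x i ∈ G i := (Finset.mem_erase.1 hzr.1).2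
    have e1 : Res D.r ((G i).erase z) (D.x i) v = Res D.r (G i) (D.x i) v :=
      Res_erase hx (hz rfl)
    rw [swp_self, Res_insert hzr.1 (by rw [e1]; exact hw rfl)
      (fun h => hwG (Finset.mem_erase.1 h).2), e1]
  · rw [swp_ne h]

omit [DecidableEq ι] in
theorem StepC_congr {G G' : ι → Finset V} {v w : ι → V}
    (h1 : ∀ i ∈ D.I, Res D.r (G' i) (D.x i) (v i) = Res D.r (G i) (D.x i) (v i))
    (h2 : ∀ i ∈ D.I, w i ∈ G i → w i ∈ G' i) (h : D.StepC G v w) : D.StepC G' v w := by
  intro i hi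
  rcases h i hi with h | ⟨h3, h4, h5, b, hb, hbw⟩
  · exact Or.inl h
  · refine Or.inr ⟨h2 i hi h3, by rw [h1 i hi]; exact h4, h5, b, ?_, hbw⟩
    rw [mem_Bv] at hb ⊢
    rcases hb with hb | ⟨i', hi', hb⟩
    · exact Or.inl hb
    · exact Or.inr ⟨i', hi', by rw [h1 i' hi']; exact hb⟩

omit [DecidableEq ι] in
theorem Bv_congr {G G' : ι → Finset V} {v : ι → V}
    (h1 : ∀ i ∈ D.I, Res D.r (G' i) (D.x i) (v i) = Res D.r (G i) (D.x i) (v i)) :
    D.Bv G' v = D.Bv G v := by
  ext b
  rw [mem_Bv, mem_Bv]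
  constructor
  · rintro (h | ⟨i, hi, h⟩)
    · exact Or.inl h
    · exact Or.inr ⟨i, hi, by rwa [h1 i hi] at h⟩
  · rintro (h | ⟨i, hi, h⟩)
    · exact Or.inl h
    · exact Or.inr ⟨i, hi, by rwa [h1 i hi]⟩

/-- If the leftover is dominated at rank `j` of a configuration that is maximal up to rank `j`,
then `G0` can be augmented. -/
theorem gl_claim : ∀ j, ∀ G u, D.Sys G → D.Casc G u → D.Good j G u →
    (∃ w ∈ D.Ω \ (D.G0 ∪ D.I.biUnion G), ∃ b ∈ D.Bv G (u j), D.r b w) →
    ∃ G', D.Sys G' ∧ ∃ w ∈ D.Ω \ (D.G0 ∪ D.I.biUnion G'), ∃ b ∈ D.G0, D.r b w := by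
  intro j
  induction j with
  | zero =>
    intro G u hG hu _ ⟨w, hw, b, hb, hbw⟩
    rw [Bv_zero hu] at hb
    exact ⟨G, hG, w, hw, b, hb, hbw⟩
  | succ j ih =>
    intro G u hG hu hgood ⟨w, hw, b, hb, hbw⟩
    by_cases hdom : ∃ b' ∈ D.Bv G (u j), D.r b' w
    · exact ih G u hG hu hgood.1 ⟨w, hw, hdom⟩
    push Not at hdom
    obtain ⟨hwΩ, hwG0, hwG⟩ := Dat.Sys.leftover_mem hw
    -- `b` is in the reservoir of a vertex of rank `j + 1`
    obtain ⟨i₀, hi₀, hbR⟩ : ∃ i ∈ D.I, b ∈ Res D.r (G i) (D.x i) (u (j + 1) i) := by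
      rcases mem_Bv.1 hb with h | h
      · exact absurd hbw (hdom b (mem_Bv.2 (Or.inl h)))
      · exact h
    have hbR' : b ∉ Res D.r (G i₀) (D.x i₀) (u j i₀) := fun h =>
      hdom b (mem_Bv.2 (Or.inr ⟨i₀, hi₀, h⟩)) hbw
    obtain ⟨a, ha⟩ : ∃ a, a = u (j + 1) i₀ := ⟨_, rfl⟩
    rw [← ha] at hbR
    obtain ⟨haG, haR, hane, b', hb', hb'a⟩ : a ∈ G i₀ ∧ a ∉ Res D.r (G i₀) (D.x i₀) (u j i₀) ∧
        a ≠ u j i₀ ∧ ∃ b' ∈ D.Bv G (u j), D.r b' a := by
      rcases hu.step j i₀ hi₀ with h | h
      · rw [← ha] at h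
        rw [h] at hbR
        exact absurd hbR hbR'
      · rw [← ha] at h
        exact h
    have hax : a ≠ D.x i₀ := (mem_Res.1 hbR).1
    have hres : ∀ k ≤ j, Res D.r (G i₀) (D.x i₀) (u k i₀) ⊆ Res D.r (G i₀) (D.x i₀) a := by
      intro k hk
      rw [ha]
      exact hu.Res_le hG (by omega) hi₀
    have hbne : ∀ z, z ∉ Res D.r (G i₀) (D.x i₀) a → b ∈ (G i₀).erase z := by
      intro z hz
      refine Finset.mem_erase.2 ⟨?_, Res_sub hbR⟩
      rintro rfl
      exact hz hbR
    -- consequences of an exchange of `z` for `w`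
    have hcons : ∀ z ∈ G i₀, z ∉ Res D.r (G i₀) (D.x i₀) a →
        Rooted D.r (D.x i₀) ((G i₀).erase z) →
        D.Sys (swp G i₀ z w) ∧ (∀ k ≤ j, ∀ i ∈ D.I, Res D.r (swp G i₀ z w i) (D.x i) (u k i)
          = Res D.r (G i) (D.x i) (u k i)) := by
      intro z hz hzR hzr
      refine ⟨swp_sys hG hi₀ hz hzr hw (hbne z hzR) hbw, ?_⟩
      intro k hk i hi
      apply swp_Res hzr (hwG i₀ hi₀)
      · rintro rfl h
        exact hzR (hres k hk h)
      · rintro rfl a' ha' h
        refine hdom a' ?_ h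
        exact hu.Bv_le hG hk (mem_Bv.2 (Or.inr ⟨i, hi, ha'⟩))
    have humem : ∀ z, z ∉ Res D.r (G i₀) (D.x i₀) a → z ∈ G i₀ → (z = a ∨ z ∉ D.Bv G (u j)) →
        ∀ k < j, ∀ i ∈ D.I, u (k + 1) i ∈ G i → u (k + 1) i ∈ swp G i₀ z w i := by
      intro z hzR hzG _ k hk i hi hmem
      by_cases h : i = i₀
      · subst h
        rw [swp_self]
        refine Finset.mem_insert_of_mem (Finset.mem_erase.2 ⟨?_, hmem⟩)
        rintro rfl
        -- `u (k + 1) i` is in the reservoir of `a`
        have h1 : u j i = a ∨ u j i ∈ Res D.r (G i) (D.x i) a := by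
          have := (StepC_mono hG (hu.mem hG j) (hu.step j) hi).2
          rw [← ha] at this
          rcases this with h | h
          · exact Or.inl h.symm
          · exact Or.inr h
        have h2 : ∀ l, k + 1 ≤ l → l ≤ j → u (k + 1) i = u l i ∨
            u (k + 1) i ∈ Res D.r (G i) (D.x i) (u l i) := by
          intro l hl
          induction l, hl using Nat.le_induction with
          | base => exact fun _ => Or.inl rfl
          | succ l hl ih2 =>
            intro hl2
            have h3 := StepC_mono hG (hu.mem hG l) (hu.step l) hi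
            rcases ih2 (by omega) with h | h
            · rcases h3.2 with h4 | h4
              · exact Or.inl (h.trans h4.symm)
              · exact Or.inr (h ▸ h4)
            · exact Or.inr (h3.1 h)
        rcases h2 j (by omega) le_rfl with h3 | h3
        · rcases h1 with h1 | h1
          · exact hane h1.symm
          · exact hzR (h3 ▸ h1)
        · exact hzR (hres j le_rfl h3)
      · rw [swp_ne h]
        exact hmem
    by_cases hdep : G i₀ \ Res D.r (G i₀) (D.x i₀) a ⊆ {a}
    · -- release `a`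
      have hzr : Rooted D.r (D.x i₀) ((G i₀).erase a) :=
        (hG.root i₀ hi₀).erase_of_Res hax hdep
      obtain ⟨hS, hR⟩ := hcons a haG not_mem_Res_self hzr
      have hstep : ∀ k < j, D.StepC (swp G i₀ a w) (u k) (u (k + 1)) := by
        intro k hk
        exact StepC_congr (hR k (by omega)) (humem a not_mem_Res_self haG (Or.inl rfl) k hk)
          (hu.step k)
      have hC := casc_ext (D := D) (G := swp G i₀ a w) (u := u) (j := j) (w := u j) hu.zero hstep
        (fun i _ => Or.inl rfl)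
      have hB : ∀ k ≤ j, D.Bv (swp G i₀ a w) ((fun k => if k ≤ j then u k else u j) k)
          = D.Bv G (u k) := by
        intro k hk
        simp only [if_pos hk]
        exact Bv_congr (hR k hk)
      refine ih _ _ hS hC (Dat.Good.of_eq j hgood.1 (fun k hk => by rw [hB k hk])) ?_
      refine ⟨a, ?_, b', ?_, hb'a⟩
      · have ha1 := Finset.mem_sdiff.1 (hG.sub i₀ hi₀ haG)
        simp only [Finset.mem_sdiff, Finset.mem_union, Finset.mem_biUnion, not_or, not_exists,
          not_and]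
        refine ⟨ha1.1, ha1.2, ?_⟩
        intro i hi h
        by_cases hii : i = i₀
        · subst hii
          rw [swp_self] at h
          rcases Finset.mem_insert.1 h with rfl | h
          · exact hwG i hi haG
          · exact (Finset.mem_erase.1 h).1 rfl
        · rw [swp_ne hii] at h
          exact (Finset.disjoint_left.1 (hG.disj i hi i₀ hi₀ hii)) h haG
      · rw [hB j le_rfl]
        exact hb'
    · -- a leaf
      obtain ⟨z, hzG, hzR, hza, hzr⟩ := exists_leaf (hG.root i₀ hi₀) haG hax hdep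
      exfalso
      obtain ⟨hS, hR⟩ := hcons z hzG hzR hzr
      have hzB : z ∉ D.Bv G (u j) := by
        intro h
        rcases mem_Bv.1 h with h | ⟨i, hi, h⟩
        · exact (Finset.mem_sdiff.1 (hG.sub i₀ hi₀ hzG)).2 h
        · by_cases hii : i = i₀
          · subst hii
            exact hzR (hres j le_rfl h)
          · exact (Finset.disjoint_left.1 (hG.disj i hi i₀ hi₀ hii)) (Res_sub h) hzG
      have hstep : ∀ k < j, D.StepC (swp G i₀ z w) (u k) (u (k + 1)) := by
        intro k hk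
        exact StepC_congr (hR k (by omega)) (humem z hzR hzG (Or.inr hzB) k hk) (hu.step k)
      have hnew : D.StepC (swp G i₀ z w) (u j) (u (j + 1)) := by
        refine StepC_congr (hR j le_rfl) ?_ (hu.step j)
        intro i hi hmem
        by_cases hii : i = i₀
        · subst hii
          rw [swp_self, ← ha]
          exact Finset.mem_insert_of_mem (Finset.mem_erase.2 ⟨hza.symm, haG⟩)
        · rw [swp_ne hii]
          exact hmem
      have hC := casc_ext (D := D) (G := swp G i₀ z w) (u := u) (j := j) (w := u (j + 1)) hu.zero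
        hstep hnew
      have hB : ∀ k ≤ j, D.Bv (swp G i₀ z w) ((fun k => if k ≤ j then u k else u (j + 1)) k)
          = D.Bv G (u k) := by
        intro k hk
        simp only [if_pos hk]
        exact Bv_congr (hR k hk)
      have hmax := hgood.2 _ _ hS hC (Dat.Good.of_eq j hgood.1 (fun k hk => by rw [hB k hk]))
      have hn : ¬ j + 1 ≤ j := by omega
      simp only [if_neg hn] at hmax
      -- but the set strictly increases
      have hwa : w ≠ a := by
        rintro rfl
        exact hwG i₀ hi₀ haG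
      have hsub : insert w (D.Bv G (u (j + 1))) ⊆ D.Bv (swp G i₀ z w) (u (j + 1)) := by
        have h1 : insert w (Res D.r (G i₀) (D.x i₀) a) ⊆
            Res D.r (swp G i₀ z w i₀) (D.x i₀) a := by
          have e1 : Res D.r ((G i₀).erase z) (D.x i₀) a = Res D.r (G i₀) (D.x i₀) a :=
            Res_erase (hG.root i₀ hi₀).1 hzR
          rw [swp_self, ← e1]
          exact Res_insert_of_dom (by rw [e1]; exact hbR) hbw hwa
        intro v hv
        rw [mem_Bv]
        rcases Finset.mem_insert.1 hv with rfl | hv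
        · exact Or.inr ⟨i₀, hi₀, ha ▸ h1 (Finset.mem_insert_self _ _)⟩
        · rcases mem_Bv.1 hv with hv | ⟨i, hi, hv⟩
          · exact Or.inl hv
          · by_cases hii : i = i₀
            · subst hii
              rw [← ha] at hv
              exact Or.inr ⟨i, hi, ha ▸ h1 (Finset.mem_insert_of_mem hv)⟩
            · refine Or.inr ⟨i, hi, ?_⟩
              rw [swp_ne hii]
              exact hv
      have hwB : w ∉ D.Bv G (u (j + 1)) := by
        intro h
        rcases mem_Bv.1 h with h | ⟨i, hi, h⟩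
        · exact hwG0 h
        · exact hwG i hi (Res_sub h)
      have := Finset.card_le_card hsub
      rw [Finset.card_insert_of_notMem hwB] at this
      omega

open Classical in
/-- **Directed Győri–Lovász augmentation.** If every set `Q` of non-roots outside `G0` that is at
least as large as the leftover has more than `|I|` in-neighbours, then after a rearrangement of
the parts some vertex outside all the parts is dominated by `G0`. -/
theorem gl_aug {G : ι → Finset V} (hG : D.Sys G)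
    (hcon : ∀ Q ⊆ D.Ω, Disjoint Q D.G0 → (∀ i ∈ D.I, D.x i ∉ Q) →
      (D.Ω \ (D.G0 ∪ D.I.biUnion G)).card ≤ Q.card →
      D.I.card < ((D.Ω \ Q).filter (fun v => ∃ q ∈ Q, D.r v q)).card) :
    ∃ G', D.Sys G' ∧ ∃ w ∈ D.Ω \ (D.G0 ∪ D.I.biUnion G'), ∃ b ∈ D.G0, D.r b w := by
  obtain ⟨N, hN⟩ : ∃ N, N = (D.Ω ∪ D.G0).card + 1 := ⟨_, rfl⟩
  obtain ⟨H, u, hH, hu, hgood⟩ := exists_good hG N
  -- the size of the leftover does not depend on the system
  have hleft : ∀ G', D.Sys G' → (D.Ω \ (D.G0 ∪ D.I.biUnion G')).card =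
      (D.Ω \ D.G0).card - ∑ i ∈ D.I, D.s i := by
    intro G' hG'
    have e1 : D.Ω \ (D.G0 ∪ D.I.biUnion G') = (D.Ω \ D.G0) \ D.I.biUnion G' := by
      ext v
      simp only [Finset.mem_sdiff, Finset.mem_union]
      tauto
    have e2 : D.I.biUnion G' ⊆ D.Ω \ D.G0 := by
      intro v hv
      obtain ⟨i, hi, hv⟩ := Finset.mem_biUnion.1 hv
      exact hG'.sub i hi hv
    rw [e1, Finset.card_sdiff_of_subset e2, Finset.card_biUnion hG'.disj,
      Finset.sum_congr rfl hG'.card]
  -- two consecutive equal ranks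
  obtain ⟨j, hjN, hj⟩ : ∃ j, j < N ∧ (D.Bv H (u (j + 1))).card = (D.Bv H (u j)).card := by
    by_contra hcon2
    push Not at hcon2
    have h1 : ∀ j, j ≤ N → j ≤ (D.Bv H (u j)).card := by
      intro j
      induction j with
      | zero => exact fun _ => Nat.zero_le _
      | succ j ih =>
        intro hj
        have h2 := ih (by omega)
        have h3 := Finset.card_le_card (hu.Bv_le hH (Nat.le_succ j))
        have h4 := hcon2 j (by omega)
        simp only [Nat.succ_eq_add_one] at h3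
        omega
    have h2 := h1 N le_rfl
    have h3 := card_Bv_le (v := u N) hH
    omega
  have hjB : D.Bv H (u j) = D.Bv H (u (j + 1)) :=
    Finset.eq_of_subset_of_card_le (hu.Bv_le hH (Nat.le_succ j)) (by rw [hj])
  apply gl_claim j H u hH hu (hgood.le hjN.le)
  by_contra hno
  push Not at hno
  let S : Finset V := D.I.image (fun i => u (j + 1) i)
  let Q : Finset V := D.Ω \ (D.Bv H (u j) ∪ S)
  have hQmem : ∀ v, v ∈ Q ↔ v ∈ D.Ω ∧ v ∉ D.Bv H (u j) ∧ v ∉ S := by
    intro v
    simp only [Q, Finset.mem_sdiff, Finset.mem_union, not_or]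
  have hS : S.card ≤ D.I.card := Finset.card_image_le
  have hleftQ : D.Ω \ (D.G0 ∪ D.I.biUnion H) ⊆ Q := by
    intro w hw
    obtain ⟨h1, h2, h3⟩ := Dat.Sys.leftover_mem hw
    refine (hQmem w).2 ⟨h1, ?_, ?_⟩
    · intro h
      rcases mem_Bv.1 h with h | ⟨i, hi, h⟩
      · exact h2 h
      · exact h3 i hi (Res_sub h)
    · intro h
      obtain ⟨i, hi, rfl⟩ := Finset.mem_image.1 h
      exact h3 i hi (hu.mem hH (j + 1) i hi)
  have hcard := hcon Q (Finset.sdiff_subset)
    (by
      rw [Finset.disjoint_left]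
      intro v hv hv0
      exact ((hQmem v).1 hv).2.1 (mem_Bv.2 (Or.inl hv0)))
    (by
      intro i hi hx
      obtain ⟨_, h1, h2⟩ := (hQmem _).1 hx
      by_cases h : u (j + 1) i = D.x i
      · exact h2 (Finset.mem_image.2 ⟨i, hi, h⟩)
      · apply h1
        rw [hjB]
        exact mem_Bv.2 (Or.inr ⟨i, hi, root_mem_Res (hH.root i hi).1 h⟩))
    (by
      rw [hleft G hG, ← hleft H hH]
      exact Finset.card_le_card hleftQ)
  obtain ⟨a, ha, haS⟩ : ∃ a ∈ (D.Ω \ Q).filter (fun v => ∃ q ∈ Q, D.r v q), a ∉ S := by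
    by_contra h
    push Not at h
    have := Finset.card_le_card (show (D.Ω \ Q).filter (fun v => ∃ q ∈ Q, D.r v q) ⊆ S from h)
    omega
  obtain ⟨ha1, b, hbQ, hab⟩ := Finset.mem_filter.1 ha
  obtain ⟨haΩ, haQ⟩ := Finset.mem_sdiff.1 ha1
  have haB : a ∈ D.Bv H (u j) := by
    by_contra h
    exact haQ ((hQmem a).2 ⟨haΩ, h, haS⟩)
  obtain ⟨hbΩ, hbB, hbS⟩ := (hQmem b).1 hbQ
  -- `b` is in some part
  obtain ⟨i₀, hi₀, hbG⟩ : ∃ i ∈ D.I, b ∈ H i := by
    by_contra h
    push Not at h
    refine hno b ?_ a haB hab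
    simp only [Finset.mem_sdiff, Finset.mem_union, Finset.mem_biUnion, not_or, not_exists, not_and]
    exact ⟨hbΩ, fun h0 => hbB (mem_Bv.2 (Or.inl h0)), h⟩
  have hbR : b ∉ Res D.r (H i₀) (D.x i₀) (u (j + 1) i₀) := by
    intro h
    apply hbB
    rw [hjB]
    exact mem_Bv.2 (Or.inr ⟨i₀, hi₀, h⟩)
  have hbne : b ≠ u (j + 1) i₀ := by
    rintro rfl
    exact hbS (Finset.mem_image.2 ⟨i₀, hi₀, rfl⟩)
  have hmono := StepC_mono hH (hu.mem hH j) (hu.step j) hi₀
  -- modify the cascade at rank `j + 1`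
  have hstepb : D.StepC H (u j) (Function.update (u (j + 1)) i₀ b) := by
    intro i hi
    by_cases h : i = i₀
    · subst h
      rw [Function.update_self]
      right
      refine ⟨hbG, fun h => hbR (hmono.1 h), ?_, a, haB, hab⟩
      intro h
      rcases hmono.2 with h1 | h1
      · exact hbne (h.trans h1.symm)
      · exact hbR (h ▸ h1)
    · rw [Function.update_of_ne h]
      exact hu.step j i hi
  have hC := casc_ext (D := D) (G := H) (u := u) (j := j) hu.zero (fun k _ => hu.step k) hstepb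
  have hgood' : D.Good j H (fun k => if k ≤ j then u k else Function.update (u (j + 1)) i₀ b) :=
    Dat.Good.of_eq j (hgood.le hjN.le) (fun k hk => by simp only [if_pos hk])
  have hmax := (hgood.le hjN : D.Good (j + 1) H u).2 _ _ hH hC hgood'
  have hn : ¬ j + 1 ≤ j := by omega
  simp only [if_neg hn] at hmax
  have hlt := Res_lt (hH.root i₀ hi₀) (hu.mem hH (j + 1) i₀ hi₀) hbR hbne
  have hsub : insert (u (j + 1) i₀) (D.Bv H (u (j + 1))) ⊆
      D.Bv H (Function.update (u (j + 1)) i₀ b) := by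
    intro v hv
    rw [mem_Bv]
    rcases Finset.mem_insert.1 hv with rfl | hv
    · refine Or.inr ⟨i₀, hi₀, ?_⟩
      rw [Function.update_self]
      exact hlt.2
    · rcases mem_Bv.1 hv with hv0 | ⟨i, hi, hv1⟩
      · exact Or.inl hv0
      · refine Or.inr ⟨i, hi, ?_⟩
        by_cases h : i = i₀
        · rw [h, Function.update_self]
          rw [h] at hv1
          exact hlt.1 hv1
        · rw [Function.update_of_ne h]
          exact hv1
  have huB : u (j + 1) i₀ ∉ D.Bv H (u (j + 1)) := by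
    intro h
    rcases mem_Bv.1 h with h | ⟨i, hi, h⟩
    · exact (Finset.mem_sdiff.1 (hH.sub i₀ hi₀ (hu.mem hH (j + 1) i₀ hi₀))).2 h
    · by_cases hii : i = i₀
      · subst hii
        exact not_mem_Res_self h
      · exact (Finset.disjoint_left.1 (hH.disj i hi i₀ hi₀ hii)) (Res_sub h)
          (hu.mem hH (j + 1) i₀ hi₀)
  have := Finset.card_le_card hsub
  rw [Finset.card_insert_of_notMem huB] at this
  omega

end Pool.Agent.Work.MP_1399e9_co
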