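import Pool.Agent.Work.MP_1399e9_co.Thin

/-!
# Reservoirs in rooted sets
-/

namespace Pool.Agent.Work.MP_1399e9_co

open Finset Relation

variable {V : Type} {r : V → V → Prop} [DecidableEq V]

/-- Every vertex of `G` is reachable from `x ∈ G` inside `G`. -/
def Rooted (r : V → V → Prop) (x : V) (G : Finset V) : Prop := x ∈ G ∧ ∀ v ∈ G, Rch r G x v

open Classical in
/-- The vertices of `G` that are reachable from `x` without using `u`. -/
noncomputable def Res (r : V → V → Prop) (G : Finset V) (x u : V) : Finset V :=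
  if u = x then ∅ else (G.erase u).filter (fun v => Rch r (G.erase u) x v)

theorem mem_Res {G : Finset V} {x u v : V} :
    v ∈ Res r G x u ↔ u ≠ x ∧ v ≠ u ∧ v ∈ G ∧ Rch r (G.erase u) x v := by
  unfold Res
  by_cases h : u = x
  · simp [h]
  · simp only [if_neg h, Finset.mem_filter, Finset.mem_erase]
    tauto

theorem Res_sub {G : Finset V} {x u : V} : Res r G x u ⊆ G := fun _ hv => (mem_Res.1 hv).2.2.1

theorem not_mem_Res_self {G : Finset V} {x u : V} : u ∉ Res r G x u :=
  fun h => (mem_Res.1 h).2.1 rfl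

theorem root_mem_Res {G : Finset V} {x u : V} (hx : x ∈ G) (hu : u ≠ x) : x ∈ Res r G x u :=
  mem_Res.2 ⟨hu, Ne.symm hu, hx, Rch.refl⟩

theorem Res_root {G : Finset V} {x : V} : Res r G x x = ∅ := by
  unfold Res
  simp

theorem mem_Res_step {G : Finset V} {x u a b : V} (ha : a ∈ Res r G x u) (hb : b ∈ G)
    (hbu : b ≠ u) (hab : r a b) : b ∈ Res r G x u := by
  obtain ⟨h1, h2, h3, h4⟩ := mem_Res.1 ha
  exact mem_Res.2 ⟨h1, hbu, hb, h4.tail ⟨Finset.mem_erase.2 ⟨h2, h3⟩,
    Finset.mem_erase.2 ⟨hbu, hb⟩, hab⟩⟩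

/-- Members of the reservoir are reachable inside the reservoir. -/
theorem rch_Res {G : Finset V} {x u v : V} (_hx : x ∈ G) (hv : v ∈ Res r G x u) :
    Rch r (Res r G x u) x v := by
  obtain ⟨h1, h2, h3, h4⟩ := mem_Res.1 hv
  clear hv h2 h3
  induction h4 with
  | refl => exact Rch.refl
  | @tail a b h5 h6 ih =>
    have hb : b ∈ Res r G x u :=
      mem_Res.2 ⟨h1, (Finset.mem_erase.1 h6.2.1).1, (Finset.mem_erase.1 h6.2.1).2, h5.tail h6⟩
    have ha : a ∈ Res r G x u :=
      mem_Res.2 ⟨h1, (Finset.mem_erase.1 h6.1).1, (Finset.mem_erase.1 h6.1).2, h5⟩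
    exact ih.tail ⟨ha, hb, h6.2.2⟩

/-- `u` itself is reachable through its reservoir. -/
theorem rch_insert_Res {G : Finset V} {x u : V} (hG : Rooted r x G) (hu : u ∈ G) (hux : u ≠ x) :
    Rch r (insert u (Res r G x u)) x u := by
  have key : ∀ v, Rch r G x v → v ∈ Res r G x u ∨ Rch r (insert u (Res r G x u)) x u := by
    intro v hv
    induction hv with
    | refl => exact Or.inl (root_mem_Res hG.1 hux)
    | @tail a b _ h6 ih =>
      rcases ih with ha | h
      · by_cases hbu : b = u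
        · subst hbu
          right
          exact ((rch_Res hG.1 ha).mono (Finset.subset_insert _ _)).tail
            ⟨Finset.mem_insert_of_mem ha, Finset.mem_insert_self _ _, h6.2.2⟩
        · exact Or.inl (mem_Res_step ha h6.2.1 hbu h6.2.2)
      · exact Or.inr h
  exact (key u (hG.2 u hu)).resolve_left not_mem_Res_self

/-- A vertex outside the reservoir of `u` has a larger reservoir. -/
theorem Res_lt {G : Finset V} {x u u' : V} (hG : Rooted r x G) (hu : u ∈ G)
    (h1 : u' ∉ Res r G x u) (h2 : u' ≠ u) :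
    Res r G x u ⊆ Res r G x u' ∧ u ∈ Res r G x u' := by
  by_cases hux : u = x
  · subst hux
    constructor
    · rw [Res_root]
      exact Finset.empty_subset _
    · exact root_mem_Res hG.1 h2
  · have hux' : u' ≠ x := by
      rintro rfl
      exact h1 (root_mem_Res hG.1 hux)
    constructor
    · intro v hv
      have hvu' : v ≠ u' := by
        rintro rfl
        exact h1 hv
      refine mem_Res.2 ⟨hux', hvu', Res_sub hv, (rch_Res hG.1 hv).mono ?_⟩
      intro w hw
      refine Finset.mem_erase.2 ⟨?_, Res_sub hw⟩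
      rintro rfl
      exact h1 hw
    · refine mem_Res.2 ⟨hux', h2.symm, hu, (rch_insert_Res hG hu hux).mono ?_⟩
      intro w hw
      rcases Finset.mem_insert.1 hw with rfl | hw
      · exact Finset.mem_erase.2 ⟨h2.symm, hu⟩
      · refine Finset.mem_erase.2 ⟨?_, Res_sub hw⟩
        rintro rfl
        exact h1 hw

theorem Res_erase {G : Finset V} {x u z : V} (hx : x ∈ G) (hz : z ∉ Res r G x u) :
    Res r (G.erase z) x u = Res r G x u := by
  apply Finset.Subset.antisymm
  · intro v hv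
    obtain ⟨h1, h2, h3, h4⟩ := mem_Res.1 hv
    exact mem_Res.2 ⟨h1, h2, (Finset.mem_erase.1 h3).2,
      h4.mono (Finset.erase_subset_erase _ (Finset.erase_subset _ _))⟩
  · intro v hv
    have h5 := rch_Res hx hv
    obtain ⟨h1, h2, h3, h4⟩ := mem_Res.1 hv
    have hvz : v ≠ z := by
      rintro rfl
      exact hz hv
    refine mem_Res.2 ⟨h1, h2, Finset.mem_erase.2 ⟨hvz, h3⟩, h5.mono ?_⟩
    intro w hw
    refine Finset.mem_erase.2 ⟨(mem_Res.1 hw).2.1, Finset.mem_erase.2 ⟨?_, Res_sub hw⟩⟩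
    rintro rfl
    exact hz hw

theorem Res_insert {G : Finset V} {x u w : V} (hx : x ∈ G)
    (hw : ∀ a ∈ Res r G x u, ¬ r a w) (hwG : w ∉ G) :
    Res r (insert w G) x u = Res r G x u := by
  apply Finset.Subset.antisymm
  · intro v hv
    obtain ⟨h1, h2, h3, h4⟩ := mem_Res.1 hv
    clear hv h2 h3
    induction h4 with
    | refl => exact root_mem_Res hx h1
    | @tail a b _ h6 ih =>
      have hb := Finset.mem_erase.1 h6.2.1
      rcases Finset.mem_insert.1 hb.2 with rfl | hbG
      · exact absurd h6.2.2 (hw a ih)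
      · exact mem_Res_step ih hbG hb.1 h6.2.2
  · intro v hv
    obtain ⟨h1, h2, h3, h4⟩ := mem_Res.1 hv
    exact mem_Res.2 ⟨h1, h2, Finset.mem_insert_of_mem h3,
      h4.mono (Finset.erase_subset_erase _ (Finset.subset_insert _ _))⟩

theorem Res_insert_of_dom {G : Finset V} {x u w a : V} (ha : a ∈ Res r G x u) (haw : r a w)
    (hwu : w ≠ u) : insert w (Res r G x u) ⊆ Res r (insert w G) x u := by
  have hsub : Res r G x u ⊆ Res r (insert w G) x u := by
    intro v hv
    obtain ⟨h1, h2, h3, h4⟩ := mem_Res.1 hv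
    exact mem_Res.2 ⟨h1, h2, Finset.mem_insert_of_mem h3,
      h4.mono (Finset.erase_subset_erase _ (Finset.subset_insert _ _))⟩
  intro v hv
  rcases Finset.mem_insert.1 hv with rfl | hv
  · exact mem_Res_step (hsub ha) (Finset.mem_insert_self _ _) hwu haw
  · exact hsub hv

theorem Rooted.insert {G : Finset V} {x w a : V} (hG : Rooted r x G) (ha : a ∈ G) (haw : r a w) :
    Rooted r x (insert w G) := by
  refine ⟨Finset.mem_insert_of_mem hG.1, ?_⟩
  intro v hv
  rcases Finset.mem_insert.1 hv with rfl | hv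
  · exact ((hG.2 a ha).mono (Finset.subset_insert _ _)).tail
      ⟨Finset.mem_insert_of_mem ha, Finset.mem_insert_self _ _, haw⟩
  · exact (hG.2 v hv).mono (Finset.subset_insert _ _)

theorem Rooted.erase_of_Res {G : Finset V} {x u : V} (hG : Rooted r x G) (hux : u ≠ x)
    (h : G \ Res r G x u ⊆ {u}) : Rooted r x (G.erase u) := by
  refine ⟨Finset.mem_erase.2 ⟨hux.symm, hG.1⟩, ?_⟩
  intro v hv
  obtain ⟨h1, h2⟩ := Finset.mem_erase.1 hv
  have hv' : v ∈ Res r G x u := by
    by_contra h3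
    exact h1 (Finset.mem_singleton.1 (h (Finset.mem_sdiff.2 ⟨h2, h3⟩)))
  exact (mem_Res.1 hv').2.2.2

omit [DecidableEq V] in
/-- Distances from `b` in the subdigraph induced on `U`; unreachable vertices are allowed. -/
theorem exists_dist' (r : V → V → Prop) (U : Finset V) (b : V) :
    ∃ d : V → ℕ, d b = 0 ∧ (∀ u ∈ U, ∀ v ∈ U, r u v → d v ≤ d u + 1) ∧
      (∀ v ∈ U, Rch r U b v → v ≠ b → ∃ u ∈ U, Rch r U b u ∧ r u v ∧ d v = d u + 1) := by
  classical
  have hWs : ∀ n v, WalkN r U b (n + 1) v ↔ ∃ u ∈ U, WalkN r U b n u ∧ v ∈ U ∧ r u v :=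
    fun n v => Iff.rfl
  have hex : ∀ v, Rch r U b v → ∃ n, WalkN r U b n v := by
    intro v h
    induction h with
    | refl => exact ⟨0, rfl⟩
    | tail _ h1 ih =>
      obtain ⟨n, hn⟩ := ih
      exact ⟨n + 1, (hWs _ _).2 ⟨_, h1.1, hn, h1.2.1, h1.2.2⟩⟩
  have hrch : ∀ n v, WalkN r U b n v → Rch r U b v := by
    intro n
    induction n with
    | zero =>
      intro v hv
      have : v = b := hv
      subst this
      exact Rch.refl
    | succ n ih =>
      intro v hv
      obtain ⟨u, hu, h1, h2, h3⟩ := (hWs _ _).1 hv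
      exact (ih u h1).tail ⟨hu, h2, h3⟩
  let e : V → ℕ := fun v => if h : ∃ n, WalkN r U b n v then Nat.find h else 0
  have he : ∀ v (h : ∃ n, WalkN r U b n v), e v = Nat.find h := fun v h => dif_pos h
  let D : ℕ := ∑ v ∈ U, e v + 1
  have heD : ∀ v ∈ U, e v ≤ D := by
    intro v hv
    exact (Finset.single_le_sum (f := e) (fun _ _ => Nat.zero_le _) hv).trans (Nat.le_succ _)
  refine ⟨fun v => if (∃ n, WalkN r U b n v) then e v else D, ?_, ?_, ?_⟩
  · have h : ∃ n, WalkN r U b n b := ⟨0, rfl⟩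
    simp only [if_pos h, he b h]
    have h2 : WalkN r U b 0 b := rfl
    exact Nat.le_zero.1 (Nat.find_min' h h2)
  · intro u hu v hv huv
    by_cases h : ∃ n, WalkN r U b n u
    · have h2 : WalkN r U b (Nat.find h + 1) v := (hWs _ _).2 ⟨u, hu, Nat.find_spec h, hv, huv⟩
      have h3 : ∃ n, WalkN r U b n v := ⟨_, h2⟩
      simp only [if_pos h, if_pos h3, he u h, he v h3]
      exact Nat.find_min' _ h2
    · simp only [if_neg h]
      split_ifs
      · exact (heD v hv).trans (Nat.le_succ _)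
      · exact Nat.le_succ _
  · intro v hv hr hvb
    have h := hex v hr
    have h1 := Nat.find_spec h
    obtain ⟨n, hn⟩ : ∃ n, Nat.find h = n + 1 := by
      apply Nat.exists_eq_succ_of_ne_zero
      intro h0
      rw [h0] at h1
      exact hvb h1
    rw [hn] at h1
    obtain ⟨u, hu, h2, _, huv⟩ := (hWs _ _).1 h1
    have hu' : ∃ n, WalkN r U b n u := ⟨n, h2⟩
    refine ⟨u, hu, hrch n u h2, huv, ?_⟩
    simp only [if_pos h, if_pos hu', he v h, he u hu']
    rw [hn]
    have h3 : Nat.find hu' ≤ n := Nat.find_min' _ h2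
    have h4 : Nat.find h ≤ Nat.find hu' + 1 := by
      apply Nat.find_min'
      exact (hWs _ _).2 ⟨u, hu, Nat.find_spec hu', hv, huv⟩
    omega

/-- If the reservoir of `u` misses more than `u`, some other vertex outside the reservoir can be
removed. -/
theorem exists_leaf {G : Finset V} {x u : V} (hG : Rooted r x G) (hu : u ∈ G) (hux : u ≠ x)
    (h : ¬ G \ Res r G x u ⊆ {u}) :
    ∃ z ∈ G, z ∉ Res r G x u ∧ z ≠ u ∧ Rooted r x (G.erase z) := by
  classical
  obtain ⟨d, hd0, _, hd2⟩ := exists_dist' r G x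
  have hne : ((G \ Res r G x u).erase u).Nonempty := by
    by_contra h0
    rw [Finset.not_nonempty_iff_eq_empty] at h0
    apply h
    intro v hv
    rw [Finset.mem_singleton]
    by_contra hvu
    have : v ∈ (G \ Res r G x u).erase u := Finset.mem_erase.2 ⟨hvu, hv⟩
    rw [h0] at this
    exact absurd this (Finset.notMem_empty _)
  obtain ⟨z, hz, hmax⟩ := Finset.exists_max_image _ d hne
  obtain ⟨hzu, hz'⟩ := Finset.mem_erase.1 hz
  obtain ⟨hzG, hzR⟩ := Finset.mem_sdiff.1 hz'
  have hzx : z ≠ x := by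
    rintro rfl
    exact hzR (root_mem_Res hG.1 hux)
  refine ⟨z, hzG, hzR, hzu, Finset.mem_erase.2 ⟨hzx.symm, hG.1⟩, ?_⟩
  -- vertices not farther than `z`
  have key : ∀ n, ∀ v ∈ G, d v = n → n ≤ d z → v ≠ z → Rch r (G.erase z) x v := by
    intro n
    induction n using Nat.strong_induction_on with
    | _ n ih =>
      intro v hv hdv hnz hvz
      by_cases hvx : v = x
      · subst hvx
        exact Rch.refl
      obtain ⟨w, hw, _, hwv, hdw⟩ := hd2 v hv (hG.2 v hv) hvx
      have hwz : w ≠ z := by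
        rintro rfl
        omega
      exact (ih (d w) (by omega) w hw rfl (by omega) hwz).tail
        ⟨Finset.mem_erase.2 ⟨hwz, hw⟩, Finset.mem_erase.2 ⟨hvz, hv⟩, hwv⟩
  have hRes : ∀ v ∈ Res r G x u, Rch r (G.erase z) x v := by
    intro v hv
    refine (rch_Res hG.1 hv).mono ?_
    intro w hw
    refine Finset.mem_erase.2 ⟨?_, Res_sub hw⟩
    rintro rfl
    exact hzR hw
  intro v hv
  obtain ⟨hvz, hvG⟩ := Finset.mem_erase.1 hv
  by_cases hvR : v ∈ Res r G x u
  · exact hRes v hvR
  · by_cases hvu : v = u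
    · subst hvu
      refine (rch_insert_Res hG hu hux).mono ?_
      intro w hw
      rcases Finset.mem_insert.1 hw with rfl | hw
      · exact Finset.mem_erase.2 ⟨hvz, hvG⟩
      · refine Finset.mem_erase.2 ⟨?_, Res_sub hw⟩
        rintro rfl
        exact hzR hw
    · exact key (d v) v hvG rfl (hmax v (Finset.mem_erase.2 ⟨hvu, Finset.mem_sdiff.2 ⟨hvG, hvR⟩⟩)) hvz

end Pool.Agent.Work.MP_1399e9_co
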