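import Pool.Agent.Work.MP_1399e9_co.Sep

/-!
# The giant strong component
-/

namespace Pool.Agent.Work.MP_1399e9_co

open Finset Relation

variable {V : Type} {r : V → V → Prop} [DecidableEq V]

theorem Cut.flip {S : Finset V} (h : Cut r S) : Cut (fun a b => r b a) S := by
  intro R hR hne hRS
  have h1 : (S \ R).Nonempty := by
    by_contra h0
    rw [Finset.not_nonempty_iff_eq_empty, Finset.sdiff_eq_empty_iff_subset] at h0
    exact hRS (Finset.Subset.antisymm hR h0)
  have h2 : S \ R ≠ S := by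
    intro h0
    obtain ⟨v, hv⟩ := hne
    have : v ∈ S \ R := by
      rw [h0]
      exact hR hv
    exact (Finset.mem_sdiff.1 this).2 hv
  obtain ⟨u, hu, v, hv, huv⟩ := h (S \ R) Finset.sdiff_subset h1 h2
  rw [Finset.mem_sdiff, Finset.mem_sdiff, not_and, not_not] at hv
  exact ⟨v, hv.2 hv.1, u, hu, huv⟩

/-- All but few vertices lie in one strong component. -/
theorem giant (hT : IsTournament r) {k m : ℕ} (hk : 1 ≤ k) (hm : 1 ≤ m) {W : Finset V}
    (hsc : SC r k m W) (hW : 2 * m ≤ W.card) :
    ∃ G ⊆ W, Cut r G ∧ SC r k m G ∧ (W \ G).card + 2 ≤ 2 * m ∧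
      ∀ w ∈ W \ G, (∀ g ∈ G, r w g) ∨ ∀ g ∈ G, r g w := by
  classical
  -- maximal small initial and terminal segments
  let PL : Finset (Finset V) := W.powerset.filter
    (fun L => L.card < m ∧ ∀ a ∈ W \ L, ∀ b ∈ L, ¬ r a b)
  let PR : Finset (Finset V) := W.powerset.filter
    (fun R => R.card < m ∧ ∀ a ∈ R, ∀ b ∈ W \ R, ¬ r a b)
  have hPL : ∀ L, L ∈ PL ↔ L ⊆ W ∧ L.card < m ∧ ∀ a ∈ W \ L, ∀ b ∈ L, ¬ r a b := by
    intro L
    rw [Finset.mem_filter, Finset.mem_powerset]
  have hPR : ∀ R, R ∈ PR ↔ R ⊆ W ∧ R.card < m ∧ ∀ a ∈ R, ∀ b ∈ W \ R, ¬ r a b := by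
    intro L
    rw [Finset.mem_filter, Finset.mem_powerset]
  obtain ⟨L, hL, hLmax⟩ := Finset.exists_max_image PL Finset.card
    ⟨∅, (hPL ∅).2 ⟨Finset.empty_subset _, by rw [Finset.card_empty]; omega,
      fun a _ b hb => absurd hb (Finset.notMem_empty _)⟩⟩
  obtain ⟨R, hR, hRmax⟩ := Finset.exists_max_image PR Finset.card
    ⟨∅, (hPR ∅).2 ⟨Finset.empty_subset _, by rw [Finset.card_empty]; omega,
      fun a ha => absurd ha (Finset.notMem_empty _)⟩⟩
  obtain ⟨hLW, hLm, hLa⟩ := (hPL L).1 hL
  obtain ⟨hRW, hRm, hRa⟩ := (hPR R).1 hR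
  obtain ⟨G, hG⟩ : ∃ G, G = W \ (L ∪ R) := ⟨_, rfl⟩
  have hGmem : ∀ v, v ∈ G ↔ v ∈ W ∧ v ∉ L ∧ v ∉ R := by
    intro v
    rw [hG, Finset.mem_sdiff, Finset.mem_union, not_or]
  have hGW : G ⊆ W := fun v hv => ((hGmem v).1 hv).1
  have hsize : G.card + (L ∪ R).card = W.card := by
    rw [hG]
    exact Finset.card_sdiff_add_card_eq_card (Finset.union_subset hLW hRW)
  have hLRc := Finset.card_union_le L R
  have hGne : G.Nonempty := Finset.card_pos.1 (by omega)
  have hLR : ∀ v, v ∈ L → v ∉ R := by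
    intro v hvL hvR
    obtain ⟨g, hg⟩ := hGne
    obtain ⟨h1, h2, h3⟩ := (hGmem g).1 hg
    have h4 : ¬ r g v := hLa g (Finset.mem_sdiff.2 ⟨h1, h2⟩) v hvL
    have h5 : ¬ r v g := hRa v hvR g (Finset.mem_sdiff.2 ⟨h1, h3⟩)
    rcases hT.total (fun h => h2 (h ▸ hvL) : g ≠ v) with h | h
    · exact h4 h
    · exact h5 h
  have hWG : W \ G ⊆ L ∪ R := by
    intro v hv
    obtain ⟨h1, h2⟩ := Finset.mem_sdiff.1 hv
    by_contra h3
    rw [Finset.mem_union, not_or] at h3
    exact h2 ((hGmem v).2 ⟨h1, h3.1, h3.2⟩)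
  refine ⟨G, hGW, ?_, ?_, ?_, ?_⟩
  · intro S hS hSne hSG
    by_contra hcon
    push Not at hcon
    have hS' : (G \ S).Nonempty := by
      by_contra h0
      rw [Finset.not_nonempty_iff_eq_empty, Finset.sdiff_eq_empty_iff_subset] at h0
      exact hSG (Finset.Subset.antisymm hS h0)
    have hsep : IsSep r W (L ∪ (G \ S)) ∅ (S ∪ R) := by
      refine ⟨Finset.disjoint_empty_right _, ?_, Finset.disjoint_empty_left _, ?_, ?_⟩
      · rw [Finset.disjoint_left]
        intro v hv hv2
        simp only [Finset.mem_union, Finset.mem_sdiff] at hv hv2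
        rcases hv with hv | ⟨hv, hv'⟩
        · rcases hv2 with h | h
          · exact ((hGmem v).1 (hS h)).2.1 hv
          · exact hLR v hv h
        · rcases hv2 with h | h
          · exact hv' h
          · exact ((hGmem v).1 hv).2.2 h
      · ext v
        have e1 := hGmem v
        have e2 : v ∈ S → v ∈ G := fun h => hS h
        have e3 : v ∈ L → v ∈ W := fun h => hLW h
        have e4 : v ∈ R → v ∈ W := fun h => hRW h
        simp only [Finset.mem_union, Finset.mem_sdiff, Finset.notMem_empty, or_false]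
        tauto
      · intro a ha b hb
        rcases Finset.mem_union.1 hb with hb | hb
        · rcases Finset.mem_union.1 ha with ha | ha
          · have := (hGmem a).1 (hS ha)
            exact hLa a (Finset.mem_sdiff.2 ⟨this.1, this.2.1⟩) b hb
          · exact hLa a (Finset.mem_sdiff.2 ⟨hRW ha, fun h => hLR a h ha⟩) b hb
        · rcases Finset.mem_union.1 ha with ha | ha
          · exact hcon a ha b hb
          · have := (hGmem b).1 (Finset.mem_sdiff.1 hb).1
            exact hRa a ha b (Finset.mem_sdiff.2 ⟨this.1, this.2.2⟩)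
    have h1 : ¬ (m ≤ (L ∪ (G \ S)).card ∧ m ≤ (S ∪ R).card) := by
      rintro ⟨h1, h2⟩
      have := hsc _ _ _ hsep h1 h2
      rw [Finset.card_empty] at this
      omega
    by_cases h2 : m ≤ (L ∪ (G \ S)).card
    · have h3 : (S ∪ R).card < m := by
        by_contra h4
        exact h1 ⟨h2, by omega⟩
      have h4 : S ∪ R ∈ PR := by
        refine (hPR _).2 ⟨Finset.union_subset (hS.trans hGW) hRW, h3, ?_⟩
        intro a ha b hb
        apply hsep.2.2.2.2 a ha b
        rw [Finset.mem_sdiff, Finset.mem_union, not_or] at hb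
        by_cases hbL : b ∈ L
        · exact Finset.mem_union_left _ hbL
        · exact Finset.mem_union_right _ (Finset.mem_sdiff.2
            ⟨(hGmem b).2 ⟨hb.1, hbL, hb.2.2⟩, hb.2.1⟩)
      have h5 := hRmax _ h4
      rw [Finset.card_union_of_disjoint] at h5
      · have := hSne.card_pos
        omega
      · rw [Finset.disjoint_left]
        intro v hv
        exact ((hGmem v).1 (hS hv)).2.2
    · have h4 : L ∪ (G \ S) ∈ PL := by
        refine (hPL _).2 ⟨Finset.union_subset hLW (Finset.sdiff_subset.trans hGW), by omega, ?_⟩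
        intro a ha b hb
        apply hsep.2.2.2.2 a _ b hb
        rw [Finset.mem_sdiff, Finset.mem_union, not_or, Finset.mem_sdiff, not_and, not_not] at ha
        by_cases haR : a ∈ R
        · exact Finset.mem_union_right _ haR
        · exact Finset.mem_union_left _ (ha.2.2 ((hGmem a).2 ⟨ha.1, ha.2.1, haR⟩))
      have h5 := hLmax _ h4
      rw [Finset.card_union_of_disjoint] at h5
      · have := hS'.card_pos
        omega
      · rw [Finset.disjoint_left]
        intro v hv hv2
        exact ((hGmem v).1 (Finset.mem_sdiff.1 hv2).1).2.1 hv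
  · intro A X B hs hA hB
    obtain ⟨s1, s2, s3, s4, s5⟩ := hs
    have hGs : ∀ v, v ∈ A ∨ v ∈ X ∨ v ∈ B → v ∈ G := by
      intro v hv
      rw [← s4]
      simp only [Finset.mem_union]
      tauto
    refine hsc (L ∪ A) X (B ∪ R) ⟨?_, ?_, ?_, ?_, ?_⟩
      (hA.trans (Finset.card_le_card Finset.subset_union_right))
      (hB.trans (Finset.card_le_card Finset.subset_union_left))
    · rw [Finset.disjoint_union_left]
      refine ⟨?_, s1⟩
      rw [Finset.disjoint_left]
      intro v hv hv2
      exact ((hGmem v).1 (hGs v (Or.inr (Or.inl hv2)))).2.1 hv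
    · rw [Finset.disjoint_union_left, Finset.disjoint_union_right, Finset.disjoint_union_right]
      refine ⟨⟨?_, ?_⟩, s2, ?_⟩
      · rw [Finset.disjoint_left]
        intro v hv hv2
        exact ((hGmem v).1 (hGs v (Or.inr (Or.inr hv2)))).2.1 hv
      · rw [Finset.disjoint_left]
        intro v hv hv2
        exact hLR v hv hv2
      · rw [Finset.disjoint_left]
        intro v hv hv2
        exact ((hGmem v).1 (hGs v (Or.inl hv))).2.2 hv2
    · rw [Finset.disjoint_union_right]
      refine ⟨s3, ?_⟩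
      rw [Finset.disjoint_left]
      intro v hv hv2
      exact ((hGmem v).1 (hGs v (Or.inr (Or.inl hv)))).2.2 hv2
    · ext v
      have e1 := hGmem v
      have e2 : v ∈ G ↔ v ∈ A ∨ v ∈ X ∨ v ∈ B := by
        rw [← s4]
        simp only [Finset.mem_union]
        tauto
      have e3 : v ∈ L → v ∈ W := fun h => hLW h
      have e4 : v ∈ R → v ∈ W := fun h => hRW h
      simp only [Finset.mem_union]
      tauto
    · intro a ha b hb
      rcases Finset.mem_union.1 hb with hb | hb
      · rcases Finset.mem_union.1 ha with ha | ha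
        · have := (hGmem a).1 (hGs a (Or.inr (Or.inr ha)))
          exact hLa a (Finset.mem_sdiff.2 ⟨this.1, this.2.1⟩) b hb
        · exact hLa a (Finset.mem_sdiff.2 ⟨hRW ha, fun h => hLR a h ha⟩) b hb
      · rcases Finset.mem_union.1 ha with ha | ha
        · exact s5 a ha b hb
        · have := (hGmem b).1 (hGs b (Or.inl hb))
          exact hRa a ha b (Finset.mem_sdiff.2 ⟨this.1, this.2.2⟩)
  · have := Finset.card_le_card hWG
    omega
  · intro w hw
    rcases Finset.mem_union.1 (hWG hw) with h | h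
    · left
      intro g hg
      have := (hGmem g).1 hg
      exact hT.of_not (fun h1 => this.2.1 (h1 ▸ h)) (hLa g (Finset.mem_sdiff.2 ⟨this.1, this.2.1⟩) w h)
    · right
      intro g hg
      have := (hGmem g).1 hg
      exact hT.of_not (fun h1 => this.2.2 (h1 ▸ h))
        (hRa w h g (Finset.mem_sdiff.2 ⟨this.1, this.2.2⟩))

end Pool.Agent.Work.MP_1399e9_co
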