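import Pool.Agent.Work.MP_1399e9_co.Sep

/-!
# Growing strands on one side of a separation
-/

namespace Pool.Agent.Work.MP_1399e9_co

open Finset Relation

variable {V : Type} {r : V → V → Prop} [DecidableEq V]

/-- Disjoint rooted sets `G x`, `x ∈ X`, with `G x \ {x} ⊆ L`. -/
structure LSys (r : V → V → Prop) (L X : Finset V) (G : V → Finset V) : Prop where
  root : ∀ x ∈ X, Rooted r x (G x)
  sub : ∀ x ∈ X, G x ⊆ insert x L
  disj : ∀ x ∈ X, ∀ y ∈ X, x ≠ y → Disjoint (G x) (G y)

theorem LSys.card_eq {L X : Finset V} {G : V → Finset V} (h : LSys r L X G)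
    (hLX : Disjoint L X) : (L \ X.biUnion G).card + ∑ x ∈ X, (G x).card = L.card + X.card := by
  have h1 : L \ X.biUnion G = (L ∪ X) \ X.biUnion G := by
    ext v
    simp only [Finset.mem_sdiff, Finset.mem_union]
    constructor
    · rintro ⟨h1, h2⟩
      exact ⟨Or.inl h1, h2⟩
    · rintro ⟨h1 | h1, h2⟩
      · exact ⟨h1, h2⟩
      · exact absurd (Finset.mem_biUnion.2 ⟨v, h1, (h.root v h1).1⟩) h2
  have h2 : X.biUnion G ⊆ L ∪ X := by
    intro v hv
    obtain ⟨x, hx, hv⟩ := Finset.mem_biUnion.1 hv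
    rcases Finset.mem_insert.1 (h.sub x hx hv) with rfl | h3
    · exact Finset.mem_union_right _ hx
    · exact Finset.mem_union_left _ h3
  rw [h1, ← Finset.card_biUnion h.disj, Finset.card_sdiff_add_card_eq_card h2,
    Finset.card_union_of_disjoint hLX]

theorem LSys.grow {U L X R : Finset V} {k m : ℕ} {G : V → Finset V} (hsep : IsSep r U L X R)
    (hsc : SC r k m U) (hX : X.card = k) (hR : m ≤ R.card) (hG : LSys r L X G) {x₀ : V}
    (hx₀ : x₀ ∈ X) (hlo : m ≤ (L \ X.biUnion G).card) :
    ∃ G', LSys r L X G' ∧ (G' x₀).card = (G x₀).card + 1 ∧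
      ∀ x ∈ X, x ≠ x₀ → (G' x).card = (G x).card := by
  classical
  have hLX : Disjoint L X := hsep.1
  let D : Dat V V := ⟨r, L ∪ X, G x₀, X.erase x₀, id, fun x => (G x).card⟩
  have hsubU : ∀ x ∈ X, G x ⊆ L ∪ X := by
    intro x hx v hv
    rcases Finset.mem_insert.1 (hG.sub x hx hv) with rfl | h3
    · exact Finset.mem_union_right _ hx
    · exact Finset.mem_union_left _ h3
  have hDG : D.Sys G := by
    constructor
    · intro i hi v hv
      obtain ⟨hi1, hi2⟩ := Finset.mem_erase.1 hi
      exact Finset.mem_sdiff.2 ⟨hsubU i hi2 hv,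
        fun h => (Finset.disjoint_left.1 (hG.disj i hi2 x₀ hx₀ hi1)) hv h⟩
    · intro i hi
      exact hG.root i (Finset.mem_erase.1 hi).2
    · intro i hi j hj hij
      exact hG.disj i (Finset.mem_erase.1 hi).2 j (Finset.mem_erase.1 hj).2 hij
    · intro i _
      rfl
  have hleft : (D.Ω \ (D.G0 ∪ D.I.biUnion G)) = L \ X.biUnion G := by
    ext v
    simp only [D, Finset.mem_sdiff, Finset.mem_union, Finset.mem_biUnion, Finset.mem_erase]
    constructor
    · rintro ⟨h1, h2⟩
      have h3 : ¬ ∃ a ∈ X, v ∈ G a := by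
        rintro ⟨a, ha, hva⟩
        by_cases hax : a = x₀
        · subst hax
          exact h2 (Or.inl hva)
        · exact h2 (Or.inr ⟨a, ⟨hax, ha⟩, hva⟩)
      refine ⟨?_, h3⟩
      rcases h1 with h1 | h1
      · exact h1
      · exact absurd ⟨v, h1, (hG.root v h1).1⟩ h3
    · rintro ⟨h1, h2⟩
      refine ⟨Or.inl h1, ?_⟩
      rintro (h3 | ⟨a, ⟨_, ha⟩, hva⟩)
      · exact h2 ⟨x₀, hx₀, h3⟩
      · exact h2 ⟨a, ha, hva⟩
  obtain ⟨G', hG', w, hw, b, hb, hbw⟩ := gl_aug hDG (by
    intro Q hQ hQ0 hQx hQc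
    rw [hleft] at hQc
    have hQL : Q ⊆ L := by
      intro v hv
      rcases Finset.mem_union.1 (hQ hv) with h | h
      · exact h
      · exfalso
        by_cases hvx : v = x₀
        · subst hvx
          exact (Finset.disjoint_left.1 hQ0) hv (hG.root v hx₀).1
        · exact hQx v (Finset.mem_erase.2 ⟨hvx, h⟩) hv
    have h1 : k ≤ (nb r (L ∪ X) Q).card := hsep.card_nb hsc hQL (hlo.trans hQc) hR
    have h2 : (X.erase x₀).card < k := by
      rw [Finset.card_erase_of_mem hx₀, hX]
      have := Finset.card_pos.2 ⟨x₀, hx₀⟩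
      omega
    exact h2.trans_le h1)
  obtain ⟨hwΩ, hw0, hwG⟩ := Dat.Sys.leftover_mem hw
  have hwG' : ∀ i ∈ X, i ≠ x₀ → w ∉ G' i := fun i hi hix => hwG i (Finset.mem_erase.2 ⟨hix, hi⟩)
  have hw0' : w ∉ G x₀ := hw0
  have hG'r : ∀ i ∈ X, i ≠ x₀ → Rooted r i (G' i) := fun i hi hix =>
    hG'.root i (Finset.mem_erase.2 ⟨hix, hi⟩)
  have hG's : ∀ i ∈ X, i ≠ x₀ → ∀ v ∈ G' i, v ∈ L ∪ X ∧ v ∉ G x₀ := fun i hi hix v hv =>
    Finset.mem_sdiff.1 (hG'.sub i (Finset.mem_erase.2 ⟨hix, hi⟩) hv)
  have hwL : w ∈ L := by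
    rcases Finset.mem_union.1 hwΩ with h | h
    · exact h
    · exfalso
      by_cases hwx : w = x₀
      · exact hw0' (hwx ▸ (hG.root x₀ hx₀).1)
      · exact hwG' w h hwx (hG'r w h hwx).1
  refine ⟨Function.update G' x₀ (insert w (G x₀)), ⟨?_, ?_, ?_⟩, ?_, ?_⟩
  · intro x hx
    by_cases hxx : x = x₀
    · subst hxx
      rw [Function.update_self]
      exact (hG.root x hx).insert hb hbw
    · rw [Function.update_of_ne hxx]
      exact hG'r x hx hxx
  · intro x hx
    by_cases hxx : x = x₀
    · subst hxx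
      rw [Function.update_self]
      exact Finset.insert_subset (Finset.mem_insert_of_mem hwL) (hG.sub x hx)
    · rw [Function.update_of_ne hxx]
      intro v hv
      obtain ⟨h1, h2⟩ := hG's x hx hxx v hv
      rcases Finset.mem_union.1 h1 with h | h
      · exact Finset.mem_insert_of_mem h
      · by_cases hvx : v = x₀
        · exact absurd (hvx ▸ (hG.root x₀ hx₀).1) h2
        · by_cases hvx' : v = x
          · rw [hvx']
            exact Finset.mem_insert_self _ _
          · exfalso
            exact (Finset.disjoint_left.1 (hG'.disj x (Finset.mem_erase.2 ⟨hxx, hx⟩) v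
              (Finset.mem_erase.2 ⟨hvx, h⟩) (Ne.symm hvx'))) hv (hG'r v h hvx).1
  · intro x hx y hy hxy
    by_cases hxx : x = x₀
    · subst hxx
      rw [Function.update_self, Function.update_of_ne (Ne.symm hxy)]
      rw [Finset.disjoint_left]
      intro v hv hv2
      rcases Finset.mem_insert.1 hv with rfl | hv
      · exact hwG' y hy (Ne.symm hxy) hv2
      · exact (hG's y hy (Ne.symm hxy) v hv2).2 hv
    · by_cases hyx : y = x₀
      · subst hyx
        rw [Function.update_self, Function.update_of_ne hxx]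
        rw [Finset.disjoint_left]
        intro v hv2 hv
        rcases Finset.mem_insert.1 hv with rfl | hv
        · exact hwG' x hx hxx hv2
        · exact (hG's x hx hxx v hv2).2 hv
      · rw [Function.update_of_ne hxx, Function.update_of_ne hyx]
        exact hG'.disj x (Finset.mem_erase.2 ⟨hxx, hx⟩) y (Finset.mem_erase.2 ⟨hyx, hy⟩) hxy
  · rw [Function.update_self, Finset.card_insert_of_notMem hw0']
  · intro x hx hxx
    rw [Function.update_of_ne hxx]
    exact hG'.card x (Finset.mem_erase.2 ⟨hxx, hx⟩)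

/-- Strands for `z ∈ Z` together with one more part `G0` that contains the other roots. -/
structure LSys2 (r : V → V → Prop) (L X Z : Finset V) (G : V → Finset V) (G0 : Finset V) :
    Prop where
  root : ∀ x ∈ Z, Rooted r x (G x)
  sub : ∀ x ∈ Z, G x ⊆ insert x L
  disj : ∀ x ∈ Z, ∀ y ∈ Z, x ≠ y → Disjoint (G x) (G y)
  disj0 : ∀ x ∈ Z, Disjoint (G x) G0
  sub0 : G0 ⊆ L ∪ (X \ Z)
  sup0 : X \ Z ⊆ G0
  root0 : ∀ v ∈ G0, ∃ y ∈ X \ Z, Rch r G0 y v

theorem LSys2.absorb {U L X R Z : Finset V} {t : ℕ} (hsep : IsSep r U L X R)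
    (hsc : SC r t 1 U) (hZX : Z ⊆ X) (hZ : Z.card < t) (hR : R.Nonempty) :
    ∀ n, ∀ G G0, LSys2 r L X Z G G0 → ((L ∪ X) \ (G0 ∪ Z.biUnion G)).card = n →
      ∃ G' G0', LSys2 r L X Z G' G0' ∧ (∀ z ∈ Z, (G' z).card = (G z).card) ∧ G0 ⊆ G0' ∧
        L ∪ X = G0' ∪ Z.biUnion G' := by
  classical
  have hLX : Disjoint L X := hsep.1
  have hcard : ∀ G G0, LSys2 r L X Z G G0 →
      ((L ∪ X) \ (G0 ∪ Z.biUnion G)).card + (G0.card + ∑ z ∈ Z, (G z).card) = (L ∪ X).card := by
    intro G G0 h
    have h1 : G0 ∪ Z.biUnion G ⊆ L ∪ X := by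
      intro v hv
      rcases Finset.mem_union.1 hv with hv | hv
      · rcases Finset.mem_union.1 (h.sub0 hv) with h2 | h2
        · exact Finset.mem_union_left _ h2
        · exact Finset.mem_union_right _ (Finset.mem_sdiff.1 h2).1
      · obtain ⟨x, hx, hv⟩ := Finset.mem_biUnion.1 hv
        rcases Finset.mem_insert.1 (h.sub x hx hv) with rfl | h3
        · exact Finset.mem_union_right _ (hZX hx)
        · exact Finset.mem_union_left _ h3
    have h2 : Disjoint G0 (Z.biUnion G) := by
      rw [Finset.disjoint_biUnion_right]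
      intro z hz
      exact (h.disj0 z hz).symm
    rw [← Finset.card_biUnion h.disj, ← Finset.card_union_of_disjoint h2,
      Finset.card_sdiff_add_card_eq_card h1]
  intro n
  induction n with
  | zero =>
    intro G G0 h hn
    refine ⟨G, G0, h, fun _ _ => rfl, Finset.Subset.refl _, ?_⟩
    rw [Finset.card_eq_zero, Finset.sdiff_eq_empty_iff_subset] at hn
    apply Finset.Subset.antisymm hn
    intro v hv
    rcases Finset.mem_union.1 hv with hv | hv
    · rcases Finset.mem_union.1 (h.sub0 hv) with h2 | h2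
      · exact Finset.mem_union_left _ h2
      · exact Finset.mem_union_right _ (Finset.mem_sdiff.1 h2).1
    · obtain ⟨x, hx, hv⟩ := Finset.mem_biUnion.1 hv
      rcases Finset.mem_insert.1 (h.sub x hx hv) with rfl | h3
      · exact Finset.mem_union_right _ (hZX hx)
      · exact Finset.mem_union_left _ h3
  | succ n ih =>
    intro G G0 h hn
    let D : Dat V V := ⟨r, L ∪ X, G0, Z, id, fun x => (G x).card⟩
    have hDG : D.Sys G := by
      constructor
      · intro i hi v hv
        refine Finset.mem_sdiff.2 ⟨?_, fun h0 => (Finset.disjoint_left.1 (h.disj0 i hi)) hv h0⟩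
        rcases Finset.mem_insert.1 (h.sub i hi hv) with rfl | h3
        · exact Finset.mem_union_right _ (hZX hi)
        · exact Finset.mem_union_left _ h3
      · exact h.root
      · exact h.disj
      · intro i _
        rfl
    obtain ⟨G', hG', w, hw, b, hb, hbw⟩ := gl_aug hDG (by
      intro Q hQ hQ0 hQx hQc
      have hQL : Q ⊆ L := by
        intro v hv
        rcases Finset.mem_union.1 (hQ hv) with h1 | h1
        · exact h1
        · exfalso
          by_cases hvZ : v ∈ Z
          · exact hQx v hvZ hv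
          · exact (Finset.disjoint_left.1 hQ0) hv (h.sup0 (Finset.mem_sdiff.2 ⟨h1, hvZ⟩))
      have hQ1 : 1 ≤ Q.card := by
        refine le_trans ?_ hQc
        change 1 ≤ ((L ∪ X) \ (G0 ∪ Z.biUnion G)).card
        omega
      have h1 : t ≤ (nb r (L ∪ X) Q).card := hsep.card_nb hsc hQL hQ1 (Finset.card_pos.2 hR)
      exact hZ.trans_le h1)
    obtain ⟨hwΩ, hw0, hwG⟩ := Dat.Sys.leftover_mem hw
    have hw0' : w ∉ G0 := hw0
    have hwG' : ∀ i ∈ Z, w ∉ G' i := hwG
    have hG'r : ∀ i ∈ Z, Rooted r i (G' i) := hG'.root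
    have hG's : ∀ i ∈ Z, ∀ v ∈ G' i, v ∈ L ∪ X ∧ v ∉ G0 := fun i hi v hv =>
      Finset.mem_sdiff.1 (hG'.sub i hi hv)
    have hwL : w ∈ L := by
      rcases Finset.mem_union.1 hwΩ with h1 | h1
      · exact h1
      · exfalso
        by_cases hwZ : w ∈ Z
        · exact hwG' w hwZ (hG'r w hwZ).1
        · exact hw0' (h.sup0 (Finset.mem_sdiff.2 ⟨h1, hwZ⟩))
    have hb0 : b ∈ G0 := hb
    have hnew : LSys2 r L X Z G' (insert w G0) := by
      constructor
      · exact hG'r
      · intro x hx v hv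
        obtain ⟨h1, h2⟩ := hG's x hx v hv
        rcases Finset.mem_union.1 h1 with h3 | h3
        · exact Finset.mem_insert_of_mem h3
        · by_cases hvZ : v ∈ Z
          · by_cases hvx : v = x
            · rw [hvx]
              exact Finset.mem_insert_self _ _
            · exfalso
              exact (Finset.disjoint_left.1 (hG'.disj x hx v hvZ (Ne.symm hvx))) hv
                (hG'r v hvZ).1
          · exact absurd (h.sup0 (Finset.mem_sdiff.2 ⟨h3, hvZ⟩)) h2
      · exact hG'.disj
      · intro x hx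
        rw [Finset.disjoint_left]
        intro v hv hv2
        rcases Finset.mem_insert.1 hv2 with rfl | hv2
        · exact hwG' x hx hv
        · exact (hG's x hx v hv).2 hv2
      · exact Finset.insert_subset (Finset.mem_union_left _ hwL) h.sub0
      · exact h.sup0.trans (Finset.subset_insert _ _)
      · intro v hv
        rcases Finset.mem_insert.1 hv with rfl | hv
        · obtain ⟨y, hy, h1⟩ := h.root0 b hb0
          exact ⟨y, hy, (h1.mono (Finset.subset_insert _ _)).tail
            ⟨Finset.mem_insert_of_mem hb0, Finset.mem_insert_self _ _, hbw⟩⟩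
        · obtain ⟨y, hy, h1⟩ := h.root0 v hv
          exact ⟨y, hy, h1.mono (Finset.subset_insert _ _)⟩
    have hG'c : ∀ z ∈ Z, (G' z).card = (G z).card := hG'.card
    have e1 := hcard G G0 h
    have e2 := hcard G' (insert w G0) hnew
    rw [Finset.card_insert_of_notMem hw0', Finset.sum_congr rfl hG'c] at e2
    obtain ⟨G'', G0'', h1, h2, h3, h4⟩ := ih G' (insert w G0) hnew (by omega)
    exact ⟨G'', G0'', h1, fun z hz => (h2 z hz).trans (hG'c z hz),
      (Finset.subset_insert _ _).trans h3, h4⟩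

end Pool.Agent.Work.MP_1399e9_co
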