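import Pool.Agent.Work.MP_1399e9_co.Cut

/-!
# Strong tournaments have cycles of all lengths (Moon, Camion)
-/

namespace Pool.Agent.Work.MP_1399e9_co

open Finset Relation

variable {V : Type} {r : V → V → Prop}

/-- `a :: l` is the list of vertices of a directed cycle. -/
def Cyc (r : V → V → Prop) (a : V) (l : List V) : Prop :=
  (a :: l).Nodup ∧ List.IsChain r (a :: (l ++ [a]))

theorem Cyc.rotate {a : V} {l : List V} (h : Cyc r a l) {x : V} (hx : x ∈ a :: l) :
    ∃ l', Cyc r x l' ∧ (x :: l').Perm (a :: l) := by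
  rcases List.mem_cons.1 hx with rfl | hx
  · exact ⟨l, h, List.Perm.refl _⟩
  · obtain ⟨s, t, rfl⟩ := List.append_of_mem hx
    have hp : (x :: (t ++ a :: s)).Perm (a :: (s ++ x :: t)) := by
      have e1 : x :: (t ++ a :: s) = (x :: t) ++ (a :: s) := by simp
      have e2 : a :: (s ++ x :: t) = (a :: s) ++ (x :: t) := by simp
      rw [e1, e2]
      exact List.perm_append_comm
    refine ⟨t ++ a :: s, ⟨hp.nodup_iff.2 h.1, ?_⟩, hp⟩
    have h2 := h.2
    have e3 : a :: ((s ++ x :: t) ++ [a]) = (a :: s) ++ x :: (t ++ [a]) := by simp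
    rw [e3, List.isChain_split] at h2
    have e4 : x :: ((t ++ a :: s) ++ [x]) = (x :: t) ++ a :: (s ++ [x]) := by simp
    rw [e4, List.isChain_split]
    constructor
    · simpa using h2.2
    · simpa using h2.1

/-- Insertion of a vertex in a path. -/
theorem insert_path {v b : V} : ∀ (l : List V) (a : V), List.IsChain r (a :: (l ++ [b])) → r a v →
    (r v b ∨ ∃ x ∈ l, r v x) → (∀ x ∈ l, r x v ∨ r v x) →
    ∃ l', List.IsChain r (a :: (l' ++ [b])) ∧ l'.Perm (v :: l) := by
  intro l
  induction l with
  | nil =>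
    intro a _ hav hvb _
    have hvb' : r v b := by simpa using hvb
    refine ⟨[v], ?_, List.Perm.refl _⟩
    simp [hav, hvb']
  | cons x l ih =>
    intro a hc hav hvb hd
    have hc' : r a x ∧ List.IsChain r (x :: (l ++ [b])) := by
      simpa [List.isChain_cons_cons] using hc
    by_cases hvx : r v x
    · refine ⟨v :: x :: l, ?_, List.Perm.refl _⟩
      have : List.IsChain r (a :: v :: x :: (l ++ [b])) := by
        rw [List.isChain_cons_cons, List.isChain_cons_cons]
        exact ⟨hav, hvx, hc'.2⟩
      simpa using this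
    · have hxv : r x v := (hd x (List.mem_cons_self)).resolve_right hvx
      obtain ⟨l', h1, h2⟩ := ih x hc'.2 hxv
        (by
          rcases hvb with h | ⟨y, hy, hvy⟩
          · exact Or.inl h
          · rcases List.mem_cons.1 hy with rfl | hy
            · exact absurd hvy hvx
            · exact Or.inr ⟨y, hy, hvy⟩)
        (fun y hy => hd y (List.mem_cons_of_mem _ hy))
      refine ⟨x :: l', ?_, ?_⟩
      · have : List.IsChain r (a :: x :: (l' ++ [b])) := by
          rw [List.isChain_cons_cons]
          exact ⟨hc'.1, h1⟩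
        simpa using this
      · exact (h2.cons x).trans (List.Perm.swap v x l)

variable [DecidableEq V]

theorem ext_cyc (hT : IsTournament r) {S : Finset V} (hS : Cut r S) {a : V} {l : List V}
    (hc : Cyc r a l) (hlS : ∀ x ∈ a :: l, x ∈ S) (hlen : 1 ≤ l.length)
    (hlt : l.length + 1 < S.card) :
    ∃ b l', Cyc r b l' ∧ (∀ x ∈ b :: l', x ∈ S) ∧ l'.length = l.length + 1 := by
  classical
  by_cases hA : ∃ v ∈ S, v ∉ a :: l ∧ (∃ x ∈ a :: l, r v x) ∧ ∃ y ∈ a :: l, r y v
  · obtain ⟨v, hvS, hv, ⟨x, hx, hvx⟩, y, hy, hyv⟩ := hA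
    obtain ⟨l1, hc1, hp1⟩ := hc.rotate hy
    have hx1 : x ∈ l1 := by
      have : x ∈ y :: l1 := hp1.mem_iff.2 hx
      rcases List.mem_cons.1 this with rfl | h
      · exact absurd hyv (hT.asymm hvx)
      · exact h
    have hv1 : v ∉ y :: l1 := fun h => hv (hp1.mem_iff.1 h)
    obtain ⟨l2, h1, h2⟩ := insert_path l1 y hc1.2 hyv (Or.inr ⟨x, hx1, hvx⟩)
      (fun z hz => hT.total (fun h => hv1 (h ▸ List.mem_cons_of_mem _ hz)))
    have hp : (y :: l2).Perm (v :: (y :: l1)) := (h2.cons y).trans (List.Perm.swap v y l1)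
    refine ⟨y, l2, ⟨?_, h1⟩, ?_, ?_⟩
    · rw [hp.nodup_iff, List.nodup_cons]
      exact ⟨hv1, hc1.1⟩
    · intro z hz
      rcases List.mem_cons.1 (hp.mem_iff.1 hz) with rfl | h
      · exact hvS
      · exact hlS z (hp1.mem_iff.1 h)
    · have e1 := hp.length_eq
      have e2 := hp1.length_eq
      simp only [List.length_cons] at e1 e2
      omega
  · push Not at hA
    -- every outside vertex dominates the cycle or is dominated by it
    let C : Finset V := (a :: l).toFinset
    have hCS : C ⊆ S := fun x hx => hlS x (List.mem_toFinset.1 hx)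
    have hCcard : C.card = l.length + 1 := by
      rw [List.toFinset_card_of_nodup hc.1]
      simp
    have hCne : C.Nonempty := ⟨a, List.mem_toFinset.2 (List.mem_cons_self)⟩
    let O : Finset V := S.filter (fun v => v ∉ a :: l ∧ ∃ y ∈ a :: l, r y v)
    have hO : ∀ v ∈ O, ∀ x ∈ a :: l, r x v := by
      intro v hv x hx
      obtain ⟨hvS, hv1, hv2⟩ := Finset.mem_filter.1 hv
      have h3 : ¬ r v x := by
        intro h4
        obtain ⟨y, hy, hyv⟩ := hv2
        exact hA v hvS hv1 ⟨x, hx, h4⟩ y hy hyv
      exact hT.of_not (fun h => hv1 (h ▸ hx)) h3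
    -- an arc from `C ∪ O` to the rest
    by_cases hI : C ∪ O = S
    · -- no vertex dominating the cycle
      have hOne : O.Nonempty := by
        by_contra h
        rw [Finset.not_nonempty_iff_eq_empty] at h
        rw [h, Finset.union_empty] at hI
        rw [← hI] at hlt
        omega
      have hOS : O ≠ S := by
        intro h
        have h1 : a ∈ O := h ▸ hlS a (List.mem_cons_self)
        exact (Finset.mem_filter.1 h1).2.1 (List.mem_cons_self)
      obtain ⟨u, hu, v, hv, huv⟩ := hS O (Finset.filter_subset _ _) hOne hOS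
      rw [Finset.mem_sdiff] at hv
      have hvC : v ∈ C := by
        have : v ∈ C ∪ O := hI.symm ▸ hv.1
        rcases Finset.mem_union.1 this with h | h
        · exact h
        · exact absurd h hv.2
      exact absurd huv (hT.asymm (hO u hu v (List.mem_toFinset.1 hvC)))
    · obtain ⟨o, ho, i, hi, hoi⟩ := hS (C ∪ O) (Finset.union_subset hCS (Finset.filter_subset _ _))
        (hCne.mono Finset.subset_union_left) hI
      rw [Finset.mem_sdiff, Finset.mem_union, not_or] at hi
      obtain ⟨hiS, hiC, hiO⟩ := hi
      have hil : i ∉ a :: l := fun h => hiC (List.mem_toFinset.2 h)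
      have hi2 : ∀ x ∈ a :: l, ¬ r x i := by
        intro x hx h
        exact hiO (Finset.mem_filter.2 ⟨hiS, hil, x, hx, h⟩)
      have hi3 : ∀ x ∈ a :: l, r i x := by
        intro x hx
        exact hT.of_not (fun h => hil (h ▸ hx)) (hi2 x hx)
      have hoO : o ∈ O := by
        rcases Finset.mem_union.1 ho with h | h
        · exact absurd hoi (hi2 o (List.mem_toFinset.1 h))
        · exact h
      have hol : o ∉ a :: l := (Finset.mem_filter.1 hoO).2.1
      have hoS : o ∈ S := (Finset.mem_filter.1 hoO).1
      cases l with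
      | nil => simp at hlen
      | cons b l =>
        refine ⟨a, o :: i :: l, ⟨?_, ?_⟩, ?_, by simp⟩
        · have hn := hc.1
          have hoi' : o ≠ i := hT.ne hoi
          simp only [List.nodup_cons, List.mem_cons, not_or] at hn hol hil ⊢
          exact ⟨⟨Ne.symm hol.1, Ne.symm hil.1, hn.1.2⟩, ⟨hoi', hol.2.2⟩, hil.2.2, hn.2.2⟩
        · have h2 : List.IsChain r (a :: b :: (l ++ [a])) := by simpa using hc.2
          rw [List.isChain_cons_cons] at h2
          have h3 : List.IsChain r (i :: (l ++ [a])) := by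
            have h4 := h2.2
            cases l with
            | nil =>
              simp only [List.nil_append, List.isChain_cons_cons, List.isChain_singleton, and_true]
              exact hi3 a (List.mem_cons_self)
            | cons c l =>
              simp only [List.cons_append, List.isChain_cons_cons] at h4 ⊢
              exact ⟨hi3 c (by simp), h4.2⟩
          have : List.IsChain r (a :: o :: i :: (l ++ [a])) := by
            rw [List.isChain_cons_cons, List.isChain_cons_cons]
            exact ⟨hO o hoO a (List.mem_cons_self), hoi, h3⟩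
          simpa using this
        · intro x hx
          simp only [List.mem_cons] at hx
          rcases hx with rfl | rfl | rfl | hx
          · exact hlS _ (by simp)
          · exact hoS
          · exact hiS
          · exact hlS x (by simp [hx])

theorem three_cyc (hT : IsTournament r) {S : Finset V} (hS : Cut r S) (h3 : 3 ≤ S.card) :
    ∃ a l, Cyc r a l ∧ (∀ x ∈ a :: l, x ∈ S) ∧ l.length = 2 := by
  classical
  obtain ⟨v, hv⟩ : S.Nonempty := Finset.card_pos.1 (by omega)
  have hne1 : ({v} : Finset V) ≠ S := by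
    intro h
    rw [← h, Finset.card_singleton] at h3
    omega
  obtain ⟨u, hu, w, hw, huw⟩ := hS {v} (Finset.singleton_subset_iff.2 hv) (Finset.singleton_nonempty v)
    hne1
  rw [Finset.mem_singleton] at hu
  subst hu
  rw [Finset.mem_sdiff, Finset.mem_singleton] at hw
  let P : Finset V := S.filter (fun x => r u x)
  have huP : u ∉ P := fun h => hT.1 u (Finset.mem_filter.1 h).2
  obtain ⟨x, hx, y, hy, hxy⟩ := hS P (Finset.filter_subset _ _)
    ⟨w, Finset.mem_filter.2 ⟨hw.1, huw⟩⟩ (fun h => huP (h ▸ hv))
  rw [Finset.mem_sdiff] at hy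
  have hxS := (Finset.mem_filter.1 hx).1
  have hux := (Finset.mem_filter.1 hx).2
  have hyu : y ≠ u := by
    rintro rfl
    exact hT.asymm hxy hux
  have hyu' : r y u := hT.of_not hyu (fun h => hy.2 (Finset.mem_filter.2 ⟨hy.1, h⟩))
  refine ⟨u, [x, y], ⟨?_, ?_⟩, ?_, rfl⟩
  · have h1 := hT.ne hux
    have h2 := hT.ne hxy
    simp [h1, h2, hyu.symm]
  · simp [hux, hxy, hyu']
  · intro z hz
    simp only [List.mem_cons, List.not_mem_nil, or_false] at hz
    rcases hz with rfl | rfl | rfl
    · exact hv
    · exact hxS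
    · exact hy.1

/-- Moon: cycles of all lengths. -/
theorem exists_cyc (hT : IsTournament r) {S : Finset V} (hS : Cut r S) :
    ∀ m, 3 ≤ m → m ≤ S.card → ∃ a l, Cyc r a l ∧ (∀ x ∈ a :: l, x ∈ S) ∧ l.length + 1 = m := by
  intro m hm
  induction m, hm using Nat.le_induction with
  | base =>
    intro h
    obtain ⟨a, l, h1, h2, h3⟩ := three_cyc hT hS h
    exact ⟨a, l, h1, h2, by omega⟩
  | succ m hm ih =>
    intro h
    obtain ⟨a, l, h1, h2, h3⟩ := ih (by omega)
    obtain ⟨b, l', h4, h5, h6⟩ := ext_cyc hT hS h1 h2 (by omega) (by omega)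
    exact ⟨b, l', h4, h5, by omega⟩

omit [DecidableEq V] in
theorem chain_rch {W : Finset V} : ∀ (L : List V) (a : V), List.IsChain r (a :: L) →
    (∀ x ∈ a :: L, x ∈ W) → ∀ x ∈ a :: L, Rch r W a x := by
  intro L
  induction L with
  | nil =>
    intro a _ _ x hx
    rw [List.mem_singleton] at hx
    subst hx
    exact Rch.refl
  | cons b L ih =>
    intro a hc hW x hx
    rw [List.isChain_cons_cons] at hc
    rcases List.mem_cons.1 hx with rfl | hx
    · exact Rch.refl
    · exact (Rch.single (hW a (by simp)) (hW b (by simp)) hc.1).trans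
        (ih b hc.2 (fun y hy => hW y (List.mem_cons_of_mem _ hy)) x hx)

theorem Cyc.cut {a : V} {l : List V} (h : Cyc r a l) : Cut r (a :: l).toFinset := by
  apply StrongOn.cut
  intro u hu v hv
  rw [List.mem_toFinset] at hu hv
  obtain ⟨l', hc, hp⟩ := h.rotate hu
  apply chain_rch (l' ++ [u]) u hc.2
  · intro x hx
    rw [List.mem_toFinset, ← hp.mem_iff]
    simp only [List.mem_cons, List.mem_append, List.not_mem_nil, or_false] at hx ⊢
    tauto
  · have := hp.mem_iff.2 hv
    simp only [List.mem_cons, List.mem_append, List.not_mem_nil, or_false] at this ⊢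
    tauto

/-- A strong subtournament of given size inside a strong tournament. -/
theorem exists_sub_cut (hT : IsTournament r) {S : Finset V} (hS : Cut r S) {m : ℕ} (h3 : 3 ≤ m)
    (hm : m ≤ S.card) : ∃ K ⊆ S, K.card = m ∧ Cut r K := by
  obtain ⟨a, l, h1, h2, h4⟩ := exists_cyc hT hS m h3 hm
  refine ⟨(a :: l).toFinset, fun x hx => h2 x (List.mem_toFinset.1 hx), ?_, h1.cut⟩
  rw [List.toFinset_card_of_nodup h1.1]
  simpa using h4

/-- Camion: a Hamilton cycle. -/
theorem exists_hamilton (hT : IsTournament r) {S : Finset V} (hS : Cut r S) {m : ℕ} (h3 : 3 ≤ m)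
    (hm : S.card = m) : ∃ c : ZMod m → V, Function.Injective c ∧ (∀ x, c x ∈ S) ∧
      ∀ x, r (c x) (c (x + 1)) := by
  obtain ⟨a, l, h1, h2, h4⟩ := exists_cyc hT hS m h3 hm.ge
  haveI : NeZero m := ⟨by omega⟩
  haveI : Fact (1 < m) := ⟨by omega⟩
  have hlen : (a :: l).length = m := by simpa using h4
  have hlt : ∀ x : ZMod m, x.val < (a :: l).length := fun x => by
    rw [hlen]
    exact ZMod.val_lt x
  refine ⟨fun x => (a :: l)[x.val]'(hlt x), ?_, ?_, ?_⟩
  · intro x y hxy
    have := (List.Nodup.getElem_inj_iff h1.1).1 hxy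
    exact ZMod.val_injective m this
  · intro x
    exact h2 _ (List.getElem_mem _)
  · intro x
    have hch := List.isChain_iff_getElem.1 h1.2
    have hx := hlt x
    have h5 := hch x.val (by simp only [List.length_cons, List.length_append, List.length_nil] at hx ⊢; omega)
    have h6 : (x + 1).val = (x.val + 1) % m := by
      rw [ZMod.val_add, ZMod.val_one]
    have e1 : (a :: (l ++ [a]))[x.val]'(by simp only [List.length_cons, List.length_append, List.length_nil] at hx ⊢; omega) = (a :: l)[x.val]'(hlt x) := by
      have : a :: (l ++ [a]) = (a :: l) ++ [a] := by simp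
      simp only [this]
      rw [List.getElem_append_left hx]
    have e2 : (a :: (l ++ [a]))[x.val + 1]'(by simp only [List.length_cons, List.length_append, List.length_nil] at hx ⊢; omega) = (a :: l)[(x + 1).val]'(hlt (x + 1)) := by
      have : a :: (l ++ [a]) = (a :: l) ++ [a] := by simp
      simp only [this]
      by_cases hx1 : x.val + 1 < m
      · rw [List.getElem_append_left (by omega)]
        congr 1
        rw [h6, Nat.mod_eq_of_lt hx1]
      · have hx2 : x.val + 1 = m := by omega
        rw [List.getElem_append_right (by omega)]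
        have h7 : (x + 1).val = 0 := by rw [h6, hx2, Nat.mod_self]
        simp only [h7]
        simp
    rw [e1, e2] at h5
    exact h5

end Pool.Agent.Work.MP_1399e9_co
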