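import Mathlib

/-!
# Arithmetic used in the proof of the linear bound
-/

namespace Pool.Agent.Work.MP_1399e9_co

open Finset

theorem num_dm {t N D c : ℕ} (ht : 1 ≤ t) (h1 : 3 * t * (D - (2 * c + 1)) ≤ N)
    (h2 : 6 * t * (2 * c + 1) ≤ N) : D ≤ N / (2 * t) := by
  rw [Nat.le_div_iff_mul_le (by omega)]
  have h3 : D ≤ (D - (2 * c + 1)) + (2 * c + 1) := by omega
  have h4 : 6 * t * D ≤ 6 * t * ((D - (2 * c + 1)) + (2 * c + 1)) := Nat.mul_le_mul_left _ h3
  have h5 : 6 * t * ((D - (2 * c + 1)) + (2 * c + 1))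
      = 2 * (3 * t * (D - (2 * c + 1))) + 6 * t * (2 * c + 1) := by ring
  have h6 : 6 * t * D = 3 * (D * (2 * t)) := by ring
  omega

theorem num_pow {t m : ℕ} (hm : 1 ≤ m) : 4 * t ≤ m * 2 ^ (Nat.log 2 (t / m) + 3) := by
  have h1 : t / m < 2 ^ (Nat.log 2 (t / m) + 1) := Nat.lt_pow_succ_log_self (by norm_num) _
  have h2 : t < m * (t / m + 1) := Nat.lt_mul_div_succ t (by omega)
  have h3 : m * (t / m + 1) ≤ m * 2 ^ (Nat.log 2 (t / m) + 1) := Nat.mul_le_mul_left _ h1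
  have h4 : m * 2 ^ (Nat.log 2 (t / m) + 3) = 4 * (m * 2 ^ (Nat.log 2 (t / m) + 1)) := by
    rw [show Nat.log 2 (t / m) + 3 = (Nat.log 2 (t / m) + 1) + 2 by ring, pow_add _ _ 2]
    ring
  omega

theorem num_avg {t : ℕ} {n : ℕ → ℕ} (hmono : ∀ i j, i ≤ j → j < t → n i ≤ n j) {j : ℕ}
    (hj : j ≤ t) : t * ∑ l ∈ range j, n l ≤ j * ∑ l ∈ range t, n l := by
  rcases Nat.eq_zero_or_pos j with rfl | hj0
  · simp
  have h1 : ∑ l ∈ range j, n l ≤ j * n (j - 1) := by
    have := Finset.sum_le_card_nsmul (range j) n (n (j - 1)) (fun l hl => by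
      rw [Finset.mem_range] at hl
      exact hmono l (j - 1) (by omega) (by omega))
    simpa using this
  have h2 : (t - j) * n (j - 1) ≤ ∑ l ∈ Ico j t, n l := by
    have := Finset.card_nsmul_le_sum (Ico j t) n (n (j - 1)) (fun l hl => by
      rw [Finset.mem_Ico] at hl
      exact hmono (j - 1) l (by omega) (by omega))
    simpa using this
  have h3 : ∑ l ∈ range t, n l = ∑ l ∈ range j, n l + ∑ l ∈ Ico j t, n l := by
    rw [Finset.sum_range_add_sum_Ico _ hj]
  rw [h3]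
  obtain ⟨s, rfl⟩ : ∃ s, t = j + s := ⟨t - j, by omega⟩
  rw [Nat.add_sub_cancel_left] at h2
  generalize ∑ l ∈ range j, n l = p at *
  generalize ∑ l ∈ Ico j (j + s), n l = q at *
  calc (j + s) * p = j * p + s * p := by ring
    _ ≤ j * p + s * (j * n (j - 1)) := by gcongr
    _ = j * p + j * (s * n (j - 1)) := by ring
    _ ≤ j * p + j * q := by gcongr
    _ = j * (p + q) := by ring

theorem num_log_sum : ∀ t : ℕ, ∑ m ∈ range t, Nat.log 2 (t / (m + 1)) ≤ t := by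
  intro t
  induction t using Nat.strong_induction_on with
  | _ t ih =>
    rcases Nat.eq_zero_or_pos t with rfl | ht
    · simp
    have h1 : ∑ m ∈ range t, Nat.log 2 (t / (m + 1))
        = ∑ m ∈ range (t / 2), Nat.log 2 (t / (m + 1)) := by
      symm
      apply Finset.sum_subset
      · intro m hm
        rw [Finset.mem_range] at hm ⊢
        omega
      · intro m _ hm2
        rw [Finset.mem_range, not_lt] at hm2
        apply Nat.log_of_lt
        rw [Nat.div_lt_iff_lt_mul (by omega)]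
        omega
    have h2 : ∀ m ∈ range (t / 2), Nat.log 2 (t / (m + 1)) = Nat.log 2 (t / 2 / (m + 1)) + 1 := by
      intro m hm
      rw [Finset.mem_range] at hm
      have h3 : 2 ≤ t / (m + 1) := by
        rw [Nat.le_div_iff_mul_le (by omega)]
        omega
      rw [Nat.log_of_one_lt_of_le (by norm_num) h3, Nat.div_div_eq_div_mul, Nat.div_div_eq_div_mul,
        Nat.mul_comm]
    rw [h1, Finset.sum_congr rfl h2, Finset.sum_add_distrib]
    have h4 := ih (t / 2) (by omega)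
    simp only [Finset.sum_const, Finset.card_range, smul_eq_mul, mul_one]
    omega

/-- The connectivity needed at stage `i`. -/
def kap (t i : ℕ) : ℕ := 3 * t + ∑ l ∈ Ico i (t - 1), (2 * (Nat.log 2 (t / (t - 1 - l)) + 3) + 3)

theorem kap_ge (t i : ℕ) : 3 * t ≤ kap t i := Nat.le_add_right _ _

theorem kap_succ {t i : ℕ} (hi : i < t - 1) :
    kap t i = kap t (i + 1) + (2 * (Nat.log 2 (t / (t - 1 - i)) + 3) + 3) := by
  unfold kap
  rw [← Finset.sum_Ioo_add_eq_sum_Ico hi]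
  have : Ioo i (t - 1) = Ico (i + 1) (t - 1) := by
    ext x
    simp only [Finset.mem_Ioo, Finset.mem_Ico]
    omega
  rw [this]
  ring

theorem kap_zero {t : ℕ} (_ht : 1 ≤ t) : kap t 0 ≤ 14 * t := by
  unfold kap
  have h1 : ∑ l ∈ Ico 0 (t - 1), (2 * (Nat.log 2 (t / (t - 1 - l)) + 3) + 3)
      = ∑ m ∈ range (t - 1), (2 * (Nat.log 2 (t / (m + 1)) + 3) + 3) := by
    rw [Nat.Ico_zero_eq_range, ← Finset.sum_range_reflect]
    apply Finset.sum_congr rfl
    intro m hm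
    rw [Finset.mem_range] at hm
    have : t - 1 - (t - 1 - 1 - m) = m + 1 := by omega
    rw [this]
  have h2 : ∑ m ∈ range (t - 1), (2 * (Nat.log 2 (t / (m + 1)) + 3) + 3)
      = 2 * ∑ m ∈ range (t - 1), Nat.log 2 (t / (m + 1)) + 9 * (t - 1) := by
    rw [Finset.mul_sum]
    have : ∀ m ∈ range (t - 1), 2 * (Nat.log 2 (t / (m + 1)) + 3) + 3
        = 2 * Nat.log 2 (t / (m + 1)) + 9 := fun m _ => by ring
    rw [Finset.sum_congr rfl this, Finset.sum_add_distrib]
    simp only [Finset.sum_const, Finset.card_range, smul_eq_mul]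
    ring
  have h3 : ∑ m ∈ range (t - 1), Nat.log 2 (t / (m + 1)) ≤ ∑ m ∈ range t, Nat.log 2 (t / (m + 1)) :=
    Finset.sum_le_sum_of_subset (Finset.range_mono (by omega))
  have h4 := num_log_sum t
  omega

theorem sq_le_pow (L : ℕ) : (L + 1) ^ 2 ≤ 4 * 2 ^ L := by
  induction L with
  | zero => norm_num
  | succ L ih =>
    rcases Nat.lt_or_ge L 2 with h | h
    · interval_cases L <;> norm_num
    · have : (L + 1 + 1) ^ 2 ≤ 2 * (L + 1) ^ 2 := by nlinarith
      calc (L + 1 + 1) ^ 2 ≤ 2 * (L + 1) ^ 2 := this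
        _ ≤ 2 * (4 * 2 ^ L) := by omega
        _ = 4 * 2 ^ (L + 1) := by ring

/-- `6 t (2 (log N + 3) + 1) ≤ N` for large `N`. -/
theorem num_large (t : ℕ) : ∃ N₀, ∀ N, N₀ ≤ N → 6 * t * (2 * (Nat.log 2 N + 3) + 1) ≤ N := by
  -- `2 (L + 3) + 1 ≤ 7 (L + 1)` and `(L + 1)² ≤ 4 · 2^L ≤ 4 N`
  refine ⟨2 ^ (168 * t), fun N hN => ?_⟩
  have hN0 : N ≠ 0 := by
    have : 0 < 2 ^ (168 * t) := by positivity
    omega
  have h1 : 2 ^ Nat.log 2 N ≤ N := Nat.pow_log_le_self 2 hN0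
  have h2 : 168 * t ≤ Nat.log 2 N := (Nat.le_log_iff_pow_le (by norm_num) hN0).2 hN
  generalize Nat.log 2 N = L at *
  have h3 := sq_le_pow L
  have h4 : 6 * t * (2 * (L + 3) + 1) ≤ 42 * t * (L + 1) := by nlinarith
  have h5 : 4 * (42 * t * (L + 1)) ≤ (L + 1) ^ 2 := by nlinarith
  omega

end Pool.Agent.Work.MP_1399e9_co
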