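import Pool.Agent.Work.MP_1399e9_co.Absorb
import Pool.Agent.Work.MP_1399e9_co.Moon
import Pool.Agent.Work.MP_1399e9_co.Num
import Pool.Agent.Work.MP_1399e9_co.Fill

/-!
# The upper bound
-/

namespace Pool.Agent.Work.MP_1399e9_co

open Finset Relation

variable {V : Type} {r : V → V → Prop} [DecidableEq V] [Fintype V]

/-- The vertices that are still free at stage `i`. -/
def pool (K : ℕ → Finset V) (i : ℕ) : Finset V := univ \ (range i).biUnion K

theorem mem_pool {K : ℕ → Finset V} {i : ℕ} {v : V} : v ∈ pool K i ↔ ∀ j < i, v ∉ K j := by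
  simp [pool]

/-- The reserved sets `K j` and the exceptional sets `E j` of the first `i` stages. -/
structure State (r : V → V → Prop) (t N dm : ℕ) (n : ℕ → ℕ) (i : ℕ) (K E : ℕ → Finset V) :
    Prop where
  disj : ∀ j < i, ∀ l < i, j ≠ l → Disjoint (K j) (K l)
  card_le : ∀ j < i, (K j).card ≤ n j
  card_le' : ∀ j < i, (K j).card ≤ dm
  abs : ∀ j < i, ∀ S ⊆ pool K i, Disjoint S (E j) → S.card + (K j).card = n j → Cut r (K j ∪ S)
  dem : ∀ j < i, (E j).card + (t - 1 - j) * dm + ∑ l ∈ range (j + 1), n l ≤ N
  conn : Conn r (kap t i) (pool K i)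

theorem card_pool {K : ℕ → Finset V} {i : ℕ} (h : ∀ j < i, ∀ l < i, j ≠ l → Disjoint (K j) (K l)) :
    (pool K i).card + ∑ l ∈ range i, (K l).card = Fintype.card V := by
  unfold pool
  rw [← Finset.card_biUnion (fun j hj l hl hjl =>
    h j (Finset.mem_range.1 hj) l (Finset.mem_range.1 hl) hjl),
    Finset.card_sdiff_add_card_eq_card (Finset.subset_univ _), Finset.card_univ]

theorem State.step (hT : IsTournament r) {t dm : ℕ} {n : ℕ → ℕ} (ht : 1 ≤ t)
    (hN : ∑ l ∈ range t, n l = Fintype.card V)
    (hn : ∀ i < t, 3 ≤ n i) (hmono : ∀ i j, i ≤ j → j < t → n i ≤ n j)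
    (hdm : dm = Fintype.card V / (2 * t))
    (hlarge : 6 * t * (2 * (Nat.log 2 (Fintype.card V) + 3) + 1) ≤ Fintype.card V)
    {i : ℕ} (hi : i < t - 1) {K E : ℕ → Finset V}
    (h : State r t (Fintype.card V) dm n i K E) :
    ∃ K' E', State r t (Fintype.card V) dm n (i + 1) K' E' := by
  classical
  obtain ⟨m, hm⟩ : ∃ m, m = t - 1 - i := ⟨_, rfl⟩
  obtain ⟨c, hc⟩ : ∃ c, c = Nat.log 2 (t / m) + 3 := ⟨_, rfl⟩
  obtain ⟨N, hNdef⟩ : ∃ N, N = Fintype.card V := ⟨_, rfl⟩
  rw [← hNdef] at hN hdm hlarge h ⊢
  have hcp := card_pool h.disj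
  rw [← hNdef] at hcp
  have hkap := kap_succ hi
  rw [← hm, ← hc] at hkap
  have hkge := kap_ge t (i + 1)
  -- the pool is nonempty
  have hsumK : ∑ l ∈ range i, (K l).card ≤ ∑ l ∈ range i, n l :=
    Finset.sum_le_sum fun l hl => h.card_le l (Finset.mem_range.1 hl)
  have hsumN : ∑ l ∈ range i, n l + n i ≤ ∑ l ∈ range t, n l := by
    rw [← Finset.sum_range_succ]
    exact Finset.sum_le_sum_of_subset (Finset.range_mono (by omega))
  have hni := hn i (by omega)
  have hne : (pool K i).Nonempty := Finset.card_pos.1 (by omega)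
  obtain ⟨D, hDU, E0, hE0, hD1, hD2, hD3⟩ := absorb hT h.conn (by omega) hne c (by omega)
  have htN : t ≤ N := by
    have : 6 * t * 1 ≤ 6 * t * (2 * (Nat.log 2 N + 3) + 1) := Nat.mul_le_mul_left _ (by omega)
    omega
  have hcN : 6 * t * (2 * c + 1) ≤ N := by
    refine le_trans (Nat.mul_le_mul_left _ ?_) hlarge
    have h1 : t / m ≤ N := (Nat.div_le_self _ _).trans htN
    have h2 := Nat.log_mono_right (b := 2) h1
    omega
  have hDdm : D.card ≤ dm := by
    rw [hdm]
    refine num_dm ht ?_ hcN
    refine le_trans (Nat.mul_le_mul_right _ ?_) (hD2.trans ?_)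
    · omega
    · omega
  have hE0N : 2 ^ c * E0.card ≤ 2 * N := hE0.trans (by omega)
  -- choose the set to reserve
  obtain ⟨C, hCD, F, hCn, hF, hCF⟩ : ∃ C ⊆ D, ∃ F : Finset V, C.card ≤ n i ∧
      2 ^ c * F.card ≤ 2 * N ∧
      ∀ S ⊆ pool K i, Disjoint S F → S.card + C.card = n i → Cut r (C ∪ S) := by
    by_cases hDn : D.card ≤ n i
    · exact ⟨D, Finset.Subset.refl _, E0, hDn, hE0N, fun S hS hSE _ => hD1 S hS hSE⟩
    · have hDc : Cut r D := by
        have := hD1 ∅ (Finset.empty_subset _) (Finset.disjoint_empty_left _)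
        rwa [Finset.union_empty] at this
      obtain ⟨C, hCD, hCc, hC⟩ := exists_sub_cut hT hDc hni (by omega)
      refine ⟨C, hCD, ∅, hCc.le, by simp, ?_⟩
      intro S _ _ hS
      have : S = ∅ := Finset.card_eq_zero.1 (by omega)
      rw [this, Finset.union_empty]
      exact hC
  have hCU : C ⊆ pool K i := hCD.trans hDU
  -- the new pool
  have hpool : pool (Function.update K i C) (i + 1) = pool K i \ C := by
    ext v
    rw [mem_pool, Finset.mem_sdiff, mem_pool]
    constructor
    · intro h1
      refine ⟨fun j hj => ?_, ?_⟩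
      · have := h1 j (by omega)
        rwa [Function.update_of_ne (by omega)] at this
      · have := h1 i (by omega)
        rwa [Function.update_self] at this
    · rintro ⟨h1, h2⟩ j hj
      by_cases hji : j = i
      · subst hji
        rwa [Function.update_self]
      · rw [Function.update_of_ne hji]
        exact h1 j (by omega)
  have hKC : ∀ j < i, Disjoint (K j) C := by
    intro j hj
    rw [Finset.disjoint_left]
    intro v hv hvC
    exact mem_pool.1 (hCU hvC) j hj hv
  refine ⟨Function.update K i C, Function.update E i F, ?_, ?_, ?_, ?_, ?_, ?_⟩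
  · intro j hj l hl hjl
    by_cases hji : j = i
    · subst hji
      rw [Function.update_self, Function.update_of_ne (Ne.symm hjl)]
      exact (hKC l (by omega)).symm
    · by_cases hli : l = i
      · subst hli
        rw [Function.update_self, Function.update_of_ne hjl]
        exact hKC j (by omega)
      · rw [Function.update_of_ne hji, Function.update_of_ne hli]
        exact h.disj j (by omega) l (by omega) hjl
  · intro j hj
    by_cases hji : j = i
    · subst hji
      rwa [Function.update_self]
    · rw [Function.update_of_ne hji]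
      exact h.card_le j (by omega)
  · intro j hj
    by_cases hji : j = i
    · subst hji
      rw [Function.update_self]
      exact (Finset.card_le_card hCD).trans hDdm
    · rw [Function.update_of_ne hji]
      exact h.card_le' j (by omega)
  · intro j hj S hS hSE hSc
    rw [hpool] at hS
    have hS' : S ⊆ pool K i := hS.trans Finset.sdiff_subset
    by_cases hji : j = i
    · subst hji
      rw [Function.update_self] at hSE hSc ⊢
      exact hCF S hS' hSE hSc
    · rw [Function.update_of_ne hji] at hSE hSc ⊢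
      exact h.abs j (by omega) S hS' hSE hSc
  · intro j hj
    by_cases hji : j = i
    · subst hji
      rw [Function.update_self, ← hm]
      -- the demand of the new stage
      have h1 : 4 * t ≤ m * 2 ^ c := by
        rw [hc]
        exact num_pow (by omega)
      have h2 : 4 * t * F.card ≤ m * (2 * N) :=
        calc 4 * t * F.card ≤ m * 2 ^ c * F.card := Nat.mul_le_mul_right _ h1
          _ = m * (2 ^ c * F.card) := by ring
          _ ≤ m * (2 * N) := Nat.mul_le_mul_left _ hF
      have h3 : 2 * t * dm ≤ N := by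
        rw [hdm]
        exact Nat.mul_div_le N (2 * t)
      have h4 : t * ∑ l ∈ range (j + 1), n l ≤ (j + 1) * N := by
        rw [← hN]
        exact num_avg hmono (by omega)
      have h5 : m * (2 * t * dm) ≤ m * N := Nat.mul_le_mul_left _ h3
      have h6 : 4 * t * (F.card + m * dm + ∑ l ∈ range (j + 1), n l) ≤ 4 * t * N := by
        calc 4 * t * (F.card + m * dm + ∑ l ∈ range (j + 1), n l)
            = 4 * t * F.card + 2 * (m * (2 * t * dm)) + 4 * (t * ∑ l ∈ range (j + 1), n l) := by
              ring
          _ ≤ m * (2 * N) + 2 * (m * N) + 4 * ((j + 1) * N) := by gcongr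
          _ = 4 * (m + (j + 1)) * N := by ring
          _ = 4 * t * N := by
              have : m + (j + 1) = t := by omega
              rw [this]
      exact Nat.le_of_mul_le_mul_left h6 (by omega)
    · rw [Function.update_of_ne hji]
      exact h.dem j (by omega)
  · rw [hpool]
    exact hD3 C hCD _ (by omega)

theorem State.final (hT : IsTournament r) {t dm : ℕ} {n : ℕ → ℕ} (ht : 1 ≤ t)
    (hN : ∑ l ∈ range t, n l = Fintype.card V)
    (hn : ∀ i < t, 3 ≤ n i)
    (hdm : dm = Fintype.card V / (2 * t))
    (hlarge : 6 * t * (2 * (Nat.log 2 (Fintype.card V) + 3) + 1) ≤ Fintype.card V)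
    {K E : ℕ → Finset V} (h : State r t (Fintype.card V) dm n (t - 1) K E) :
    ∃ P : ℕ → Finset V, (∀ j < t, (P j).card = n j ∧ Cut r (P j)) ∧
      ∀ i < t, ∀ j < t, i ≠ j → Disjoint (P i) (P j) := by
  classical
  obtain ⟨N, hNdef⟩ : ∃ N, N = Fintype.card V := ⟨_, rfl⟩
  rw [← hNdef] at hN hdm hlarge h
  have hcp := card_pool h.disj
  rw [← hNdef] at hcp
  obtain ⟨U, hU⟩ : ∃ U, U = pool K (t - 1) := ⟨_, rfl⟩
  rw [← hU] at hcp
  have hconn := h.conn
  rw [← hU] at hconn
  have hsumK : ∑ l ∈ range (t - 1), (K l).card ≤ ∑ l ∈ range (t - 1), n l :=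
    Finset.sum_le_sum fun l hl => h.card_le l (Finset.mem_range.1 hl)
  have hsumN : ∑ l ∈ range (t - 1), n l + n (t - 1) = ∑ l ∈ range t, n l := by
    rw [← Finset.sum_range_succ, Nat.sub_add_cancel ht]
  have hnt := hn (t - 1) (by omega)
  have hne : U.Nonempty := Finset.card_pos.1 (by omega)
  have hkge := kap_ge t (t - 1)
  obtain ⟨c, hc⟩ : ∃ c, c = Nat.log 2 N + 2 := ⟨_, rfl⟩
  obtain ⟨D, hDU, E0, hE0, hD1, hD2, _⟩ := absorb hT hconn (by omega) hne c (by omega)
  have hE : E0 = ∅ := by
    rw [← Finset.card_eq_zero]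
    by_contra h0
    have h1 : 2 ^ c ≤ 2 ^ c * E0.card := Nat.le_mul_of_pos_right _ (Nat.pos_of_ne_zero h0)
    have h2 : N < 2 ^ (Nat.log 2 N + 1) := Nat.lt_pow_succ_log_self (by norm_num) _
    have h3 : 2 ^ c = 2 * 2 ^ (Nat.log 2 N + 1) := by
      rw [hc, show Nat.log 2 N + 2 = (Nat.log 2 N + 1) + 1 by ring, pow_succ]
      ring
    omega
  have hcN : 6 * t * (2 * c + 1) ≤ N :=
    le_trans (Nat.mul_le_mul_left _ (by omega)) hlarge
  have hDdm : D.card ≤ dm := by
    rw [hdm]
    refine num_dm ht ?_ hcN
    refine le_trans (Nat.mul_le_mul_right _ ?_) (hD2.trans ?_)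
    · omega
    · omega
  have hWcard : (U \ D).card + D.card = U.card := Finset.card_sdiff_add_card_eq_card hDU
  -- fill
  have hfill : ∀ j < t - 1, ∑ l ∈ range (j + 1), (n l - (K l).card) + (E j).card
      ≤ (U \ D).card := by
    intro j hj
    have h1 := h.dem j hj
    have h2 : ∑ l ∈ range (t - 1), (K l).card = ∑ l ∈ range (j + 1), (K l).card
        + ∑ l ∈ Ico (j + 1) (t - 1), (K l).card := by
      rw [Finset.sum_range_add_sum_Ico _ (by omega)]
    have h3 : ∑ l ∈ Ico (j + 1) (t - 1), (K l).card ≤ (t - 1 - (j + 1)) * dm := by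
      have := Finset.sum_le_card_nsmul (Ico (j + 1) (t - 1)) (fun l => (K l).card) dm
        (fun l hl => h.card_le' l (Finset.mem_Ico.1 hl).2)
      simpa using this
    have h4 : ∑ l ∈ range (j + 1), (n l - (K l).card) + ∑ l ∈ range (j + 1), (K l).card
        = ∑ l ∈ range (j + 1), n l := by
      rw [← Finset.sum_add_distrib]
      apply Finset.sum_congr rfl
      intro l hl
      have := h.card_le l (by
        rw [Finset.mem_range] at hl
        omega)
      omega
    have h5 : (t - 1 - j) * dm = (t - 1 - (j + 1)) * dm + dm := by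
      rw [show t - 1 - j = (t - 1 - (j + 1)) + 1 by omega, Nat.add_mul, Nat.one_mul]
    omega
  obtain ⟨R, hR1, hR2⟩ := fill (U \ D) (fun l => n l - (K l).card) E (t - 1) hfill
  have hRU : ∀ j < t - 1, R j ⊆ U := fun j hj => (hR1 j hj).1.trans Finset.sdiff_subset
  have hKR : ∀ i < t - 1, ∀ j < t - 1, Disjoint (K i) (R j) := by
    intro i hi j hj
    rw [Finset.disjoint_left]
    intro v hv hvR
    have := hRU j hj hvR
    rw [hU, mem_pool] at this
    exact this i hi hv
  refine ⟨fun j => if j < t - 1 then K j ∪ R j else U \ (range (t - 1)).biUnion R, ?_, ?_⟩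
  · intro j hj
    by_cases hjt : j < t - 1
    · simp only [if_pos hjt]
      have h1 := h.card_le j hjt
      have h2 := (hR1 j hjt).2.1
      constructor
      · rw [Finset.card_union_of_disjoint (hKR j hjt j hjt), h2]
        omega
      · apply h.abs j hjt
        · rw [← hU]
          exact hRU j hjt
        · exact (hR1 j hjt).2.2
        · rw [h2]
          omega
    · have hjt' : j = t - 1 := by omega
      simp only [if_neg hjt]
      subst hjt'
      constructor
      · have h1 : (range (t - 1)).biUnion R ⊆ U := by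
          intro v hv
          obtain ⟨l, hl, hv⟩ := Finset.mem_biUnion.1 hv
          exact hRU l (Finset.mem_range.1 hl) hv
        have h2 := Finset.card_sdiff_add_card_eq_card h1
        have h3 : ((range (t - 1)).biUnion R).card = ∑ l ∈ range (t - 1), (n l - (K l).card) := by
          rw [Finset.card_biUnion (fun j hj l hl hjl =>
            hR2 j (Finset.mem_range.1 hj) l (Finset.mem_range.1 hl) hjl)]
          apply Finset.sum_congr rfl
          intro l hl
          exact (hR1 l (Finset.mem_range.1 hl)).2.1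
        have h4 : ∑ l ∈ range (t - 1), (n l - (K l).card) + ∑ l ∈ range (t - 1), (K l).card
            = ∑ l ∈ range (t - 1), n l := by
          rw [← Finset.sum_add_distrib]
          apply Finset.sum_congr rfl
          intro l hl
          have := h.card_le l (Finset.mem_range.1 hl)
          omega
        omega
      · have h1 : U \ (range (t - 1)).biUnion R = D ∪ ((U \ D) \ (range (t - 1)).biUnion R) := by
          ext v
          simp only [Finset.mem_sdiff, Finset.mem_union]
          constructor
          · rintro ⟨h2, h3⟩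
            by_cases h4 : v ∈ D
            · exact Or.inl h4
            · exact Or.inr ⟨⟨h2, h4⟩, h3⟩
          · rintro (h2 | ⟨⟨h2, _⟩, h3⟩)
            · refine ⟨hDU h2, fun h3 => ?_⟩
              obtain ⟨l, hl, h4⟩ := Finset.mem_biUnion.1 h3
              have h5 := (hR1 l (Finset.mem_range.1 hl)).1 h4
              exact (Finset.mem_sdiff.1 h5).2 h2
            · exact ⟨h2, h3⟩
        rw [h1]
        apply hD1
        · exact Finset.sdiff_subset.trans Finset.sdiff_subset
        · rw [hE]
          exact Finset.disjoint_empty_right _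
  · -- disjointness
    have hlast : ∀ j < t - 1, Disjoint (K j ∪ R j) (U \ (range (t - 1)).biUnion R) := by
      intro j hj
      rw [Finset.disjoint_left]
      intro v hv hv2
      rw [Finset.mem_sdiff] at hv2
      rcases Finset.mem_union.1 hv with hv | hv
      · have := hv2.1
        rw [hU, mem_pool] at this
        exact this j hj hv
      · exact hv2.2 (Finset.mem_biUnion.2 ⟨j, Finset.mem_range.2 hj, hv⟩)
    intro i hi j hj hij
    by_cases hit : i < t - 1
    · by_cases hjt : j < t - 1
      · simp only [if_pos hit, if_pos hjt]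
        rw [Finset.disjoint_union_left, Finset.disjoint_union_right, Finset.disjoint_union_right]
        exact ⟨⟨h.disj i hit j hjt hij, hKR i hit j hjt⟩, (hKR j hjt i hit).symm,
          hR2 i hit j hjt hij⟩
      · simp only [if_pos hit, if_neg hjt]
        exact hlast i hit
    · have hjt : j < t - 1 := by omega
      simp only [if_neg hit, if_pos hjt]
      exact (hlast j hjt).symm

/-- The decomposition for sorted sizes. -/
theorem sorted_parts (hT : IsTournament r) {t : ℕ} {n : ℕ → ℕ} (ht : 1 ≤ t)
    (hN : ∑ l ∈ range t, n l = Fintype.card V)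
    (hn : ∀ i < t, 3 ≤ n i) (hmono : ∀ i j, i ≤ j → j < t → n i ≤ n j)
    (hlarge : 6 * t * (2 * (Nat.log 2 (Fintype.card V) + 3) + 1) ≤ Fintype.card V)
    (hconn : Conn r (14 * t) (univ : Finset V)) :
    ∃ P : ℕ → Finset V, (∀ j < t, (P j).card = n j ∧ Cut r (P j)) ∧
      ∀ i < t, ∀ j < t, i ≠ j → Disjoint (P i) (P j) := by
  have h : ∀ i, i ≤ t - 1 →
      ∃ K E, State r t (Fintype.card V) (Fintype.card V / (2 * t)) n i K E := by
    intro i
    induction i with
    | zero =>
      intro _
      refine ⟨fun _ => ∅, fun _ => ∅, ⟨?_, ?_, ?_, ?_, ?_, ?_⟩⟩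
      · intro j hj
        exact absurd hj (Nat.not_lt_zero j)
      · intro j hj
        exact absurd hj (Nat.not_lt_zero j)
      · intro j hj
        exact absurd hj (Nat.not_lt_zero j)
      · intro j hj
        exact absurd hj (Nat.not_lt_zero j)
      · intro j hj
        exact absurd hj (Nat.not_lt_zero j)
      · have : pool (fun _ => (∅ : Finset V)) 0 = univ := by
          ext v
          simp [pool]
        rw [this]
        exact hconn.mono (kap_zero ht)
    | succ i ih =>
      intro hi
      obtain ⟨K, E, h⟩ := ih (by omega)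
      exact h.step hT ht hN hn hmono rfl hlarge (by omega)
  obtain ⟨K, E, h⟩ := h (t - 1) le_rfl
  exact h.final hT ht hN hn rfl hlarge

/-- The upper bound. -/
theorem partitionable_of_conn {t : ℕ} (ht : 1 ≤ t) (hT : IsTournament r)
    (hlarge : 6 * t * (2 * (Nat.log 2 (Fintype.card V) + 3) + 1) ≤ Fintype.card V)
    (hk : KConnected r (14 * t)) : Partitionable r t := by
  intro n hn hN
  have hconn : Conn r (14 * t) (univ : Finset V) := fun X hX => (hk.2 X hX).cut
  let σ := Tuple.sort n
  have hσ : Monotone (n ∘ σ) := Tuple.monotone_sort n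
  let n' : ℕ → ℕ := fun i => if h : i < t then n (σ ⟨i, h⟩) else 0
  have hn' : ∀ i (h : i < t), n' i = n (σ ⟨i, h⟩) := fun i h => dif_pos h
  have hsum : ∑ l ∈ range t, n' l = Fintype.card V := by
    rw [← hN, ← Equiv.sum_comp σ n, Finset.sum_range]
    apply Finset.sum_congr rfl
    intro i _
    rw [hn' i.1 i.2]
  obtain ⟨P, hP1, hP2⟩ := sorted_parts hT ht hsum
    (fun i hi => by
      rw [hn' i hi]
      exact hn _)
    (fun i j hij hj => by
      rw [hn' i (by omega), hn' j hj]
      exact hσ (show (⟨i, by omega⟩ : Fin t) ≤ ⟨j, hj⟩ from hij))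
    hlarge hconn
  have hex : ∀ i : Fin t, ∃ c : ZMod (n i) → V, Function.Injective c ∧
      (∀ x, c x ∈ P (σ.symm i).1) ∧ ∀ x, r (c x) (c (x + 1)) := by
    intro i
    have h1 := hP1 (σ.symm i).1 (σ.symm i).2
    rw [hn' _ (σ.symm i).2] at h1
    have h2 : n (σ ⟨(σ.symm i).1, (σ.symm i).2⟩) = n i := by simp
    rw [h2] at h1
    exact exists_hamilton hT h1.2 (hn i) h1.1
  choose c hc1 hc2 hc3 using hex
  refine ⟨c, hc1, ?_, hc3⟩
  intro i j hij x y hxy
  have h1 : (σ.symm i).1 ≠ (σ.symm j).1 := by
    intro h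
    exact hij (σ.symm.injective (Fin.ext h))
  exact (Finset.disjoint_left.1 (hP2 _ (σ.symm i).2 _ (σ.symm j).2 h1)) (hc2 i x)
    (hxy ▸ hc2 j y)

end Pool.Agent.Work.MP_1399e9_co
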