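import Pool.Agent.Work.MP_1399e9_co.Grow

/-!
# Tournaments with a separation whose order is the connectivity of large sets
-/

namespace Pool.Agent.Work.MP_1399e9_co

open Finset Relation

variable {V : Type} {r : V → V → Prop} [DecidableEq V]

/-- Disjoint strong parts of prescribed sizes. -/
def HasParts (r : V → V → Prop) (t : ℕ) (n : ℕ → ℕ) (U : Finset V) : Prop :=
  ∃ P : ℕ → Finset V, (∀ j < t, P j ⊆ U ∧ (P j).card = n j ∧ Cut r (P j)) ∧
    ∀ i < t, ∀ j < t, i ≠ j → Disjoint (P i) (P j)

omit [DecidableEq V] in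
theorem Rch.flip {W : Finset V} {u v : V} (h : Rch (fun a b => r b a) W u v) : Rch r W v u := by
  induction h with
  | refl => exact Rch.refl
  | tail _ h1 ih => exact (Rch.single h1.2.1 h1.1 h1.2.2).trans ih

/-- The start of the growing process. -/
theorem LSys.init {U L X R : Finset V} {k m : ℕ} (h : IsSep r U L X R) (hsc : SC r k m U)
    (hX : X.card = k) (hL : m + k ≤ L.card) (hR : m ≤ R.card) :
    ∃ G, LSys r L X G ∧ ∀ x ∈ X, (G x).card = 2 := by
  obtain ⟨f, hf1, hf2⟩ := exists_matching h hsc hX hL hR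
  have hLX := h.1
  have hne : ∀ x ∈ X, x ≠ f x := by
    intro x hx hxf
    exact (Finset.disjoint_left.1 hLX) (hf1 x hx).1 (hxf ▸ hx)
  refine ⟨fun x => {x, f x}, ⟨?_, ?_, ?_⟩, ?_⟩
  · intro x hx
    refine ⟨by simp, ?_⟩
    intro v hv
    rcases Finset.mem_insert.1 hv with rfl | hv
    · exact Rch.refl
    · rw [Finset.mem_singleton] at hv
      subst hv
      exact Rch.single (by simp) (by simp) (hf1 x hx).2
  · intro x hx v hv
    rcases Finset.mem_insert.1 hv with rfl | hv
    · exact Finset.mem_insert_self _ _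
    · rw [Finset.mem_singleton] at hv
      subst hv
      exact Finset.mem_insert_of_mem (hf1 x hx).1
  · intro x hx y hy hxy
    rw [Finset.disjoint_left]
    intro v hv hv2
    simp only [Finset.mem_insert, Finset.mem_singleton] at hv hv2
    rcases hv with rfl | rfl
    · rcases hv2 with h1 | h1
      · exact hxy h1
      · exact (Finset.disjoint_left.1 hLX) (hf1 y hy).1 (h1 ▸ hx)
    · rcases hv2 with h1 | h1
      · exact (Finset.disjoint_left.1 hLX) (hf1 x hx).1 (h1 ▸ hy)
      · exact hxy (hf2 x hx y hy h1)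
  · intro x hx
    exact Finset.card_pair (hne x hx)

/-- Phase 1. -/
theorem phase_one {U L X R : Finset V} {k m : ℕ} (h : IsSep r U L X R) (hsc : SC r k m U)
    (hX : X.card = k) (hL : m + k ≤ L.card) (hR : m + k ≤ R.card) (τ : V → ℕ)
    (hτ : ∀ x ∈ X, 3 ≤ τ x) (hsum : ∑ x ∈ X, τ x + 2 * m ≤ U.card + 2) :
    ∃ G H, LSys r L X G ∧ LSys (fun a b => r b a) R X H ∧
      (∀ x ∈ X, 2 ≤ (G x).card ∧ 2 ≤ (H x).card ∧ (G x).card + (H x).card = τ x + 1) := by
  obtain ⟨G0, hG0, hG0c⟩ := LSys.init h hsc hX hL (by omega)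
  obtain ⟨H0, hH0, hH0c⟩ := LSys.init h.flip hsc.flip hX hR (by omega)
  have hUc : L.card + X.card + R.card = U.card := by
    rw [← h.2.2.2.1, Finset.card_union_of_disjoint, Finset.card_union_of_disjoint h.1]
    rw [Finset.disjoint_union_left]
    exact ⟨h.2.1, h.2.2.1⟩
  have key : ∀ n, ∀ G H, LSys r L X G → LSys (fun a b => r b a) R X H →
      (∀ x ∈ X, 2 ≤ (G x).card ∧ 2 ≤ (H x).card ∧ (G x).card + (H x).card ≤ τ x + 1) →
      ∑ x ∈ X, (τ x + 1) = n + ∑ x ∈ X, ((G x).card + (H x).card) →
      ∃ G H, LSys r L X G ∧ LSys (fun a b => r b a) R X H ∧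
      (∀ x ∈ X, 2 ≤ (G x).card ∧ 2 ≤ (H x).card ∧ (G x).card + (H x).card = τ x + 1) := by
    intro n
    induction n with
    | zero =>
      intro G H hG hH hGH hs
      refine ⟨G, H, hG, hH, ?_⟩
      have h1 := (Finset.sum_eq_sum_iff_of_le (fun x hx => (hGH x hx).2.2)).1
        (by rw [hs, Nat.zero_add])
      exact fun x hx => ⟨(hGH x hx).1, (hGH x hx).2.1, h1 x hx⟩
    | succ n ih =>
      intro G H hG hH hGH hs
      obtain ⟨x₀, hx₀, hlt⟩ : ∃ x ∈ X, (G x).card + (H x).card < τ x + 1 := by
        by_contra hcon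
        push Not at hcon
        have := Finset.sum_le_sum hcon
        omega
      have e1 := hG.card_eq h.1
      have e2 := hH.card_eq h.2.2.1.symm
      have e3 : ∑ x ∈ X, (τ x + 1) = ∑ x ∈ X, τ x + X.card := by
        rw [Finset.sum_add_distrib]
        simp
      have e4 : ∑ x ∈ X, ((G x).card + (H x).card) = ∑ x ∈ X, (G x).card + ∑ x ∈ X, (H x).card :=
        Finset.sum_add_distrib
      by_cases hcase : m ≤ (L \ X.biUnion G).card
      · obtain ⟨G', hG', h1, h2⟩ := hG.grow h hsc hX (by omega) hx₀ hcase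
        apply ih G' H hG' hH
        · intro x hx
          by_cases hxx : x = x₀
          · subst hxx
            have := hGH x hx
            omega
          · rw [h2 x hx hxx]
            exact hGH x hx
        · have e5 : ∑ x ∈ X, (G' x).card = ∑ x ∈ X, (G x).card + 1 := by
            rw [← Finset.add_sum_erase X _ hx₀, ← Finset.add_sum_erase X _ hx₀, h1,
              Finset.sum_congr rfl (fun x hx => h2 x (Finset.mem_erase.1 hx).2
                (Finset.mem_erase.1 hx).1)]
            omega
          rw [Finset.sum_add_distrib (f := fun x => (G' x).card), e5]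
          omega
      · have hcase' : m ≤ (R \ X.biUnion H).card := by omega
        obtain ⟨H', hH', h1, h2⟩ := hH.grow h.flip hsc.flip hX (by omega) hx₀ hcase'
        apply ih G H' hG hH'
        · intro x hx
          by_cases hxx : x = x₀
          · subst hxx
            have := hGH x hx
            omega
          · rw [h2 x hx hxx]
            exact hGH x hx
        · have e5 : ∑ x ∈ X, (H' x).card = ∑ x ∈ X, (H x).card + 1 := by
            rw [← Finset.add_sum_erase X _ hx₀, ← Finset.add_sum_erase X _ hx₀, h1,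
              Finset.sum_congr rfl (fun x hx => h2 x (Finset.mem_erase.1 hx).2
                (Finset.mem_erase.1 hx).1)]
            omega
          rw [Finset.sum_add_distrib (g := fun x => (H' x).card), e5]
          omega
  have hle : ∑ x ∈ X, ((G0 x).card + (H0 x).card) ≤ ∑ x ∈ X, (τ x + 1) := by
    apply Finset.sum_le_sum
    intro x hx
    rw [hG0c x hx, hH0c x hx]
    have := hτ x hx
    omega
  apply key _ G0 H0 hG0 hH0 _ (Nat.sub_add_cancel hle).symm
  intro x hx
  rw [hG0c x hx, hH0c x hx]
  have := hτ x hx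
  omega

/-- The last part of one side at the start of phase 2. -/
theorem LSys.toSys2 {L X Z : Finset V} {G : V → Finset V} (hG : LSys r L X G) (hZ : Z ⊆ X) :
    LSys2 r L X Z G ((X \ Z).biUnion G) := by
  constructor
  · exact fun x hx => hG.root x (hZ hx)
  · exact fun x hx => hG.sub x (hZ hx)
  · exact fun x hx y hy hxy => hG.disj x (hZ hx) y (hZ hy) hxy
  · intro x hx
    rw [Finset.disjoint_biUnion_right]
    intro y hy
    rw [Finset.mem_sdiff] at hy
    refine hG.disj x (hZ hx) y hy.1 ?_
    rintro rfl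
    exact hy.2 hx
  · intro v hv
    obtain ⟨x, hx, hv⟩ := Finset.mem_biUnion.1 hv
    rcases Finset.mem_insert.1 (hG.sub x (Finset.mem_sdiff.1 hx).1 hv) with rfl | h
    · exact Finset.mem_union_right _ hx
    · exact Finset.mem_union_left _ h
  · intro x hx
    exact Finset.mem_biUnion.2 ⟨x, hx, (hG.root x (Finset.mem_sdiff.1 hx).1).1⟩
  · intro v hv
    obtain ⟨x, hx, hv⟩ := Finset.mem_biUnion.1 hv
    exact ⟨x, hx, ((hG.root x (Finset.mem_sdiff.1 hx).1).2 v hv).mono
      (Finset.subset_biUnion_of_mem G hx)⟩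

/-- A vertex of a strand other than its root. -/
theorem exists_ne_root {L : Finset V} {x : V} {G : Finset V} (hsub : G ⊆ insert x L)
    (hc : 2 ≤ G.card) : ∃ v ∈ G, v ∈ L := by
  obtain ⟨v, hv, hvx⟩ := Finset.exists_mem_ne (by omega : 1 < G.card) x
  rcases Finset.mem_insert.1 (hsub hv) with h | h
  · exact absurd h hvx
  · exact ⟨v, hv, h⟩

/-- The plateau theorem. -/
theorem plateau (hT : IsTournament r) {U L X R : Finset V} {k m t : ℕ} {n : ℕ → ℕ} (ht : 1 ≤ t)
    (htk : t ≤ k) (hsep : IsSep r U L X R) (hX : X.card = k) (hsc : SC r k m U)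
    (hsct : SC r t 1 U) (hL : m + k ≤ L.card) (hR : m + k ≤ R.card) (hn : ∀ i < t, 3 ≤ n i)
    (hsum : ∑ i ∈ range t, n i = U.card) (hlast : 3 * k + 2 * m ≤ n (t - 1)) :
    HasParts r t n U := by
  classical
  obtain ⟨hLX, hLR, hXR, hU, hnoarc⟩ := id hsep
  -- enumeration of `X`
  let e := Finset.equivFinOfCardEq hX
  obtain ⟨x₀, hx₀⟩ : X.Nonempty := Finset.card_pos.1 (by omega)
  let z : ℕ → V := fun j => if h : j < k then (e.symm ⟨j, h⟩ : V) else x₀
  have hzX : ∀ j, z j ∈ X := by
    intro j
    by_cases h : j < k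
    · simp only [z, dif_pos h]
      exact (e.symm ⟨j, h⟩).2
    · simp only [z, dif_neg h]
      exact hx₀
  have hzinj : ∀ i < k, ∀ j < k, z i = z j → i = j := by
    intro i hi j hj hij
    simp only [z, dif_pos hi, dif_pos hj] at hij
    have := e.symm.injective (Subtype.ext hij)
    exact congrArg Fin.val this
  let Z : Finset V := (range (t - 1)).image z
  have hZX : Z ⊆ X := by
    intro v hv
    obtain ⟨j, _, rfl⟩ := Finset.mem_image.1 hv
    exact hzX j
  have hzZ : ∀ j < t - 1, z j ∈ Z := fun j hj => Finset.mem_image_of_mem _ (Finset.mem_range.2 hj)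
  have hZc : Z.card = t - 1 := by
    have : Z.card = (range (t - 1)).card := by
      apply Finset.card_image_of_injOn
      intro i hi j hj hij
      rw [Finset.coe_range, Set.mem_Iio] at hi hj
      exact hzinj i (by omega) j (by omega) hij
    rw [this, Finset.card_range]
  have hYne : (X \ Z).Nonempty := by
    rw [← Finset.card_pos]
    have := Finset.le_card_sdiff Z X
    omega
  -- targets
  let τ : V → ℕ := fun x => 3 + ∑ j ∈ range (t - 1), if z j = x then n j - 3 else 0
  have hτz : ∀ j < t - 1, τ (z j) = n j := by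
    intro j hj
    have h1 : ∑ i ∈ range (t - 1), (if z i = z j then n i - 3 else 0) = n j - 3 := by
      rw [Finset.sum_eq_single j]
      · simp
      · intro i hi hij
        rw [Finset.mem_range] at hi
        rw [if_neg]
        intro h
        exact hij (hzinj i (by omega) j (by omega) h)
      · intro h
        exact absurd (Finset.mem_range.2 hj) h
    have h2 := hn j (by omega)
    simp only [τ, h1]
    omega
  have hτsum : ∑ x ∈ X, τ x = 3 * k + ∑ j ∈ range (t - 1), (n j - 3) := by
    simp only [τ]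
    rw [Finset.sum_add_distrib, Finset.sum_comm, Finset.sum_const, hX, smul_eq_mul, Nat.mul_comm]
    congr 1
    apply Finset.sum_congr rfl
    intro j _
    rw [Finset.sum_ite_eq]
    rw [if_pos (hzX j)]
  have hsum3 : ∑ j ∈ range (t - 1), (n j - 3) ≤ ∑ j ∈ range (t - 1), n j :=
    Finset.sum_le_sum fun j _ => Nat.sub_le _ _
  have hsumt : ∑ j ∈ range (t - 1), n j + n (t - 1) = U.card := by
    rw [← hsum, ← Finset.sum_range_succ, Nat.sub_add_cancel ht]
  obtain ⟨G, H, hG, hH, hGH⟩ := phase_one hsep hsc hX hL hR τ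
    (fun x _ => Nat.le_add_right _ _) (by omega)
  -- phase 2
  have hRne : R.Nonempty := Finset.card_pos.1 (by omega)
  have hLne : L.Nonempty := Finset.card_pos.1 (by omega)
  obtain ⟨G', G0, hG', hGc, hG0, hGU⟩ := LSys2.absorb hsep hsct hZX (by omega) hRne _ _ _
    (hG.toSys2 hZX) rfl
  obtain ⟨H', H0, hH', hHc, hH0, hHU⟩ := LSys2.absorb hsep.flip hsct.flip hZX (by omega) hLne _ _ _
    (hH.toSys2 hZX) rfl
  have hLU : L ⊆ U := by
    rw [← hU]
    exact Finset.subset_union_left.trans Finset.subset_union_left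
  have hXU : X ⊆ U := by
    rw [← hU]
    exact Finset.subset_union_right.trans Finset.subset_union_left
  have hRU : R ⊆ U := by
    rw [← hU]
    exact Finset.subset_union_right
  have hG'mem : ∀ z ∈ Z, ∀ v ∈ G' z, v = z ∨ v ∈ L := fun z hz v hv =>
    Finset.mem_insert.1 (hG'.sub z hz hv)
  have hH'mem : ∀ z ∈ Z, ∀ v ∈ H' z, v = z ∨ v ∈ R := fun z hz v hv =>
    Finset.mem_insert.1 (hH'.sub z hz hv)
  have hG0mem : ∀ v ∈ G0, v ∈ L ∨ v ∈ X \ Z := fun v hv => Finset.mem_union.1 (hG'.sub0 hv)
  have hH0mem : ∀ v ∈ H0, v ∈ R ∨ v ∈ X \ Z := fun v hv => Finset.mem_union.1 (hH'.sub0 hv)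
  have dLX := Finset.disjoint_left.1 hLX
  have dLR := Finset.disjoint_left.1 hLR
  have dXR := Finset.disjoint_left.1 hXR
  have hGH' : ∀ x ∈ Z, ∀ y ∈ Z, x ≠ y → Disjoint (G' x) (H' y) := by
    intro x hx y hy hxy
    rw [Finset.disjoint_left]
    intro v hv hv2
    rcases hG'mem x hx v hv with rfl | h1
    · rcases hH'mem y hy v hv2 with h2 | h2
      · exact hxy h2
      · exact dXR (hZX hx) h2
    · rcases hH'mem y hy v hv2 with h2 | h2
      · exact dLX h1 (h2 ▸ hZX hy)
      · exact dLR h1 h2
  have hint : ∀ x ∈ Z, G' x ∩ H' x = {x} := by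
    intro x hx
    ext v
    rw [Finset.mem_inter, Finset.mem_singleton]
    constructor
    · rintro ⟨h1, h2⟩
      rcases hG'mem x hx v h1 with h3 | h3
      · exact h3
      · rcases hH'mem x hx v h2 with h4 | h4
        · exact h4
        · exact absurd h4 (dLR h3)
    · rintro rfl
      exact ⟨(hG'.root v hx).1, (hH'.root v hx).1⟩
  -- the parts
  let P : ℕ → Finset V := fun j => if j < t - 1 then G' (z j) ∪ H' (z j) else G0 ∪ H0
  have hP1 : ∀ j, j < t - 1 → P j = G' (z j) ∪ H' (z j) := fun j hj => if_pos hj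
  have hP2 : P (t - 1) = G0 ∪ H0 := if_neg (lt_irrefl _)
  have hPc : ∀ j < t - 1, (P j).card = n j := by
    intro j hj
    have hz := hzZ j hj
    have h1 := Finset.card_union_add_card_inter (G' (z j)) (H' (z j))
    rw [hint _ hz, Finset.card_singleton, hGc _ hz, hHc _ hz, (hGH _ (hzX j)).2.2, hτz j hj] at h1
    rw [hP1 j hj]
    omega
  have hPd1 : ∀ i < t - 1, ∀ j < t - 1, i ≠ j → Disjoint (P i) (P j) := by
    intro i hi j hj hij
    have hz : z i ≠ z j := fun h => hij (hzinj i (by omega) j (by omega) h)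
    rw [hP1 i hi, hP1 j hj, Finset.disjoint_union_left, Finset.disjoint_union_right,
      Finset.disjoint_union_right]
    exact ⟨⟨hG'.disj _ (hzZ i hi) _ (hzZ j hj) hz, hGH' _ (hzZ i hi) _ (hzZ j hj) hz⟩,
      (hGH' _ (hzZ j hj) _ (hzZ i hi) (Ne.symm hz)).symm,
      hH'.disj _ (hzZ i hi) _ (hzZ j hj) hz⟩
  have hPd2 : ∀ j < t - 1, Disjoint (P j) (P (t - 1)) := by
    intro j hj
    have hz := hzZ j hj
    rw [hP1 j hj, hP2, Finset.disjoint_union_left, Finset.disjoint_union_right,
      Finset.disjoint_union_right]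
    refine ⟨⟨hG'.disj0 _ hz, ?_⟩, ?_, hH'.disj0 _ hz⟩
    · rw [Finset.disjoint_left]
      intro v hv hv2
      rcases hG'mem _ hz v hv with rfl | h1
      · rcases hH0mem _ hv2 with h2 | h2
        · exact dXR (hZX hz) h2
        · exact (Finset.mem_sdiff.1 h2).2 hz
      · rcases hH0mem _ hv2 with h2 | h2
        · exact dLR h1 h2
        · exact dLX h1 (Finset.mem_sdiff.1 h2).1
    · rw [Finset.disjoint_left]
      intro v hv hv2
      rcases hH'mem _ hz v hv with rfl | h1
      · rcases hG0mem _ hv2 with h2 | h2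
        · exact dLX h2 (hZX hz)
        · exact (Finset.mem_sdiff.1 h2).2 hz
      · rcases hG0mem _ hv2 with h2 | h2
        · exact dLR h2 h1
        · exact dXR (Finset.mem_sdiff.1 h2).1 h1
  have hPU : ∀ j < t, P j ⊆ U := by
    intro j hj
    by_cases h : j < t - 1
    · rw [hP1 j h]
      intro v hv
      have hz := hzZ j h
      rcases Finset.mem_union.1 hv with hv | hv
      · rcases hG'mem _ hz v hv with rfl | h1
        · exact hXU (hZX hz)
        · exact hLU h1
      · rcases hH'mem _ hz v hv with rfl | h1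
        · exact hXU (hZX hz)
        · exact hRU h1
    · obtain rfl : j = t - 1 := by omega
      rw [hP2]
      intro v hv
      rcases Finset.mem_union.1 hv with hv | hv
      · rcases hG0mem _ hv with h1 | h1
        · exact hLU h1
        · exact hXU (Finset.mem_sdiff.1 h1).1
      · rcases hH0mem _ hv with h1 | h1
        · exact hRU h1
        · exact hXU (Finset.mem_sdiff.1 h1).1
  have hcover : U ⊆ (range (t - 1)).biUnion P ∪ P (t - 1) := by
    intro v hv
    have h1 : v ∈ L ∪ X ∨ v ∈ R ∪ X := by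
      rw [← hU] at hv
      simp only [Finset.mem_union] at hv ⊢
      tauto
    rcases h1 with h1 | h1
    · rw [hGU] at h1
      rcases Finset.mem_union.1 h1 with h2 | h2
      · rw [hP2]
        exact Finset.mem_union_right _ (Finset.mem_union_left _ h2)
      · obtain ⟨w, hw, hvw⟩ := Finset.mem_biUnion.1 h2
        obtain ⟨j, hj, rfl⟩ := Finset.mem_image.1 hw
        refine Finset.mem_union_left _ (Finset.mem_biUnion.2 ⟨j, hj, ?_⟩)
        rw [hP1 j (Finset.mem_range.1 hj)]
        exact Finset.mem_union_left _ hvw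
    · rw [hHU] at h1
      rcases Finset.mem_union.1 h1 with h2 | h2
      · rw [hP2]
        exact Finset.mem_union_right _ (Finset.mem_union_right _ h2)
      · obtain ⟨w, hw, hvw⟩ := Finset.mem_biUnion.1 h2
        obtain ⟨j, hj, rfl⟩ := Finset.mem_image.1 hw
        refine Finset.mem_union_left _ (Finset.mem_biUnion.2 ⟨j, hj, ?_⟩)
        rw [hP1 j (Finset.mem_range.1 hj)]
        exact Finset.mem_union_right _ hvw
  have hPlast : (P (t - 1)).card = n (t - 1) := by
    have h1 : U = (range (t - 1)).biUnion P ∪ P (t - 1) := by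
      apply Finset.Subset.antisymm hcover
      intro v hv
      rcases Finset.mem_union.1 hv with hv | hv
      · obtain ⟨j, hj, hv⟩ := Finset.mem_biUnion.1 hv
        rw [Finset.mem_range] at hj
        exact hPU j (by omega) hv
      · exact hPU (t - 1) (by omega) hv
    have h2 : U.card = ((range (t - 1)).biUnion P).card + (P (t - 1)).card := by
      conv_lhs => rw [h1]
      apply Finset.card_union_of_disjoint
      rw [Finset.disjoint_biUnion_left]
      intro j hj
      exact hPd2 j (Finset.mem_range.1 hj)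
    have h3 : ((range (t - 1)).biUnion P).card = ∑ j ∈ range (t - 1), n j := by
      rw [Finset.card_biUnion (fun i hi j hj hij =>
        hPd1 i (Finset.mem_range.1 hi) j (Finset.mem_range.1 hj) hij)]
      exact Finset.sum_congr rfl fun j hj => hPc j (Finset.mem_range.1 hj)
    omega
  refine ⟨P, ?_, ?_⟩
  · intro j hj
    refine ⟨hPU j hj, ?_, ?_⟩
    · by_cases h : j < t - 1
      · exact hPc j h
      · obtain rfl : j = t - 1 := by omega
        exact hPlast
    · apply StrongOn.cut
      by_cases h : j < t - 1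
      · rw [hP1 j h]
        have hz := hzZ j h
        have hGW : G' (z j) ⊆ G' (z j) ∪ H' (z j) := Finset.subset_union_left
        have hHW : H' (z j) ⊆ G' (z j) ∪ H' (z j) := Finset.subset_union_right
        have r1 : ∀ v ∈ G' (z j), Rch r (G' (z j) ∪ H' (z j)) (z j) v := fun v hv =>
          ((hG'.root _ hz).2 v hv).mono hGW
        have r2 : ∀ v ∈ H' (z j), Rch r (G' (z j) ∪ H' (z j)) v (z j) := fun v hv =>
          ((hH'.root _ hz).2 v hv).flip.mono hHW
        obtain ⟨a, haG, haL⟩ := exists_ne_root (hG'.sub _ hz)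
          (by rw [hGc _ hz]; exact (hGH _ (hzX j)).1)
        obtain ⟨b, hbH, hbR⟩ := exists_ne_root (hH'.sub _ hz)
          (by rw [hHc _ hz]; exact (hGH _ (hzX j)).2.1)
        apply StrongOn.of_hub (z j)
        · intro v hv
          rcases Finset.mem_union.1 hv with hv | hv
          · exact r1 v hv
          · rcases hH'mem _ hz v hv with rfl | h1
            · exact Rch.refl
            · exact (r1 a haG).trans (Rch.single (hGW haG) (hHW hv) (hsep.arc hT haL h1))
        · intro v hv
          rcases Finset.mem_union.1 hv with hv | hv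
          · rcases hG'mem _ hz v hv with rfl | h1
            · exact Rch.refl
            · exact (Rch.single (hGW hv) (hHW hbH) (hsep.arc hT h1 hbR)).trans (r2 b hbH)
          · exact r2 v hv
      · obtain rfl : j = t - 1 := by omega
        rw [hP2]
        have hGW : G0 ⊆ G0 ∪ H0 := Finset.subset_union_left
        have hHW : H0 ⊆ G0 ∪ H0 := Finset.subset_union_right
        have ha : ∀ y ∈ X \ Z, ∃ a ∈ G0, a ∈ L ∧ Rch r (G0 ∪ H0) y a := by
          intro y hy
          have hyX := (Finset.mem_sdiff.1 hy).1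
          obtain ⟨a, haG, haL⟩ := exists_ne_root (hG.sub y hyX) (hGH y hyX).1
          have h1 : G y ⊆ G0 := (Finset.subset_biUnion_of_mem G hy).trans hG0
          exact ⟨a, h1 haG, haL, ((hG.root y hyX).2 a haG).mono (h1.trans hGW)⟩
        have hb : ∀ y ∈ X \ Z, ∃ b ∈ H0, b ∈ R ∧ Rch r (G0 ∪ H0) b y := by
          intro y hy
          have hyX := (Finset.mem_sdiff.1 hy).1
          obtain ⟨b, hbH, hbR⟩ := exists_ne_root (hH.sub y hyX) (hGH y hyX).2.1
          have h1 : H y ⊆ H0 := (Finset.subset_biUnion_of_mem H hy).trans hH0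
          exact ⟨b, h1 hbH, hbR, ((hH.root y hyX).2 b hbH).flip.mono (h1.trans hHW)⟩
        have hyy : ∀ y ∈ X \ Z, ∀ y' ∈ X \ Z, Rch r (G0 ∪ H0) y y' := by
          intro y hy y' hy'
          obtain ⟨a, ha1, ha2, ha3⟩ := ha y hy
          obtain ⟨b, hb1, hb2, hb3⟩ := hb y' hy'
          exact ha3.trans ((Rch.single (hGW ha1) (hHW hb1) (hsep.arc hT ha2 hb2)).trans hb3)
        obtain ⟨y₀, hy₀⟩ := hYne
        apply StrongOn.of_hub y₀
        · intro v hv
          rcases Finset.mem_union.1 hv with hv | hv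
          · obtain ⟨y, hy, h1⟩ := hG'.root0 v hv
            exact (hyy y₀ hy₀ y hy).trans (h1.mono hGW)
          · rcases hH0mem v hv with h1 | h1
            · obtain ⟨a, ha1, ha2, ha3⟩ := ha y₀ hy₀
              exact ha3.trans (Rch.single (hGW ha1) (hHW hv) (hsep.arc hT ha2 h1))
            · exact hyy y₀ hy₀ v h1
        · intro v hv
          rcases Finset.mem_union.1 hv with hv | hv
          · rcases hG0mem v hv with h1 | h1
            · obtain ⟨b, hb1, hb2, hb3⟩ := hb y₀ hy₀
              exact (Rch.single (hGW hv) (hHW hb1) (hsep.arc hT h1 hb2)).trans hb3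
            · exact hyy v h1 y₀ hy₀
          · obtain ⟨y, hy, h1⟩ := hH'.root0 v hv
            exact (h1.flip.mono hHW).trans (hyy y hy y₀ hy₀)
  · intro i hi j hj hij
    by_cases h1 : i < t - 1
    · by_cases h2 : j < t - 1
      · exact hPd1 i h1 j h2 hij
      · obtain rfl : j = t - 1 := by omega
        exact hPd2 i h1
    · obtain rfl : i = t - 1 := by omega
      exact (hPd2 j (by omega)).symm

end Pool.Agent.Work.MP_1399e9_co
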