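import Pool.Agent.Work.MP_1399e9_co.GL

/-!
# Separations and matchings into their sides
-/

namespace Pool.Agent.Work.MP_1399e9_co

open Finset Relation

variable {V : Type} {r : V → V → Prop} [DecidableEq V]

/-- `(L, X, R)` is a separation of `U`: there is no arc from `R` to `L`. -/
def IsSep (r : V → V → Prop) (U L X R : Finset V) : Prop :=
  Disjoint L X ∧ Disjoint L R ∧ Disjoint X R ∧ L ∪ X ∪ R = U ∧ ∀ a ∈ R, ∀ b ∈ L, ¬ r a b

/-- Every separation both of whose sides have at least `m` vertices has order at least `k`. -/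
def SC (r : V → V → Prop) (k m : ℕ) (U : Finset V) : Prop :=
  ∀ L X R, IsSep r U L X R → m ≤ L.card → m ≤ R.card → k ≤ X.card

theorem IsSep.flip {U L X R : Finset V} (h : IsSep r U L X R) :
    IsSep (fun a b => r b a) U R X L :=
  ⟨h.2.2.1.symm, h.2.1.symm, h.1.symm, by
    rw [← h.2.2.2.1]
    ext v
    simp only [Finset.mem_union]
    tauto, fun a ha b hb => h.2.2.2.2 b hb a ha⟩

theorem SC.flip {k m : ℕ} {U : Finset V} (h : SC r k m U) : SC (fun a b => r b a) k m U :=
  fun L X R hs hL hR => h R X L hs.flip hR hL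

theorem SC.mono {k k' m m' : ℕ} (hk : k' ≤ k) (hm : m ≤ m') {U : Finset V} (h : SC r k m U) :
    SC r k' m' U := fun L X R hs hL hR => hk.trans (h L X R hs (hm.trans hL) (hm.trans hR))

theorem IsSep.arc {U L X R : Finset V} (hT : IsTournament r) (h : IsSep r U L X R) {a b : V}
    (ha : a ∈ L) (hb : b ∈ R) : r a b :=
  hT.of_not (fun hab => (Finset.disjoint_left.1 h.2.1) ha (hab ▸ hb)) (h.2.2.2.2 b hb a ha)

/-- The in-neighbourhood of `Q` in `Ω`. -/
noncomputable def nb (r : V → V → Prop) (Ω Q : Finset V) : Finset V := by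
  classical
  exact (Ω \ Q).filter (fun v => ∃ q ∈ Q, r v q)

theorem mem_nb {Ω Q : Finset V} {v : V} : v ∈ nb r Ω Q ↔ v ∈ Ω ∧ v ∉ Q ∧ ∃ q ∈ Q, r v q := by
  unfold nb
  simp only [Finset.mem_filter, Finset.mem_sdiff]
  tauto

/-- For `Q ⊆ L` the in-neighbourhood is inside `L ∪ X`. -/
theorem IsSep.isSep_nb {U L X R Q : Finset V} (h : IsSep r U L X R) (hQ : Q ⊆ L) :
    IsSep r U Q (nb r (L ∪ X) Q) (U \ (Q ∪ nb r (L ∪ X) Q)) ∧
      R ⊆ U \ (Q ∪ nb r (L ∪ X) Q) := by
  obtain ⟨h1, h2, h3, h4, h5⟩ := h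
  have hsub : Q ∪ nb r (L ∪ X) Q ⊆ L ∪ X := by
    intro v hv
    rcases Finset.mem_union.1 hv with hv | hv
    · exact Finset.mem_union_left _ (hQ hv)
    · exact (mem_nb.1 hv).1
  have hLX : L ∪ X ⊆ U := by
    rw [← h4]
    exact Finset.subset_union_left
  refine ⟨⟨?_, ?_, ?_, ?_, ?_⟩, ?_⟩
  · rw [Finset.disjoint_left]
    intro v hv hv2
    exact (mem_nb.1 hv2).2.1 hv
  · rw [Finset.disjoint_left]
    intro v hv hv2
    exact (Finset.mem_sdiff.1 hv2).2 (Finset.mem_union_left _ hv)
  · rw [Finset.disjoint_left]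
    intro v hv hv2
    exact (Finset.mem_sdiff.1 hv2).2 (Finset.mem_union_right _ hv)
  · exact Finset.union_sdiff_of_subset (hsub.trans hLX)
  · intro a ha b hb hab
    obtain ⟨haU, ha2⟩ := Finset.mem_sdiff.1 ha
    rw [Finset.mem_union, not_or] at ha2
    rw [← h4, Finset.mem_union] at haU
    rcases haU with haU | haR
    · exact ha2.2 (mem_nb.2 ⟨haU, ha2.1, b, hb, hab⟩)
    · exact h5 a haR b (hQ hb) hab
  · intro v hv
    refine Finset.mem_sdiff.2 ⟨?_, fun hv2 => ?_⟩
    · rw [← h4]
      exact Finset.mem_union_right _ hv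
    · rcases Finset.mem_union.1 (hsub hv2) with h | h
      · exact (Finset.disjoint_left.1 h2) h hv
      · exact (Finset.disjoint_left.1 h3) h hv

theorem IsSep.card_nb {U L X R Q : Finset V} {k m : ℕ} (h : IsSep r U L X R) (hsc : SC r k m U)
    (hQ : Q ⊆ L) (hQm : m ≤ Q.card) (hR : m ≤ R.card) : k ≤ (nb r (L ∪ X) Q).card := by
  obtain ⟨h1, h2⟩ := h.isSep_nb hQ
  exact hsc _ _ _ h1 hQm (hR.trans (Finset.card_le_card h2))

open Classical in
/-- A matching of `X` into `L` (Hall's theorem). -/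
theorem exists_matching {U L X R : Finset V} {k m : ℕ} (h : IsSep r U L X R) (hsc : SC r k m U)
    (hX : X.card = k) (hL : m + k ≤ L.card) (hR : m ≤ R.card) :
    ∃ f : V → V, (∀ x ∈ X, f x ∈ L ∧ r x (f x)) ∧ ∀ x ∈ X, ∀ y ∈ X, f x = f y → x = y := by
  obtain ⟨h1, h2, h3, h4, h5⟩ := h
  have hall : ∀ s : Finset {x // x ∈ X},
      s.card ≤ (s.biUnion (fun x => L.filter (fun v => r x.1 v))).card := by
    intro s
    by_contra hlt
    push Not at hlt
    let N : Finset V := s.biUnion (fun x => L.filter (fun v => r x.1 v))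
    let X' : Finset V := s.map (Function.Embedding.subtype _)
    have hX'c : X'.card = s.card := Finset.card_map _
    have hX'X : X' ⊆ X := by
      intro v hv
      obtain ⟨x, _, rfl⟩ := Finset.mem_map.1 hv
      exact x.2
    have hNL : N ⊆ L := by
      intro v hv
      obtain ⟨x, _, hv⟩ := Finset.mem_biUnion.1 hv
      exact (Finset.mem_filter.1 hv).1
    have hsc' := hsc (L \ N) ((X \ X') ∪ N) (R ∪ X') ⟨?_, ?_, ?_, ?_, ?_⟩ ?_ ?_
    · have e1 := Finset.card_union_le (X \ X') N
      have e2 := Finset.card_sdiff_add_card_eq_card hX'X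
      have e3 : N.card < s.card := hlt
      omega
    · rw [Finset.disjoint_left]
      intro v hv hv2
      obtain ⟨hv3, hv4⟩ := Finset.mem_sdiff.1 hv
      rcases Finset.mem_union.1 hv2 with h | h
      · exact (Finset.disjoint_left.1 h1) hv3 (Finset.mem_sdiff.1 h).1
      · exact hv4 h
    · rw [Finset.disjoint_left]
      intro v hv hv2
      obtain ⟨hv3, hv4⟩ := Finset.mem_sdiff.1 hv
      rcases Finset.mem_union.1 hv2 with h | h
      · exact (Finset.disjoint_left.1 h2) hv3 h
      · exact (Finset.disjoint_left.1 h1) hv3 (hX'X h)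
    · rw [Finset.disjoint_left]
      intro v hv hv2
      rcases Finset.mem_union.1 hv with h | h
      · obtain ⟨h6, h7⟩ := Finset.mem_sdiff.1 h
        rcases Finset.mem_union.1 hv2 with h8 | h8
        · exact (Finset.disjoint_left.1 h3) h6 h8
        · exact h7 h8
      · rcases Finset.mem_union.1 hv2 with h8 | h8
        · exact (Finset.disjoint_left.1 h2) (hNL h) h8
        · exact (Finset.disjoint_left.1 h1) (hNL h) (hX'X h8)
    · rw [← h4]
      ext v
      have e1 : v ∈ N → v ∈ L := fun h => hNL h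
      have e2 : v ∈ X' → v ∈ X := fun h => hX'X h
      simp only [Finset.mem_union, Finset.mem_sdiff]
      tauto
    · intro a ha b hb hab
      obtain ⟨hbL, hbN⟩ := Finset.mem_sdiff.1 hb
      rcases Finset.mem_union.1 ha with h | h
      · exact h5 a h b hbL hab
      · obtain ⟨x, hx, rfl⟩ := Finset.mem_map.1 h
        exact hbN (Finset.mem_biUnion.2 ⟨x, hx, Finset.mem_filter.2 ⟨hbL, hab⟩⟩)
    · have e1 := Finset.le_card_sdiff N L
      have e2 : s.card ≤ X.card := by
        rw [← hX'c]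
        exact Finset.card_le_card hX'X
      have e3 : N.card < s.card := hlt
      omega
    · exact hR.trans (Finset.card_le_card Finset.subset_union_left)
  obtain ⟨f, hf1, hf2⟩ := (Finset.all_card_le_biUnion_card_iff_exists_injective _).1 hall
  refine ⟨fun x => if h : x ∈ X then f ⟨x, h⟩ else x, ?_, ?_⟩
  · intro x hx
    simp only [dif_pos hx]
    exact Finset.mem_filter.1 (hf2 ⟨x, hx⟩)
  · intro x hx y hy hxy
    simp only [dif_pos hx, dif_pos hy] at hxy
    exact congrArg Subtype.val (hf1 hxy)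

end Pool.Agent.Work.MP_1399e9_co
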