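import Pool.Agent.Work.MP_1399e9_co.Swap
import Pool.Agent.Work.MP_1399e9_co.Plateau
import Pool.Agent.Work.MP_1399e9_co.Num
import Pool.Agent.Work.MP_1399e9_co.Fill

/-!
# The case of large parts
-/

namespace Pool.Agent.Work.MP_1399e9_co

open Finset Relation

variable {V : Type} {r : V → V → Prop} [DecidableEq V]

/-- The order of the large separations at stage `i`. -/
def kp (t i : ℕ) : ℕ := 8 * t + (t - 1 - i) * (2 * (t + 3) + 5)

theorem kp_succ {t i : ℕ} (hi : i < t - 1) : kp t i = kp t (i + 1) + (2 * (t + 3) + 5) := by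
  unfold kp
  obtain ⟨x, hx⟩ : ∃ x, t - 1 - i = x + 1 := ⟨t - 1 - (i + 1), by omega⟩
  have hx2 : t - 1 - (i + 1) = x := by omega
  rw [hx, hx2]
  ring

theorem kp_ge (t i : ℕ) : 8 * t ≤ kp t i := Nat.le_add_right _ _

open Classical in
/-- The state after `i` stages: reserved sets `K j`, the current strong set `T` and the set `W` of
discarded vertices. -/
structure St (r : V → V → Prop) (t m w dm : ℕ) (n : ℕ → ℕ) (U : Finset V) (i : ℕ)
    (K E : ℕ → Finset V) (ab : ℕ → Prop) (T W : Finset V) : Prop where
  subK : ∀ j < i, K j ⊆ U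
  subT : T ⊆ U
  subW : W ⊆ U
  cover : ∀ v ∈ U, (∃ j < i, v ∈ K j) ∨ v ∈ T ∨ v ∈ W
  disj : ∀ j < i, ∀ l < i, j ≠ l → Disjoint (K j) (K l)
  disjT : ∀ j < i, Disjoint (K j) T
  disjW : ∀ j < i, Disjoint (K j) W
  disjTW : Disjoint T W
  card_ab : ∀ j < i, ab j → (K j).card + 3 * w ≤ n j
  card_eq : ∀ j < i, ¬ ab j → (K j).card = n j
  card_dm : ∀ j < i, (K j).card ≤ dm
  cutK : ∀ j < i, Cut r (K j) ∧ (K j).Nonempty
  att : ∀ j < i, ab j → ∀ v ∈ T, v ∉ E j → Att r (K j) v
  dem : ∀ j < i, (E j).card + (t - 1 - j) * dm + ∑ l ∈ range (j + 1), n l + w ≤ U.card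
  path1 : ∀ j < i, ¬ ab j → ∀ v ∈ U \ (range (j + 1)).biUnion K, (∃ y ∈ K j, r y v) →
    w < ((U \ (range (j + 1)).biUnion K).filter (fun u => r u v)).card
  path2 : ∀ j < i, ¬ ab j → ∀ v ∈ U \ (range (j + 1)).biUnion K, (∃ y ∈ K j, r v y) →
    w < ((U \ (range (j + 1)).biUnion K).filter (fun u => r v u)).card
  cardW : W.card ≤ 2 * m * i
  domW : ∀ v ∈ W, (∀ u ∈ T, r v u) ∨ ∀ u ∈ T, r u v
  conn : SC r (kp t i) m T
  cutT : Cut r T

theorem St.card_add {t m w dm : ℕ} {n : ℕ → ℕ} {U : Finset V} {i : ℕ}
    {K E : ℕ → Finset V} {ab : ℕ → Prop} {T W : Finset V} (h : St r t m w dm n U i K E ab T W) :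
    ∑ l ∈ range i, (K l).card + T.card + W.card = U.card := by
  have h1 : U = (range i).biUnion K ∪ T ∪ W := by
    apply Finset.Subset.antisymm
    · intro v hv
      rw [Finset.mem_union, Finset.mem_union]
      rcases h.cover v hv with ⟨j, hj, hvj⟩ | h1 | h1
      · exact Or.inl (Or.inl (Finset.mem_biUnion.2 ⟨j, Finset.mem_range.2 hj, hvj⟩))
      · exact Or.inl (Or.inr h1)
      · exact Or.inr h1
    · apply Finset.union_subset (Finset.union_subset _ h.subT) h.subW
      intro v hv
      obtain ⟨j, hj, hvj⟩ := Finset.mem_biUnion.1 hv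
      exact h.subK j (Finset.mem_range.1 hj) hvj
  have h2 : Disjoint ((range i).biUnion K) T := by
    rw [Finset.disjoint_biUnion_left]
    intro j hj
    exact h.disjT j (Finset.mem_range.1 hj)
  have h3 : Disjoint ((range i).biUnion K) W := by
    rw [Finset.disjoint_biUnion_left]
    intro j hj
    exact h.disjW j (Finset.mem_range.1 hj)
  have h4 : ((range i).biUnion K).card = ∑ l ∈ range i, (K l).card :=
    Finset.card_biUnion (fun j hj l hl hjl =>
      h.disj j (Finset.mem_range.1 hj) l (Finset.mem_range.1 hl) hjl)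
  conv_rhs => rw [h1]
  rw [Finset.card_union_of_disjoint (by
    rw [Finset.disjoint_union_left]
    exact ⟨h3, h.disjTW⟩), Finset.card_union_of_disjoint h2, h4]

open Classical in
theorem St.step (hT : IsTournament r) {t m w dm : ℕ} {n : ℕ → ℕ} {U : Finset V} (ht : 1 ≤ t)
    (hm : 1 ≤ m) (hw : w = 2 * m * t) (hdm : dm = U.card / (4 * t))
    (hN : ∑ l ∈ range t, n l = U.card) (hmono : ∀ i j, i ≤ j → j < t → n i ≤ n j)
    (hn : ∀ i < t, 10 * w + 4 * (t + 3) + 16 ≤ n i) (hl1 : 4 * t * w ≤ U.card)
    (hl2 : 8 * t * (2 * m + 2 * (t + 3) + 1 + 3 * w) ≤ U.card)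
    {i : ℕ} (hi : i < t - 1) {K E : ℕ → Finset V} {ab : ℕ → Prop} {T W : Finset V}
    (h : St r t m w dm n U i K E ab T W) :
    ∃ K' E' ab' T' W', St r t m w dm n U (i + 1) K' E' ab' T' W' := by
  obtain ⟨N, hNdef⟩ : ∃ N, N = U.card := ⟨_, rfl⟩
  obtain ⟨c, hc⟩ : ∃ c, c = t + 3 := ⟨_, rfl⟩
  have hadd := h.card_add
  have hkap := kp_succ hi
  have hkge := kp_ge t (i + 1)
  have hkge0 := kp_ge t i
  rw [← hc] at hkap hn hl2
  rw [← hNdef] at hdm hN hl1 hl2 hadd
  have hWw : W.card + 2 * m ≤ w := by
    have h1 := h.cardW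
    have h2 : 2 * m * i + 2 * m * 1 ≤ 2 * m * t := by
      rw [← Nat.mul_add]
      exact Nat.mul_le_mul_left _ (by omega)
    omega
  have hsumK : ∑ l ∈ range i, (K l).card ≤ i * dm := by
    have := Finset.sum_le_card_nsmul (range i) (fun l => (K l).card) dm
      (fun l hl => h.card_dm l (Finset.mem_range.1 hl))
    simpa using this
  have h4dm : 4 * (t * dm) ≤ N := by
    have := Nat.mul_div_le N (4 * t)
    rw [← hdm] at this
    calc 4 * (t * dm) = 4 * t * dm := by ring
      _ ≤ N := this
  have hidm : i * dm + dm ≤ t * dm := by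
    have : (i + 1) * dm ≤ t * dm := Nat.mul_le_mul_right _ (by omega)
    calc i * dm + dm = (i + 1) * dm := by ring
      _ ≤ _ := this
  have h8t : 8 * (2 * m + 2 * c + 1 + 3 * w) ≤ N := by
    refine le_trans ?_ hl2
    have : 8 * 1 * (2 * m + 2 * c + 1 + 3 * w) ≤ 8 * t * (2 * m + 2 * c + 1 + 3 * w) :=
      Nat.mul_le_mul_right _ (by omega)
    omega
  have hTne : T.Nonempty := Finset.card_pos.1 (by omega)
  obtain ⟨D, hDT, E0, d, p, l, hE0, hDcut, hDne, hDatt, hDc, hshort, hd, hp, hpr, hDsc⟩ :=
    absorb2 hT h.cutT h.conn hTne c (by omega)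
  -- `D` is small
  have hl : l + 1 - 2 * m ≤ N / (8 * t) := by
    rw [Nat.le_div_iff_mul_le (by omega)]
    calc (l + 1 - 2 * m) * (8 * t) ≤ (l + 1 - 2 * m) * kp t i := Nat.mul_le_mul_left _ hkge0
      _ = kp t i * (l + 1 - 2 * m) := Nat.mul_comm _ _
      _ ≤ T.card := hshort
      _ ≤ N := by omega
  have h8 : 2 * m + 2 * c + 1 + 3 * w ≤ N / (8 * t) := by
    rw [Nat.le_div_iff_mul_le (by omega), Nat.mul_comm]
    exact hl2
  have h84 : 2 * (N / (8 * t)) ≤ dm := by
    rw [hdm, Nat.le_div_iff_mul_le (by omega)]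
    calc 2 * (N / (8 * t)) * (4 * t) = 8 * t * (N / (8 * t)) := by ring
      _ ≤ N := Nat.mul_div_le _ _
  -- choose the set to reserve
  obtain ⟨C, A, F, hCT, hCab, hCeq, hCdm, hCcut, hCne, hCatt, hF, hCsc, hp1, hp2⟩ :
      ∃ (C : Finset V) (A : Prop) (F : Finset V), C ⊆ T ∧ (A → C.card + 3 * w ≤ n i) ∧
      (¬ A → C.card = n i) ∧ C.card ≤ dm ∧ Cut r C ∧ C.Nonempty ∧
      (A → ∀ v ∈ T, v ∉ C → v ∉ F → Att r C v) ∧ 2 ^ c * F.card ≤ 2 * N ∧
      SC r (kp t (i + 1)) m (T \ C) ∧
      (¬ A → ∀ v ∈ T \ C, (∃ y ∈ C, r y v) → w < ((T \ C).filter (fun u => r u v)).card) ∧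
      (¬ A → ∀ v ∈ T \ C, (∃ y ∈ C, r v y) → w < ((T \ C).filter (fun u => r v u)).card) := by
    by_cases hcase : D.card + 3 * w ≤ n i
    · refine ⟨D, True, E0, hDT, fun _ => hcase, fun h => absurd trivial h, by omega, hDcut, hDne,
        ?_, hE0.trans (by omega), hDsc _ (by omega), fun h => absurd trivial h,
        fun h => absurd trivial h⟩
      intro _ v hv hvD hvE
      exact (hDatt v hv hvE).resolve_left hvD
    · have hni := hn i (by omega)
      obtain ⟨C, hCT, hCc, hCcut, hCsc, hC1, hC2⟩ := window hT h.conn hd hp hpr (w := w) (n := n i)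
        (by omega) (by omega) (by omega) (by omega) (by omega)
      refine ⟨C, False, ∅, hCT, fun h => h.elim, fun _ => hCc, by omega, hCcut,
        Finset.card_pos.1 (by omega), fun h => h.elim, by simp, hCsc _ (by omega), fun _ => hC1,
        fun _ => hC2⟩
  -- the new strong set
  have hTC : (T \ C).card + C.card = T.card := Finset.card_sdiff_add_card_eq_card hCT
  obtain ⟨G, hGT, hGcut, hGsc, hGc, hGdom⟩ := giant hT (by omega) hm hCsc (by omega)
  have hCK : ∀ j < i, Disjoint (K j) C := fun j hj =>
    Finset.disjoint_of_subset_right hCT (h.disjT j hj)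
  have hGT' : G ⊆ T := hGT.trans Finset.sdiff_subset
  have hbi : ∀ j < i, (range (j + 1)).biUnion (Function.update K i C)
      = (range (j + 1)).biUnion K := by
    intro j hj
    apply Finset.biUnion_congr rfl
    intro x hx
    rw [Finset.mem_range] at hx
    rw [Function.update_of_ne (by omega)]
  have hbii : ∀ v, v ∈ (range (i + 1)).biUnion (Function.update K i C) ↔
      (∃ j < i, v ∈ K j) ∨ v ∈ C := by
    intro v
    rw [Finset.mem_biUnion]
    constructor
    · rintro ⟨j, hj, hv⟩
      rw [Finset.mem_range] at hj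
      by_cases hji : j = i
      · subst hji
        rw [Function.update_self] at hv
        exact Or.inr hv
      · rw [Function.update_of_ne hji] at hv
        exact Or.inl ⟨j, by omega, hv⟩
    · rintro (⟨j, hj, hv⟩ | hv)
      · refine ⟨j, Finset.mem_range.2 (by omega), ?_⟩
        rw [Function.update_of_ne (by omega)]
        exact hv
      · refine ⟨i, Finset.mem_range.2 (by omega), ?_⟩
        rw [Function.update_self]
        exact hv
  have hsubTC : T \ C ⊆ U \ (range (i + 1)).biUnion (Function.update K i C) := by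
    intro v hv
    obtain ⟨h1, h2⟩ := Finset.mem_sdiff.1 hv
    refine Finset.mem_sdiff.2 ⟨h.subT h1, fun h3 => ?_⟩
    rcases (hbii v).1 h3 with ⟨j, hj, hvj⟩ | h3
    · exact (Finset.disjoint_left.1 (h.disjT j hj)) hvj h1
    · exact h2 h3
  have hcovTC : ∀ v ∈ U \ (range (i + 1)).biUnion (Function.update K i C), v ∈ T \ C ∨ v ∈ W := by
    intro v hv
    obtain ⟨h1, h2⟩ := Finset.mem_sdiff.1 hv
    rw [hbii, not_or] at h2
    rcases h.cover v h1 with h3 | h3 | h3
    · exact absurd h3 h2.1
    · exact Or.inl (Finset.mem_sdiff.2 ⟨h3, h2.2⟩)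
    · exact Or.inr h3
  have hTCw : w < (T \ C).card := by omega
  refine ⟨Function.update K i C, Function.update E i F, Function.update ab i A, G,
    W ∪ ((T \ C) \ G), ?_⟩
  constructor
  · intro j hj
    by_cases hji : j = i
    · subst hji
      rw [Function.update_self]
      exact hCT.trans h.subT
    · rw [Function.update_of_ne hji]
      exact h.subK j (by omega)
  · exact hGT'.trans h.subT
  · exact Finset.union_subset h.subW (Finset.sdiff_subset.trans (Finset.sdiff_subset.trans h.subT))
  · intro v hv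
    by_cases hvb : v ∈ (range (i + 1)).biUnion (Function.update K i C)
    · left
      obtain ⟨j, hj, hvj⟩ := Finset.mem_biUnion.1 hvb
      exact ⟨j, Finset.mem_range.1 hj, hvj⟩
    · right
      rcases hcovTC v (Finset.mem_sdiff.2 ⟨hv, hvb⟩) with h1 | h1
      · by_cases hvG : v ∈ G
        · exact Or.inl hvG
        · exact Or.inr (Finset.mem_union_right _ (Finset.mem_sdiff.2 ⟨h1, hvG⟩))
      · exact Or.inr (Finset.mem_union_left _ h1)
  · intro j hj l' hl' hjl
    by_cases hji : j = i
    · subst hji
      rw [Function.update_self, Function.update_of_ne (Ne.symm hjl)]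
      exact (hCK l' (by omega)).symm
    · by_cases hli : l' = i
      · subst hli
        rw [Function.update_self, Function.update_of_ne hjl]
        exact hCK j (by omega)
      · rw [Function.update_of_ne hji, Function.update_of_ne hli]
        exact h.disj j (by omega) l' (by omega) hjl
  · intro j hj
    by_cases hji : j = i
    · subst hji
      rw [Function.update_self, Finset.disjoint_left]
      intro v hv hvG
      exact (Finset.mem_sdiff.1 (hGT hvG)).2 hv
    · rw [Function.update_of_ne hji]
      exact Finset.disjoint_of_subset_right hGT' (h.disjT j (by omega))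
  · intro j hj
    rw [Finset.disjoint_union_right]
    by_cases hji : j = i
    · subst hji
      rw [Function.update_self]
      constructor
      · exact Finset.disjoint_of_subset_left hCT h.disjTW
      · rw [Finset.disjoint_left]
        intro v hv hvG
        exact (Finset.mem_sdiff.1 (Finset.mem_sdiff.1 hvG).1).2 hv
    · rw [Function.update_of_ne hji]
      refine ⟨h.disjW j (by omega), ?_⟩
      exact Finset.disjoint_of_subset_right (Finset.sdiff_subset.trans Finset.sdiff_subset)
        (h.disjT j (by omega))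
  · rw [Finset.disjoint_union_right]
    exact ⟨Finset.disjoint_of_subset_left hGT' h.disjTW, Finset.disjoint_sdiff⟩
  · intro j hj
    by_cases hji : j = i
    · subst hji
      rw [Function.update_self, Function.update_self]
      exact hCab
    · rw [Function.update_of_ne hji, Function.update_of_ne hji]
      exact h.card_ab j (by omega)
  · intro j hj
    by_cases hji : j = i
    · subst hji
      rw [Function.update_self, Function.update_self]
      exact hCeq
    · rw [Function.update_of_ne hji, Function.update_of_ne hji]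
      exact h.card_eq j (by omega)
  · intro j hj
    by_cases hji : j = i
    · subst hji
      rw [Function.update_self]
      exact hCdm
    · rw [Function.update_of_ne hji]
      exact h.card_dm j (by omega)
  · intro j hj
    by_cases hji : j = i
    · subst hji
      rw [Function.update_self]
      exact ⟨hCcut, hCne⟩
    · rw [Function.update_of_ne hji]
      exact h.cutK j (by omega)
  · intro j hj
    by_cases hji : j = i
    · subst hji
      rw [Function.update_self, Function.update_self, Function.update_self]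
      intro hA v hv hvF
      have h1 := Finset.mem_sdiff.1 (hGT hv)
      exact hCatt hA v h1.1 h1.2 hvF
    · rw [Function.update_of_ne hji, Function.update_of_ne hji, Function.update_of_ne hji]
      intro hA v hv hvF
      exact h.att j (by omega) hA v (hGT' hv) hvF
  · intro j hj
    by_cases hji : j = i
    · subst hji
      rw [Function.update_self, ← hNdef]
      obtain ⟨m', hm'⟩ : ∃ m', m' = t - 1 - j := ⟨_, rfl⟩
      rw [← hm']
      have e1 : 8 * t * F.card ≤ 2 * N := by
        refine le_trans (Nat.mul_le_mul_right _ ?_) hF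
        have h1 : t < 2 ^ t := Nat.lt_two_pow_self
        rw [hc, pow_add]
        omega
      have e2 : 4 * t * dm ≤ N := by
        calc 4 * t * dm = 4 * (t * dm) := by ring
          _ ≤ N := h4dm
      have e3 : t * ∑ l ∈ range (j + 1), n l ≤ (j + 1) * N := by
        rw [← hN]
        exact num_avg hmono (by omega)
      have e4 : 4 * t * (F.card + m' * dm + ∑ l ∈ range (j + 1), n l + w) ≤ 4 * t * N := by
        have e5 : m' * (4 * t * dm) ≤ m' * N := Nat.mul_le_mul_left _ e2
        have e6 : 4 * t * F.card ≤ N := by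
          have : 2 * (4 * t * F.card) = 8 * t * F.card := by ring
          omega
        have e7 : t = m' + (j + 1) := by omega
        have e8 : 1 * N ≤ m' * N := Nat.mul_le_mul_right _ (by omega)
        calc 4 * t * (F.card + m' * dm + ∑ l ∈ range (j + 1), n l + w)
            = 4 * t * F.card + m' * (4 * t * dm) + 4 * (t * ∑ l ∈ range (j + 1), n l) +
              4 * t * w := by ring
          _ ≤ m' * N + m' * N + 4 * ((j + 1) * N) + m' * N := by
              have e9 := hl1
              omega
          _ ≤ 4 * (m' + (j + 1)) * N := by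
              have : 4 * (m' + (j + 1)) * N = 4 * (m' * N) + 4 * ((j + 1) * N) := by ring
              omega
          _ = 4 * t * N := by rw [← e7]
      exact Nat.le_of_mul_le_mul_left e4 (by omega)
    · rw [Function.update_of_ne hji]
      exact h.dem j (by omega)
  · intro j hj
    by_cases hji : j = i
    · subst hji
      rw [Function.update_self, Function.update_self]
      intro hA v hv hyv
      have key : (T \ C).filter (fun u => r u v) ⊆
          (U \ (range (j + 1)).biUnion (Function.update K j C)).filter (fun u => r u v) :=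
        Finset.filter_subset_filter _ hsubTC
      rcases hcovTC v hv with h1 | h1
      · exact (hp1 hA v h1 hyv).trans_le (Finset.card_le_card key)
      · obtain ⟨y, hy, hyv⟩ := hyv
        rcases h.domW v h1 with h2 | h2
        · exact absurd (h2 y (hCT hy)) (hT.asymm hyv)
        · refine lt_of_lt_of_le hTCw (Finset.card_le_card ?_)
          refine subset_trans ?_ key
          intro u hu
          exact Finset.mem_filter.2 ⟨hu, h2 u (Finset.mem_sdiff.1 hu).1⟩
    · rw [Function.update_of_ne hji, Function.update_of_ne hji, hbi j (by omega)]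
      exact h.path1 j (by omega)
  · intro j hj
    by_cases hji : j = i
    · subst hji
      rw [Function.update_self, Function.update_self]
      intro hA v hv hyv
      have key : (T \ C).filter (fun u => r v u) ⊆
          (U \ (range (j + 1)).biUnion (Function.update K j C)).filter (fun u => r v u) :=
        Finset.filter_subset_filter _ hsubTC
      rcases hcovTC v hv with h1 | h1
      · exact (hp2 hA v h1 hyv).trans_le (Finset.card_le_card key)
      · obtain ⟨y, hy, hyv⟩ := hyv
        rcases h.domW v h1 with h2 | h2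
        · refine lt_of_lt_of_le hTCw (Finset.card_le_card ?_)
          refine subset_trans ?_ key
          intro u hu
          exact Finset.mem_filter.2 ⟨hu, h2 u (Finset.mem_sdiff.1 hu).1⟩
        · exact absurd (h2 y (hCT hy)) (hT.asymm hyv)
    · rw [Function.update_of_ne hji, Function.update_of_ne hji, hbi j (by omega)]
      exact h.path2 j (by omega)
  · have e1 := Finset.card_union_le W ((T \ C) \ G)
    have e2 := h.cardW
    have e3 : 2 * m * (i + 1) = 2 * m * i + 2 * m := by ring
    omega
  · intro v hv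
    rcases Finset.mem_union.1 hv with hv | hv
    · rcases h.domW v hv with h1 | h1
      · exact Or.inl fun u hu => h1 u (hGT' hu)
      · exact Or.inr fun u hu => h1 u (hGT' hu)
    · exact hGdom v hv
  · exact hGsc
  · exact hGcut

open Classical in
theorem St.final (hT : IsTournament r) {t m w dm : ℕ} {n : ℕ → ℕ} {U : Finset V} (ht : 1 ≤ t)
    (hUcut : Cut r U) (hw : w = 2 * m * t) (hdm : dm = U.card / (4 * t))
    (hN : ∑ l ∈ range t, n l = U.card) (hn : ∀ i < t, 10 * w + 4 * (t + 3) + 16 ≤ n i)
    (hl3 : 8 * t * (2 * m + 2 * (Nat.log 2 U.card + 2) + 1) ≤ U.card)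
    {K E : ℕ → Finset V} {ab : ℕ → Prop} {T W : Finset V}
    (h : St r t m w dm n U (t - 1) K E ab T W) : HasParts r t n U := by
  obtain ⟨N, hNdef⟩ : ∃ N, N = U.card := ⟨_, rfl⟩
  obtain ⟨c, hc⟩ : ∃ c, c = Nat.log 2 N + 2 := ⟨_, rfl⟩
  have hadd := h.card_add
  have hkge := kp_ge t (t - 1)
  rw [← hNdef] at hdm hN hl3 hadd
  rw [← hc] at hl3
  have hWw : W.card ≤ w := by
    have h1 := h.cardW
    have h2 : 2 * m * (t - 1) ≤ 2 * m * t := Nat.mul_le_mul_left _ (by omega)
    omega
  have hKn : ∀ j < t - 1, (K j).card ≤ n j := by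
    intro j hj
    by_cases hab : ab j
    · have := h.card_ab j hj hab
      omega
    · exact (h.card_eq j hj hab).le
  have hsumK : ∑ l ∈ range (t - 1), (K l).card ≤ ∑ l ∈ range (t - 1), n l :=
    Finset.sum_le_sum fun l hl => hKn l (Finset.mem_range.1 hl)
  have hsumN : ∑ l ∈ range (t - 1), n l + n (t - 1) = ∑ l ∈ range t, n l := by
    rw [← Finset.sum_range_succ, Nat.sub_add_cancel ht]
  have hnt := hn (t - 1) (by omega)
  have hTne : T.Nonempty := Finset.card_pos.1 (by omega)
  obtain ⟨D, hDT, E0, d, p, l, hE0, hDcut, hDne, hDatt, hDc, hshort, hd, hp, hpr, hDsc⟩ :=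
    absorb2 hT h.cutT h.conn hTne c (by omega)
  have hE : E0 = ∅ := by
    rw [← Finset.card_eq_zero]
    by_contra h0
    have h1 : 2 ^ c ≤ 2 ^ c * E0.card := Nat.le_mul_of_pos_right _ (Nat.pos_of_ne_zero h0)
    have h2 : N < 2 ^ (Nat.log 2 N + 1) := Nat.lt_pow_succ_log_self (by norm_num) _
    have h3 : 2 ^ c = 2 * 2 ^ (Nat.log 2 N + 1) := by
      rw [hc, show Nat.log 2 N + 2 = (Nat.log 2 N + 1) + 1 by ring, pow_succ]
      ring
    omega
  have hDatt' : ∀ v ∈ T, v ∉ D → Att r D v := by
    intro v hv hvD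
    refine (hDatt v hv ?_).resolve_left hvD
    rw [hE]
    exact Finset.notMem_empty _
  -- `D` is small
  have hl : l + 1 - 2 * m ≤ N / (8 * t) := by
    rw [Nat.le_div_iff_mul_le (by omega)]
    calc (l + 1 - 2 * m) * (8 * t) ≤ (l + 1 - 2 * m) * kp t (t - 1) :=
          Nat.mul_le_mul_left _ hkge
      _ = kp t (t - 1) * (l + 1 - 2 * m) := Nat.mul_comm _ _
      _ ≤ T.card := hshort
      _ ≤ N := by omega
  have h8 : 2 * m + 2 * c + 1 ≤ N / (8 * t) := by
    rw [Nat.le_div_iff_mul_le (by omega), Nat.mul_comm]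
    exact hl3
  have h84 : 2 * (N / (8 * t)) ≤ dm := by
    rw [hdm, Nat.le_div_iff_mul_le (by omega)]
    calc 2 * (N / (8 * t)) * (4 * t) = 8 * t * (N / (8 * t)) := by ring
      _ ≤ N := Nat.mul_div_le _ _
  have hDdm : D.card ≤ dm := by omega
  have hTD : (T \ D).card + D.card = T.card := Finset.card_sdiff_add_card_eq_card hDT
  -- fill
  have hfill : ∀ j < t - 1, ∑ l ∈ range (j + 1), (n l - (K l).card) + (E j).card
      ≤ (T \ D).card := by
    intro j hj
    have h1 := h.dem j hj
    rw [← hNdef] at h1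
    have h2 : ∑ l ∈ range (t - 1), (K l).card = ∑ l ∈ range (j + 1), (K l).card
        + ∑ l ∈ Ico (j + 1) (t - 1), (K l).card := by
      rw [Finset.sum_range_add_sum_Ico _ (by omega)]
    have h3 : ∑ l ∈ Ico (j + 1) (t - 1), (K l).card ≤ (t - 1 - (j + 1)) * dm := by
      have := Finset.sum_le_card_nsmul (Ico (j + 1) (t - 1)) (fun l => (K l).card) dm
        (fun l hl => h.card_dm l (Finset.mem_Ico.1 hl).2)
      simpa using this
    have h4 : ∑ l ∈ range (j + 1), (n l - (K l).card) + ∑ l ∈ range (j + 1), (K l).card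
        = ∑ l ∈ range (j + 1), n l := by
      rw [← Finset.sum_add_distrib]
      apply Finset.sum_congr rfl
      intro l hl
      have := hKn l (by
        rw [Finset.mem_range] at hl
        omega)
      omega
    have h5 : (t - 1 - j) * dm = (t - 1 - (j + 1)) * dm + dm := by
      rw [show t - 1 - j = (t - 1 - (j + 1)) + 1 by omega, Nat.add_mul, Nat.one_mul]
    omega
  obtain ⟨R, hR1, hR2⟩ := fill (T \ D) (fun l => n l - (K l).card) E (t - 1) hfill
  have hRTD : ∀ j < t - 1, ∀ v ∈ R j, v ∈ T ∧ v ∉ D := fun j hj v hv =>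
    Finset.mem_sdiff.1 ((hR1 j hj).1 hv)
  have hKT : ∀ j < t - 1, ∀ v ∈ K j, v ∉ T := fun j hj v hv =>
    (Finset.disjoint_left.1 (h.disjT j hj)) hv
  have hTW : ∀ v ∈ T, v ∉ W := fun v hv => (Finset.disjoint_left.1 h.disjTW) hv
  have hRb : ∀ v, v ∈ T \ (range (t - 1)).biUnion R ↔ v ∈ T ∧ ∀ j < t - 1, v ∉ R j := by
    intro v
    rw [Finset.mem_sdiff, Finset.mem_biUnion]
    constructor
    · rintro ⟨h1, h2⟩
      exact ⟨h1, fun j hj hv => h2 ⟨j, Finset.mem_range.2 hj, hv⟩⟩
    · rintro ⟨h1, h2⟩
      refine ⟨h1, ?_⟩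
      rintro ⟨j, hj, hv⟩
      exact h2 j (Finset.mem_range.1 hj) hv
  have hKR : ∀ i < t - 1, ∀ j < t - 1, Disjoint (K i) (R j) := by
    intro i hi j hj
    rw [Finset.disjoint_left]
    intro v hv hvR
    exact hKT i hi v hv (hRTD j hj v hvR).1
  have hcfg : Cfg r (t - 1) U D T ab n K (fun j => K j ∪ R j) K
      (T \ (range (t - 1)).biUnion R) W := by
    constructor
    · intro j hj
      exact Finset.union_subset (h.subK j hj) (fun v hv => h.subT (hRTD j hj v hv).1)
    · exact Finset.sdiff_subset.trans h.subT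
    · exact h.subW
    · intro v hv
      rcases h.cover v hv with ⟨j, hj, hvj⟩ | h1 | h1
      · exact Or.inl ⟨j, hj, Finset.mem_union_left _ hvj⟩
      · by_cases h2 : ∃ j < t - 1, v ∈ R j
        · obtain ⟨j, hj, hvj⟩ := h2
          exact Or.inl ⟨j, hj, Finset.mem_union_right _ hvj⟩
        · push Not at h2
          exact Or.inr (Or.inl ((hRb v).2 ⟨h1, h2⟩))
      · exact Or.inr (Or.inr h1)
    · intro i hi j hj hij
      rw [Finset.disjoint_union_left, Finset.disjoint_union_right, Finset.disjoint_union_right]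
      exact ⟨⟨h.disj i hi j hj hij, hKR i hi j hj⟩, (hKR j hj i hi).symm, hR2 i hi j hj hij⟩
    · intro j hj
      rw [Finset.disjoint_left]
      intro v hv hv2
      obtain ⟨h1, h2⟩ := (hRb v).1 hv2
      rcases Finset.mem_union.1 hv with hv | hv
      · exact hKT j hj v hv h1
      · exact h2 j hj hv
    · intro j hj
      rw [Finset.disjoint_union_left]
      refine ⟨h.disjW j hj, ?_⟩
      rw [Finset.disjoint_left]
      intro v hv
      exact hTW v (hRTD j hj v hv).1
    · rw [Finset.disjoint_left]
      intro v hv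
      exact hTW v ((hRb v).1 hv).1
    · intro j hj
      rw [Finset.card_union_of_disjoint (hKR j hj j hj), (hR1 j hj).2.1]
      have := hKn j hj
      omega
    · intro j hj hab
      have hRK : (K j ∪ R j) \ K j = R j := by
        ext v
        rw [Finset.mem_sdiff, Finset.mem_union]
        constructor
        · rintro ⟨h1 | h1, h2⟩
          · exact absurd h1 h2
          · exact h1
        · intro h1
          exact ⟨Or.inr h1, fun h2 => hKT j hj v h2 (hRTD j hj v h1).1⟩
      refine ⟨Finset.subset_union_left, (h.cutK j hj).2, (h.cutK j hj).1, ?_, ?_⟩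
      · intro v hv
        rw [hRK] at hv
        obtain ⟨h1, h2⟩ := hRTD j hj v hv
        exact ⟨h.att j hj hab v h1 ((Finset.disjoint_left.1 (hR1 j hj).2.2) hv), h1,
          hDatt' v h1 h2⟩
      · rw [hRK, (hR1 j hj).2.1]
        have := h.card_ab j hj hab
        omega
    · intro j hj hab
      have h1 := (hR1 j hj).2.1
      have h2 := h.card_eq j hj hab
      have h3 : R j = ∅ := Finset.card_eq_zero.1 (by omega)
      change K j ∪ R j = K j
      rw [h3, Finset.union_empty]
    · intro v hv
      exact (hRb v).2 ⟨hDT hv, fun j hj hvj => (hRTD j hj v hvj).2 hv⟩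
    · have h1 : T \ (range (t - 1)).biUnion R = D ∪ (T \ (range (t - 1)).biUnion R) := by
        symm
        apply Finset.union_eq_right.2
        intro v hv
        exact (hRb v).2 ⟨hDT hv, fun j hj hvj => (hRTD j hj v hvj).2 hv⟩
      rw [h1]
      apply hDcut.union_att hDne
      intro v hv
      by_cases hvD : v ∈ D
      · exact Or.inl hvD
      · exact Or.inr (hDatt' v ((hRb v).1 hv).1 hvD)
  have hWK : ∀ j < t - 1, ∀ v ∈ W, v ∈ U \ (range (j + 1)).biUnion K := by
    intro j hj v hv
    refine Finset.mem_sdiff.2 ⟨h.subW hv, fun h1 => ?_⟩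
    obtain ⟨i, hi, hvi⟩ := Finset.mem_biUnion.1 h1
    rw [Finset.mem_range] at hi
    exact (Finset.disjoint_left.1 (h.disjW i (by omega))) hvi hv
  obtain ⟨P, C', Q, hfin⟩ := Cfg.all hT hUcut hDne hDT h.domW
    (fun j hj hab v hv hy => hWw.trans_lt (h.path1 j hj hab v (hWK j hj v hv) hy))
    (fun j hj hab v hv hy => hWw.trans_lt (h.path2 j hj hab v (hWK j hj v hv) hy))
    W.card _ _ _ W hcfg (Finset.Subset.refl _) rfl
  have hQc : Q.card = n (t - 1) := by
    have h1 : U = (range (t - 1)).biUnion P ∪ Q := by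
      apply Finset.Subset.antisymm
      · intro v hv
        rcases hfin.cover v hv with ⟨j, hj, hvj⟩ | h1 | h1
        · exact Finset.mem_union_left _ (Finset.mem_biUnion.2 ⟨j, Finset.mem_range.2 hj, hvj⟩)
        · exact Finset.mem_union_right _ h1
        · exact absurd h1 (Finset.notMem_empty _)
      · apply Finset.union_subset _ hfin.subQ
        intro v hv
        obtain ⟨j, hj, hvj⟩ := Finset.mem_biUnion.1 hv
        exact hfin.sub j (Finset.mem_range.1 hj) hvj
    have h2 : U.card = ((range (t - 1)).biUnion P).card + Q.card := by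
      conv_lhs => rw [h1]
      apply Finset.card_union_of_disjoint
      rw [Finset.disjoint_biUnion_left]
      intro j hj
      exact hfin.disjQ j (Finset.mem_range.1 hj)
    have h3 : ((range (t - 1)).biUnion P).card = ∑ j ∈ range (t - 1), n j := by
      rw [Finset.card_biUnion (fun i hi j hj hij =>
        hfin.disj i (Finset.mem_range.1 hi) j (Finset.mem_range.1 hj) hij)]
      exact Finset.sum_congr rfl fun j hj => hfin.card j (Finset.mem_range.1 hj)
    omega
  refine ⟨fun j => if j < t - 1 then P j else Q, ?_, ?_⟩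
  · intro j hj
    by_cases hjt : j < t - 1
    · simp only [if_pos hjt]
      refine ⟨hfin.sub j hjt, hfin.card j hjt, ?_⟩
      by_cases hab : ab j
      · obtain ⟨h1, h2, h3, h4, _⟩ := hfin.core j hjt hab
        have h5 : P j = C' j ∪ P j := (Finset.union_eq_right.2 h1).symm
        rw [h5]
        apply h3.union_att h2
        intro v hv
        by_cases hvC : v ∈ C' j
        · exact Or.inl hvC
        · exact Or.inr (h4 v (Finset.mem_sdiff.2 ⟨hv, hvC⟩)).1
      · rw [hfin.path j hjt hab]
        exact (h.cutK j hjt).1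
    · have hjt' : j = t - 1 := by omega
      subst hjt'
      simp only [if_neg hjt]
      exact ⟨hfin.subQ, hQc, hfin.cutQ⟩
  · intro i hi j hj hij
    by_cases hit : i < t - 1
    · by_cases hjt : j < t - 1
      · simp only [if_pos hit, if_pos hjt]
        exact hfin.disj i hit j hjt hij
      · simp only [if_pos hit, if_neg hjt]
        exact hfin.disjQ i hit
    · have hjt : j < t - 1 := by omega
      simp only [if_neg hit, if_pos hjt]
      exact (hfin.disjQ j hjt).symm

/-- The case of large parts. -/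
theorem step_B (hT : IsTournament r) {t m : ℕ} {n : ℕ → ℕ} {U : Finset V} (ht : 1 ≤ t)
    (hm : 1 ≤ m) (hUcut : Cut r U) (hsc : SC r (kp t 0) m U)
    (hN : ∑ l ∈ range t, n l = U.card) (hmono : ∀ i j, i ≤ j → j < t → n i ≤ n j)
    (hn : ∀ i < t, 10 * (2 * m * t) + 4 * (t + 3) + 16 ≤ n i)
    (hl1 : 4 * t * (2 * m * t) ≤ U.card)
    (hl2 : 8 * t * (2 * m + 2 * (t + 3) + 1 + 3 * (2 * m * t)) ≤ U.card)
    (hl3 : 8 * t * (2 * m + 2 * (Nat.log 2 U.card + 2) + 1) ≤ U.card) : HasParts r t n U := by
  have h : ∀ i, i ≤ t - 1 → ∃ K E ab T W,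
      St r t m (2 * m * t) (U.card / (4 * t)) n U i K E ab T W := by
    intro i
    induction i with
    | zero =>
      intro _
      refine ⟨fun _ => ∅, fun _ => ∅, fun _ => True, U, ∅, ?_⟩
      constructor
      · exact fun j hj => absurd hj (Nat.not_lt_zero j)
      · exact Finset.Subset.refl _
      · exact Finset.empty_subset _
      · exact fun v hv => Or.inr (Or.inl hv)
      · exact fun j hj => absurd hj (Nat.not_lt_zero j)
      · exact fun j hj => absurd hj (Nat.not_lt_zero j)
      · exact fun j hj => absurd hj (Nat.not_lt_zero j)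
      · exact Finset.disjoint_empty_right _
      · exact fun j hj => absurd hj (Nat.not_lt_zero j)
      · exact fun j hj => absurd hj (Nat.not_lt_zero j)
      · exact fun j hj => absurd hj (Nat.not_lt_zero j)
      · exact fun j hj => absurd hj (Nat.not_lt_zero j)
      · exact fun j hj => absurd hj (Nat.not_lt_zero j)
      · exact fun j hj => absurd hj (Nat.not_lt_zero j)
      · exact fun j hj => absurd hj (Nat.not_lt_zero j)
      · exact fun j hj => absurd hj (Nat.not_lt_zero j)
      · simp
      · exact fun v hv => absurd hv (Finset.notMem_empty _)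
      · exact hsc
      · exact hUcut
    | succ i ih =>
      intro hi
      obtain ⟨K, E, ab, T, W, h⟩ := ih (by omega)
      exact h.step hT ht hm rfl rfl hN hmono hn hl1 hl2 (by omega)
  obtain ⟨K, E, ab, T, W, h⟩ := h (t - 1) le_rfl
  exact h.final hT ht hUcut rfl rfl hN hn hl3

end Pool.Agent.Work.MP_1399e9_co
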