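import Pool.Agent.Work.MP_1399e9_co.Stage
import Pool.Agent.Work.MP_1399e9_co.Moon

/-!
# The case of a small part
-/

namespace Pool.Agent.Work.MP_1399e9_co

open Finset Relation

variable {V : Type} {r : V → V → Prop} [DecidableEq V]

theorem SC.cut {k : ℕ} {U : Finset V} (h : SC r k 1 U) (hk : 1 ≤ k) : Cut r U := by
  intro R hR hne hRU
  by_contra hcon
  push Not at hcon
  have h1 := h (U \ R) ∅ R ⟨Finset.disjoint_empty_right _, Finset.sdiff_disjoint,
    Finset.disjoint_empty_left _, by rw [Finset.union_empty, Finset.sdiff_union_of_subset hR],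
    fun a ha b hb => hcon a ha b hb⟩ (by
      rw [Nat.one_le_iff_ne_zero, Ne, Finset.card_eq_zero, Finset.sdiff_eq_empty_iff_subset]
      exact fun h0 => hRU (Finset.Subset.antisymm hR h0)) hne.card_pos
  rw [Finset.card_empty] at h1
  omega

open Classical in
omit [DecidableEq V] in
theorem in_add_out (hT : IsTournament r) {U : Finset V} {x : V} (hx : x ∈ U) :
    (U.filter (fun v => r v x)).card + (U.filter (fun v => r x v)).card + 1 = U.card := by
  have hd : Disjoint (U.filter (fun v => r v x)) (U.filter (fun v => r x v)) := by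
    rw [Finset.disjoint_filter]
    intro v _ h3 h4
    exact hT.asymm h3 h4
  rw [← Finset.card_union_of_disjoint hd]
  have hxn : x ∉ U.filter (fun v => r v x) ∪ U.filter (fun v => r x v) := by
    simp only [Finset.mem_union, Finset.mem_filter, not_or, not_and]
    exact ⟨fun _ => hT.1 x, fun _ => hT.1 x⟩
  rw [← Finset.card_insert_of_notMem hxn]
  congr 1
  ext v
  simp only [Finset.mem_insert, Finset.mem_union, Finset.mem_filter]
  constructor
  · rintro (rfl | h | h)
    · exact hx
    · exact h.1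
    · exact h.1
  · intro hv
    by_cases hvx : v = x
    · exact Or.inl hvx
    · rcases hT.total hvx with h | h
      · exact Or.inr (Or.inl ⟨hv, h⟩)
      · exact Or.inr (Or.inr ⟨hv, h⟩)

open Classical in
omit [DecidableEq V] in
/-- At most `2 d + 1` vertices have in-degree at most `d`. -/
theorem few_low (hT : IsTournament r) (U : Finset V) (d : ℕ) :
    (U.filter (fun v => (U.filter (fun u => r u v)).card ≤ d)).card ≤ 2 * d + 1 := by
  obtain ⟨S, hS⟩ : ∃ S, S = U.filter (fun v => (U.filter (fun u => r u v)).card ≤ d) := ⟨_, rfl⟩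
  rw [← hS]
  by_contra hcon
  push Not at hcon
  have hne : S.Nonempty := Finset.card_pos.1 (by omega)
  obtain ⟨x, hx, h1⟩ := exists_low hT.flip hne
  have h2 := in_add_out hT hx
  have h3 : (S.filter (fun v => r v x)).card ≤ (U.filter (fun v => r v x)).card := by
    apply Finset.card_le_card
    apply Finset.filter_subset_filter
    rw [hS]
    exact Finset.filter_subset _ _
  rw [hS, Finset.mem_filter] at hx
  have h4 := hx.2
  omega

open Classical in
/-- The vertices of small in-degree and their in-neighbours. -/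
noncomputable def LoN (r : V → V → Prop) (U : Finset V) (d : ℕ) : Finset V :=
  U.filter (fun v => (U.filter (fun u => r u v)).card ≤ d) ∪
    (U.filter (fun v => (U.filter (fun u => r u v)).card ≤ d)).biUnion
      (fun x => U.filter (fun u => r u x))

theorem card_LoN (hT : IsTournament r) (U : Finset V) (d : ℕ) :
    (LoN r U d).card ≤ (2 * d + 1) * (d + 1) := by
  classical
  have h1 := few_low hT U d
  unfold LoN
  refine (Finset.card_union_le _ _).trans ?_
  have h2 : ((U.filter (fun v => (U.filter (fun u => r u v)).card ≤ d)).biUnion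
      (fun x => U.filter (fun u => r u x))).card ≤ (2 * d + 1) * d := by
    refine (Finset.card_biUnion_le_card_mul _ _ d ?_).trans (Nat.mul_le_mul_right _ ?_)
    · intro x hx
      have := (Finset.mem_filter.1 hx).2
      convert this
    · convert h1
  have h3 : (2 * d + 1) * (d + 1) = (2 * d + 1) * d + (2 * d + 1) := by ring
  rw [h3]
  have h4 : (U.filter (fun v => (U.filter (fun u => r u v)).card ≤ d)).card ≤ 2 * d + 1 := by
    convert h1
  omega

theorem stepA_half {t C m d : ℕ} {U K L X R : Finset V}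
    (hs : IsSep r (U \ K) L X R) (hK : K ⊆ U) (hsct : SC r t 1 U)
    (hKd : Disjoint K (LoN r U d)) (hL : L.Nonempty) (hR : R.Nonempty) (hLm : L.card < m)
    (hX : X.card < t) (hKC : K.card ≤ C) (hd : d = m + t + C) : t ≤ X.card := by
  classical
  have hLQ : ∀ v ∈ L, v ∈ U ∧ v ∉ K := fun v hv => Finset.mem_sdiff.1 (hs.memL hv)
  have hXQ : ∀ v ∈ X, v ∈ U ∧ v ∉ K := fun v hv => Finset.mem_sdiff.1 (hs.memX hv)
  have hRQ : ∀ v ∈ R, v ∈ U ∧ v ∉ K := fun v hv => Finset.mem_sdiff.1 (hs.memR hv)
  obtain ⟨h1, h2, h3, h4, h5⟩ := hs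
  have hcov : ∀ v ∈ U, v ∈ K ∨ v ∈ L ∨ v ∈ X ∨ v ∈ R := by
    intro v hv
    by_cases hvQ : v ∈ K
    · exact Or.inl hvQ
    · have : v ∈ U \ K := Finset.mem_sdiff.2 ⟨hv, hvQ⟩
      rw [← h4, Finset.mem_union, Finset.mem_union] at this
      tauto
  have hnoK : ∀ a ∈ K, ∀ b ∈ L, ¬ r a b := by
    intro a ha b hb hab
    apply (Finset.disjoint_left.1 hKd) ha
    unfold LoN
    apply Finset.mem_union_right
    rw [Finset.mem_biUnion]
    refine ⟨b, Finset.mem_filter.2 ⟨(hLQ b hb).1, ?_⟩, Finset.mem_filter.2 ⟨hK ha, hab⟩⟩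
    have e1 : U.filter (fun u => r u b) ⊆ L ∪ X ∪ K := by
      intro u hu
      obtain ⟨e1, e2⟩ := Finset.mem_filter.1 hu
      rw [Finset.mem_union, Finset.mem_union]
      rcases hcov u e1 with h | h | h | h
      · exact Or.inr h
      · exact Or.inl (Or.inl h)
      · exact Or.inl (Or.inr h)
      · exact absurd e2 (h5 u h b hb)
    have e2 := Finset.card_le_card e1
    have e3 := Finset.card_union_le (L ∪ X) K
    have e4 := Finset.card_union_le L X
    refine le_trans ?_ (show L.card + X.card + K.card ≤ d by omega)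
    refine le_trans ?_ (e2.trans (by omega))
    apply le_of_eq
    congr
  refine hsct L X (R ∪ K) ⟨h1, ?_, ?_, ?_, ?_⟩ hL.card_pos ?_
  · rw [Finset.disjoint_union_right]
    refine ⟨h2, ?_⟩
    rw [Finset.disjoint_left]
    exact fun v hv => (hLQ v hv).2
  · rw [Finset.disjoint_union_right]
    refine ⟨h3, ?_⟩
    rw [Finset.disjoint_left]
    exact fun v hv => (hXQ v hv).2
  · apply Finset.Subset.antisymm
    · intro v hv
      simp only [Finset.mem_union] at hv
      rcases hv with (hv | hv) | (hv | hv)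
      · exact (hLQ v hv).1
      · exact (hXQ v hv).1
      · exact (hRQ v hv).1
      · exact hK hv
    · intro v hv
      simp only [Finset.mem_union]
      rcases hcov v hv with h | h | h | h <;> simp [h]
  · intro a ha b hb
    rcases Finset.mem_union.1 ha with ha | ha
    · exact h5 a ha b hb
    · exact hnoK a ha b hb
  · exact (hR.mono Finset.subset_union_left).card_pos

/-- A small strong set whose removal costs at most one in connectivity. -/
theorem step_A (hT : IsTournament r) {t C m m' d φ n : ℕ} {U : Finset V} (hm' : 1 ≤ m')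
    (hsct : SC r t 1 U) (hsc : SC r (t + C) m U) (hd : d = m + t + C)
    (hφ : φ = 2 * ((2 * d + 1) * (d + 1))) (hsc' : SC r (φ + 1) m' U) (hn3 : 3 ≤ n) (hnC : n ≤ C)
    (hU : φ + 2 * m' + C ≤ U.card) :
    ∃ K ⊆ U, K.card = n ∧ Cut r K ∧ SC r (t - 1) 1 (U \ K) := by
  classical
  obtain ⟨Φ, hΦ⟩ : ∃ Φ, Φ = LoN r U d ∪ LoN (fun a b => r b a) U d := ⟨_, rfl⟩
  have hΦc : Φ.card ≤ φ := by
    rw [hΦ, hφ]
    refine (Finset.card_union_le _ _).trans ?_
    have e1 := card_LoN hT U d
    have e2 := card_LoN hT.flip U d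
    omega
  have e1 := Finset.le_card_sdiff Φ U
  obtain ⟨G, hGW, hGcut, _, hGc, _⟩ := giant hT le_rfl hm' (hsc'.sdiff Φ (k' := 1) (by omega))
    (by omega)
  have e2 := Finset.card_sdiff_add_card_eq_card hGW
  obtain ⟨K, hKG, hKc, hKcut⟩ := exists_sub_cut hT hGcut hn3 (by omega)
  have hKU : K ⊆ U := hKG.trans (hGW.trans Finset.sdiff_subset)
  have hKΦ : Disjoint K Φ := by
    rw [Finset.disjoint_left]
    intro v hv
    exact (Finset.mem_sdiff.1 (hGW (hKG hv))).2
  rw [hΦ, Finset.disjoint_union_right] at hKΦ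
  refine ⟨K, hKU, hKc, hKcut, ?_⟩
  intro L X R hs hL hR
  by_contra hX
  push Not at hX
  have hLQ : ∀ v ∈ L, v ∈ U ∧ v ∉ K := fun v hv => Finset.mem_sdiff.1 (hs.memL hv)
  have hXQ : ∀ v ∈ X, v ∈ U ∧ v ∉ K := fun v hv => Finset.mem_sdiff.1 (hs.memX hv)
  have hRQ : ∀ v ∈ R, v ∈ U ∧ v ∉ K := fun v hv => Finset.mem_sdiff.1 (hs.memR hv)
  have hs' : IsSep r U L (X ∪ K) R := by
    obtain ⟨h1, h2, h3, h4, h5⟩ := hs
    refine ⟨?_, h2, ?_, ?_, h5⟩
    · rw [Finset.disjoint_union_right]
      refine ⟨h1, ?_⟩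
      rw [Finset.disjoint_left]
      exact fun v hv => (hLQ v hv).2
    · rw [Finset.disjoint_union_left]
      refine ⟨h3, ?_⟩
      rw [Finset.disjoint_left]
      exact fun v hv2 hv => (hRQ v hv).2 hv2
    · apply Finset.Subset.antisymm
      · intro v hv
        simp only [Finset.mem_union] at hv
        rcases hv with (hv | (hv | hv)) | hv
        · exact (hLQ v hv).1
        · exact (hXQ v hv).1
        · exact hKU hv
        · exact (hRQ v hv).1
      · intro v hv
        by_cases hvC : v ∈ K
        · simp [hvC]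
        · have : v ∈ U \ K := Finset.mem_sdiff.2 ⟨hv, hvC⟩
          rw [← h4, Finset.mem_union, Finset.mem_union] at this
          simp only [Finset.mem_union]
          tauto
  have h1 := Finset.card_union_le X K
  have h2 : ¬ (m ≤ L.card ∧ m ≤ R.card) := by
    rintro ⟨h2, h3⟩
    have := hsc _ _ _ hs' h2 h3
    omega
  by_cases hLm : m ≤ L.card
  · have h3 := stepA_half hs.flip hKU hsct.flip hKΦ.2 (Finset.card_pos.1 hR) (Finset.card_pos.1 hL)
      (by
        by_contra h3
        exact h2 ⟨hLm, by omega⟩) (by omega) (by omega) hd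
    omega
  · have h3 := stepA_half hs hKU hsct hKΦ.1 (Finset.card_pos.1 hL) (Finset.card_pos.1 hR)
      (by omega) (by omega) (by omega) hd
    omega

end Pool.Agent.Work.MP_1399e9_co
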