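import Pool.Agent.Work.MP_1399e9_co.Window
import Pool.Agent.Work.MP_1399e9_co.Giant

/-!
# Absorbing the last vertices by exchanges
-/

namespace Pool.Agent.Work.MP_1399e9_co

open Finset Relation

variable {V : Type} {r : V → V → Prop} [DecidableEq V]

/-- Parts `P j`, `j < s`, a further part `Q` and a set `W` of vertices that are still free. -/
structure Cfg (r : V → V → Prop) (s : ℕ) (U D T0 : Finset V) (ab : ℕ → Prop) (n : ℕ → ℕ)
    (K P C : ℕ → Finset V) (Q W : Finset V) : Prop where
  sub : ∀ j < s, P j ⊆ U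
  subQ : Q ⊆ U
  subW : W ⊆ U
  cover : ∀ v ∈ U, (∃ j < s, v ∈ P j) ∨ v ∈ Q ∨ v ∈ W
  disj : ∀ i < s, ∀ j < s, i ≠ j → Disjoint (P i) (P j)
  disjQ : ∀ j < s, Disjoint (P j) Q
  disjW : ∀ j < s, Disjoint (P j) W
  disjQW : Disjoint Q W
  card : ∀ j < s, (P j).card = n j
  core : ∀ j < s, ab j → C j ⊆ P j ∧ (C j).Nonempty ∧ Cut r (C j) ∧
    (∀ v ∈ P j \ C j, Att r (C j) v ∧ v ∈ T0 ∧ Att r D v) ∧ 3 * W.card ≤ (P j \ C j).card
  path : ∀ j < s, ¬ ab j → P j = K j
  subD : D ⊆ Q
  cutQ : Cut r Q

omit [DecidableEq V] in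
theorem Att.flip {D : Finset V} {v : V} (h : Att r D v) : Att (fun a b => r b a) D v :=
  ⟨h.2, h.1⟩

theorem Cfg.flip {s : ℕ} {U D T0 : Finset V} {ab : ℕ → Prop} {n : ℕ → ℕ} {K P C : ℕ → Finset V}
    {Q W : Finset V} (h : Cfg r s U D T0 ab n K P C Q W) :
    Cfg (fun a b => r b a) s U D T0 ab n K P C Q W := by
  refine ⟨h.sub, h.subQ, h.subW, h.cover, h.disj, h.disjQ, h.disjW, h.disjQW, h.card, ?_, h.path,
    h.subD, h.cutQ.flip⟩
  intro j hj hab
  obtain ⟨h1, h2, h3, h4, h5⟩ := h.core j hj hab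
  exact ⟨h1, h2, h3.flip, fun v hv => ⟨(h4 v hv).1.flip, (h4 v hv).2.1, (h4 v hv).2.2.flip⟩, h5⟩

theorem Cut.insert_att {D : Finset V} {v : V} (hD : Cut r D) (hne : D.Nonempty)
    (hv : v ∈ D ∨ Att r D v) : Cut r (insert v D) := by
  have h := hD.union_att hne (S := {v}) (fun u hu => by
    rw [Finset.mem_singleton] at hu
    rw [hu]
    exact hv)
  rwa [Finset.union_comm, ← Finset.insert_eq] at h

/-- The exchange. -/
theorem Cfg.exec {s : ℕ} {U D T0 : Finset V} {ab : ℕ → Prop} {n : ℕ → ℕ} {K P C : ℕ → Finset V}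
    {Q W : Finset V} (hT : IsTournament r) (hD : D.Nonempty)
    (h : Cfg r s U D T0 ab n K P C Q W) {w : V} (hw : w ∈ W) {j : ℕ} (hj : j < s) (hab : ab j)
    {y : V} (hy : y ∈ P j) (hyw : r y w) (hwT : ∀ u ∈ T0, r w u) :
    ∃ P' C' Q', Cfg r s U D T0 ab n K P' C' Q' (W.erase w) := by
  classical
  obtain ⟨c1, c2, c3, c4, c5⟩ := h.core j hj hab
  have hWpos : 1 ≤ W.card := Finset.card_pos.2 ⟨w, hw⟩
  obtain ⟨y2, hy2⟩ : (P j \ C j).Nonempty := Finset.card_pos.1 (by omega)
  have hwy2 : r w y2 := hwT y2 (c4 y2 hy2).2.1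
  have hyy2 : y ≠ y2 := by
    rintro rfl
    exact hT.asymm hyw hwy2
  obtain ⟨u, hu, huy⟩ : ∃ u ∈ P j \ C j, u ∉ ({y, y2} : Finset V) := by
    by_contra hcon
    push Not at hcon
    have h1 : P j \ C j ⊆ {y, y2} := hcon
    have h2 := Finset.card_le_card h1
    have h3 : ({y, y2} : Finset V).card ≤ 2 := Finset.card_le_two
    omega
  simp only [Finset.mem_insert, Finset.mem_singleton, not_or] at huy
  have hwP : ∀ i < s, w ∉ P i := fun i hi hwi => (Finset.disjoint_left.1 (h.disjW i hi)) hwi hw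
  have hwQ : w ∉ Q := fun hwQ => (Finset.disjoint_left.1 h.disjQW) hwQ hw
  have huP : u ∈ P j := (Finset.mem_sdiff.1 hu).1
  have huQ : u ∉ Q := (Finset.disjoint_left.1 (h.disjQ j hj)) huP
  have huW : u ∉ W := (Finset.disjoint_left.1 (h.disjW j hj)) huP
  have huw : u ≠ w := fun e => hwP j hj (e ▸ huP)
  have huPi : ∀ i < s, i ≠ j → u ∉ P i := fun i hi hij hui =>
    (Finset.disjoint_left.1 (h.disj i hi j hj hij)) hui huP
  -- the new part
  obtain ⟨N, hN⟩ : ∃ N, N = (insert w (P j)).erase u := ⟨_, rfl⟩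
  have hNmem : ∀ v, v ∈ N ↔ v ≠ u ∧ (v = w ∨ v ∈ P j) := by
    intro v
    rw [hN, Finset.mem_erase, Finset.mem_insert]
  obtain ⟨N', hN'⟩ : ∃ N', N' = insert w (insert y (insert y2 (C j))) := ⟨_, rfl⟩
  have hN'mem : ∀ v, v ∈ N' ↔ v = w ∨ v = y ∨ v = y2 ∨ v ∈ C j := by
    intro v
    simp [hN']
  have hy2P := (Finset.mem_sdiff.1 hy2).1
  have hQ0 : Q.Nonempty := hD.mono h.subD
  refine ⟨Function.update P j N, Function.update C j N', insert u Q, ?_⟩
  constructor
  · intro i hi v hv
    by_cases hij : i = j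
    · subst hij
      rw [Function.update_self, hNmem] at hv
      rcases hv.2 with rfl | hv
      · exact h.subW hw
      · exact h.sub i hi hv
    · rw [Function.update_of_ne hij] at hv
      exact h.sub i hi hv
  · exact Finset.insert_subset (h.sub j hj huP) h.subQ
  · exact (Finset.erase_subset _ _).trans h.subW
  · intro v hv
    by_cases hvu : v = u
    · subst hvu
      exact Or.inr (Or.inl (Finset.mem_insert_self _ _))
    · rcases h.cover v hv with ⟨i, hi, hvi⟩ | hvQ | hvW
      · left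
        refine ⟨i, hi, ?_⟩
        by_cases hij : i = j
        · subst hij
          rw [Function.update_self, hNmem]
          exact ⟨hvu, Or.inr hvi⟩
        · rw [Function.update_of_ne hij]
          exact hvi
      · exact Or.inr (Or.inl (Finset.mem_insert_of_mem hvQ))
      · by_cases hvw : v = w
        · left
          refine ⟨j, hj, ?_⟩
          rw [Function.update_self, hNmem]
          exact ⟨hvu, Or.inl hvw⟩
        · exact Or.inr (Or.inr (Finset.mem_erase.2 ⟨hvw, hvW⟩))
  · intro i hi i' hi' hii'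
    by_cases hij : i = j
    · subst hij
      rw [Function.update_self, Function.update_of_ne (Ne.symm hii'), Finset.disjoint_left]
      intro v hv hv2
      rcases ((hNmem v).1 hv).2 with rfl | hv
      · exact hwP i' hi' hv2
      · exact (Finset.disjoint_left.1 (h.disj i hi i' hi' hii')) hv hv2
    · by_cases hij' : i' = j
      · subst hij'
        rw [Function.update_self, Function.update_of_ne hii', Finset.disjoint_left]
        intro v hv2 hv
        rcases ((hNmem v).1 hv).2 with rfl | hv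
        · exact hwP i hi hv2
        · exact (Finset.disjoint_left.1 (h.disj i hi i' hi' hii')) hv2 hv
      · rw [Function.update_of_ne hij, Function.update_of_ne hij']
        exact h.disj i hi i' hi' hii'
  · intro i hi
    rw [Finset.disjoint_left]
    intro v hv hvQ
    rcases Finset.mem_insert.1 hvQ with rfl | hvQ
    · by_cases hij : i = j
      · subst hij
        rw [Function.update_self, hNmem] at hv
        exact hv.1 rfl
      · rw [Function.update_of_ne hij] at hv
        exact huPi i hi hij hv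
    · by_cases hij : i = j
      · subst hij
        rw [Function.update_self, hNmem] at hv
        rcases hv.2 with rfl | hv
        · exact hwQ hvQ
        · exact (Finset.disjoint_left.1 (h.disjQ i hi)) hv hvQ
      · rw [Function.update_of_ne hij] at hv
        exact (Finset.disjoint_left.1 (h.disjQ i hi)) hv hvQ
  · intro i hi
    rw [Finset.disjoint_left]
    intro v hv hvW
    obtain ⟨hvw, hvW⟩ := Finset.mem_erase.1 hvW
    by_cases hij : i = j
    · subst hij
      rw [Function.update_self, hNmem] at hv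
      rcases hv.2 with rfl | hv
      · exact hvw rfl
      · exact (Finset.disjoint_left.1 (h.disjW i hi)) hv hvW
    · rw [Function.update_of_ne hij] at hv
      exact (Finset.disjoint_left.1 (h.disjW i hi)) hv hvW
  · rw [Finset.disjoint_left]
    intro v hv hvW
    obtain ⟨hvw, hvW⟩ := Finset.mem_erase.1 hvW
    rcases Finset.mem_insert.1 hv with rfl | hv
    · exact huW hvW
    · exact (Finset.disjoint_left.1 h.disjQW) hv hvW
  · intro i hi
    by_cases hij : i = j
    · subst hij
      rw [Function.update_self, hN, Finset.card_erase_of_mem (Finset.mem_insert_of_mem huP),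
        Finset.card_insert_of_notMem (hwP i hi), h.card i hi]
      omega
    · rw [Function.update_of_ne hij]
      exact h.card i hi
  · intro i hi habi
    by_cases hij : i = j
    · subst hij
      rw [Function.update_self, Function.update_self]
      refine ⟨?_, ⟨w, (hN'mem w).2 (Or.inl rfl)⟩, ?_, ?_, ?_⟩
      · intro v hv
        rw [hNmem]
        rcases (hN'mem v).1 hv with rfl | rfl | rfl | hv
        · exact ⟨Ne.symm huw, Or.inl rfl⟩
        · exact ⟨fun e => huy.1 e.symm, Or.inr hy⟩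
        · exact ⟨fun e => huy.2 e.symm, Or.inr hy2P⟩
        · refine ⟨?_, Or.inr (c1 hv)⟩
          rintro rfl
          exact (Finset.mem_sdiff.1 hu).2 hv
      · rw [hN']
        have e1 : Cut r (insert y2 (C i)) := c3.insert_att c2 (Or.inr (c4 y2 hy2).1)
        have e2 : Cut r (insert y (insert y2 (C i))) := by
          apply e1.insert_att ⟨y2, Finset.mem_insert_self _ _⟩
          by_cases hyC : y ∈ C i
          · exact Or.inl (Finset.mem_insert_of_mem hyC)
          · exact Or.inr ((c4 y (Finset.mem_sdiff.2 ⟨hy, hyC⟩)).1.mono (Finset.subset_insert _ _))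
        apply e2.insert_att ⟨y, Finset.mem_insert_self _ _⟩
        exact Or.inr ⟨⟨y, Finset.mem_insert_self _ _, hyw⟩, y2, by simp, hwy2⟩
      · intro v hv
        rw [Finset.mem_sdiff, hNmem, hN'mem] at hv
        have hv1 : v ∈ P i \ C i := by
          rw [Finset.mem_sdiff]
          tauto
        obtain ⟨h1, h2, h3⟩ := c4 v hv1
        refine ⟨h1.mono ?_, h2, h3⟩
        intro x hx
        exact (hN'mem x).2 (Or.inr (Or.inr (Or.inr hx)))
      · have e1 : (P i \ C i) \ {u, y, y2} ⊆ N \ N' := by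
          intro v hv
          simp only [Finset.mem_sdiff, Finset.mem_insert, Finset.mem_singleton, not_or] at hv
          rw [Finset.mem_sdiff, hNmem, hN'mem]
          refine ⟨⟨hv.2.1, Or.inr hv.1.1⟩, ?_⟩
          rintro (h1 | h1 | h1 | h1)
          · exact hwP i hi (h1 ▸ hv.1.1)
          · exact hv.2.2.1 h1
          · exact hv.2.2.2 h1
          · exact hv.1.2 h1
        have e2 := Finset.card_le_card e1
        have e3 := Finset.le_card_sdiff {u, y, y2} (P i \ C i)
        have e4 : ({u, y, y2} : Finset V).card ≤ 3 := Finset.card_le_three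
        rw [Finset.card_erase_of_mem hw]
        omega
    · rw [Function.update_of_ne hij, Function.update_of_ne hij]
      obtain ⟨h1, h2, h3, h4, h5⟩ := h.core i hi habi
      refine ⟨h1, h2, h3, h4, ?_⟩
      rw [Finset.card_erase_of_mem hw]
      omega
  · intro i hi habi
    by_cases hij : i = j
    · subst hij
      exact absurd hab habi
    · rw [Function.update_of_ne hij]
      exact h.path i hi habi
  · exact h.subD.trans (Finset.subset_insert _ _)
  · exact h.cutQ.insert_att hQ0 (Or.inr ((c4 u hu).2.2.mono h.subD))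

/-- Adding attached vertices to the last part. -/
theorem Cfg.addQ {s : ℕ} {U D T0 : Finset V} {ab : ℕ → Prop} {n : ℕ → ℕ} {K P C : ℕ → Finset V}
    {Q W : Finset V} (h : Cfg r s U D T0 ab n K P C Q W) {A : Finset V} (hA : A ⊆ W)
    (hcut : Cut r (Q ∪ A)) : Cfg r s U D T0 ab n K P C (Q ∪ A) (W \ A) := by
  constructor
  · exact h.sub
  · exact Finset.union_subset h.subQ (hA.trans h.subW)
  · exact Finset.sdiff_subset.trans h.subW
  · intro v hv
    rcases h.cover v hv with h1 | h1 | h1
    · exact Or.inl h1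
    · exact Or.inr (Or.inl (Finset.mem_union_left _ h1))
    · by_cases hvA : v ∈ A
      · exact Or.inr (Or.inl (Finset.mem_union_right _ hvA))
      · exact Or.inr (Or.inr (Finset.mem_sdiff.2 ⟨h1, hvA⟩))
  · exact h.disj
  · intro j hj
    rw [Finset.disjoint_union_right]
    refine ⟨h.disjQ j hj, ?_⟩
    exact Finset.disjoint_of_subset_right hA (h.disjW j hj)
  · intro j hj
    exact Finset.disjoint_of_subset_right Finset.sdiff_subset (h.disjW j hj)
  · rw [Finset.disjoint_union_left]
    exact ⟨Finset.disjoint_of_subset_right Finset.sdiff_subset h.disjQW, Finset.disjoint_sdiff⟩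
  · exact h.card
  · intro j hj hab
    obtain ⟨h1, h2, h3, h4, h5⟩ := h.core j hj hab
    refine ⟨h1, h2, h3, h4, ?_⟩
    have := Finset.card_le_card (Finset.sdiff_subset : W \ A ⊆ W)
    omega
  · exact h.path
  · exact h.subD.trans Finset.subset_union_left
  · exact hcut

open Classical in
/-- If some free vertex dominates `Q`, one free vertex can be placed. -/
theorem Cfg.plus {s : ℕ} {U D T0 : Finset V} {ab : ℕ → Prop} {n : ℕ → ℕ} {K P C : ℕ → Finset V}
    {Q W : Finset V} (hT : IsTournament r) (hU : Cut r U) (hD : D.Nonempty) (hDT : D ⊆ T0)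
    {W0 : Finset V} (hW0 : ∀ w ∈ W0, (∀ u ∈ T0, r w u) ∨ ∀ u ∈ T0, r u w)
    (hK : ∀ j < s, ¬ ab j → ∀ w ∈ W0, (∃ y ∈ K j, r y w) →
      W0.card < ((U \ (range (j + 1)).biUnion K).filter (fun u => r u w)).card)
    (h : Cfg r s U D T0 ab n K P C Q W) (hW : W ⊆ W0)
    (h1 : ∀ w ∈ W, ¬ Att r Q w)
    (h2 : ∀ a ∈ W, (∀ u ∈ Q, r u a) → ∀ b ∈ W, (∀ u ∈ Q, r b u) → ¬ r a b)
    (h3 : ∃ w ∈ W, ∀ u ∈ Q, r w u) :
    ∃ P' C' Q' W', Cfg r s U D T0 ab n K P' C' Q' W' ∧ W' ⊆ W0 ∧ W'.card < W.card := by
  obtain ⟨q, hq⟩ : Q.Nonempty := hD.mono h.subD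
  obtain ⟨W1, hW1⟩ : ∃ W1, W1 = W.filter (fun w => ∀ u ∈ Q, r w u) := ⟨_, rfl⟩
  have hW1m : ∀ v, v ∈ W1 ↔ v ∈ W ∧ ∀ u ∈ Q, r v u := by
    intro v
    rw [hW1, Finset.mem_filter]
  have hQW := Finset.disjoint_left.1 h.disjQW
  obtain ⟨u, hu, v, hv, huv⟩ := hU (U \ W1) Finset.sdiff_subset
    ⟨q, Finset.mem_sdiff.2 ⟨h.subQ hq, fun hq1 => hQW hq ((hW1m q).1 hq1).1⟩⟩
    (by
      intro he
      obtain ⟨w, hw, hw2⟩ := h3
      have h4 : w ∈ U \ W1 := by
        rw [he]
        exact h.subW hw
      exact (Finset.mem_sdiff.1 h4).2 ((hW1m w).2 ⟨hw, hw2⟩))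
  rw [Finset.mem_sdiff, Finset.mem_sdiff, not_and, not_not] at hv
  have hv1 : v ∈ W1 := hv.2 hv.1
  obtain ⟨hvW, hvQ⟩ := (hW1m v).1 hv1
  obtain ⟨huU, hu1⟩ := Finset.mem_sdiff.1 hu
  have hvT : ∀ x ∈ T0, r v x := by
    rcases hW0 v (hW hvW) with h4 | h4
    · exact h4
    · exfalso
      obtain ⟨x, hx⟩ := hD
      exact hT.asymm (h4 x (hDT hx)) (hvQ x (h.subD hx))
  have hex : ∃ j < s, ∃ y ∈ P j, r y v := by
    rcases h.cover u huU with ⟨j, hj, huj⟩ | huQ | huW
    · exact ⟨j, hj, u, huj, huv⟩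
    · exact absurd (hvQ u huQ) (hT.asymm huv)
    · exfalso
      have h4 := h1 u huW
      unfold Att at h4
      rw [not_and_or] at h4
      push Not at h4
      have hne : ∀ x ∈ Q, x ≠ u := fun x hx he => hQW hx (he ▸ huW)
      rcases h4 with h4 | h4
      · exact hu1 ((hW1m u).2 ⟨huW, fun x hx => hT.of_not (hne x hx).symm (h4 x hx)⟩)
      · exact h2 u huW (fun x hx => hT.of_not (hne x hx) (h4 x hx)) v hvW hvQ huv
  have hex2 : ∃ j < s, ab j ∧ ∃ y ∈ P j, r y v := by
    by_contra hcon
    push Not at hcon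
    obtain ⟨j0, hj0, y0, hy0, hyv0⟩ := hex
    obtain ⟨j, hj, hmax⟩ := Finset.exists_max_image ((range s).filter (fun j => ∃ y ∈ P j, r y v))
      id ⟨j0, Finset.mem_filter.2 ⟨Finset.mem_range.2 hj0, y0, hy0, hyv0⟩⟩
    rw [Finset.mem_filter, Finset.mem_range] at hj
    obtain ⟨hj, y, hy, hyv⟩ := hj
    have hnab : ¬ ab j := fun hab => hcon j hj hab y hy hyv
    have h4 := hK j hj hnab v (hW hvW) ⟨y, by rwa [← h.path j hj hnab], hyv⟩
    obtain ⟨x, hx, hxW0⟩ : ∃ x ∈ (U \ (range (j + 1)).biUnion K).filter (fun u => r u v),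
        x ∉ W0 := by
      by_contra hcon2
      push Not at hcon2
      have := Finset.card_le_card (show (U \ (range (j + 1)).biUnion K).filter (fun u => r u v)
        ⊆ W0 from hcon2)
      omega
    rw [Finset.mem_filter, Finset.mem_sdiff] at hx
    obtain ⟨⟨hxU, hxK⟩, hxv⟩ := hx
    rcases h.cover x hxU with ⟨i, hi, hxi⟩ | hxQ | hxW
    · by_cases hab : ab i
      · exact hcon i hi hab x hxi hxv
      · have h5 := hmax i (Finset.mem_filter.2 ⟨Finset.mem_range.2 hi, x, hxi, hxv⟩)
        simp only [id] at h5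
        apply hxK
        rw [h.path i hi hab] at hxi
        exact Finset.mem_biUnion.2 ⟨i, Finset.mem_range.2 (by omega), hxi⟩
    · exact hT.asymm hxv (hvQ x hxQ)
    · exact hxW0 (hW hxW)
  obtain ⟨j, hj, hab, y, hy, hyv⟩ := hex2
  obtain ⟨P', C', Q', hcfg⟩ := h.exec hT hD hvW hj hab hy hyv hvT
  exact ⟨P', C', Q', W.erase v, hcfg, (Finset.erase_subset _ _).trans hW,
    Finset.card_erase_lt_of_mem hvW⟩

open Classical in
/-- All free vertices can be placed. -/
theorem Cfg.all {s : ℕ} {U D T0 : Finset V} {ab : ℕ → Prop} {n : ℕ → ℕ} {K : ℕ → Finset V}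
    (hT : IsTournament r) (hU : Cut r U) (hD : D.Nonempty) (hDT : D ⊆ T0)
    {W0 : Finset V} (hW0 : ∀ w ∈ W0, (∀ u ∈ T0, r w u) ∨ ∀ u ∈ T0, r u w)
    (hK : ∀ j < s, ¬ ab j → ∀ w ∈ W0, (∃ y ∈ K j, r y w) →
      W0.card < ((U \ (range (j + 1)).biUnion K).filter (fun u => r u w)).card)
    (hK' : ∀ j < s, ¬ ab j → ∀ w ∈ W0, (∃ y ∈ K j, r w y) →
      W0.card < ((U \ (range (j + 1)).biUnion K).filter (fun u => r w u)).card) :
    ∀ m P C Q W, Cfg r s U D T0 ab n K P C Q W → W ⊆ W0 → W.card = m →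
      ∃ P' C' Q', Cfg r s U D T0 ab n K P' C' Q' ∅ := by
  intro m
  induction m using Nat.strong_induction_on with
  | _ m ih =>
    intro P C Q W h hW hm
    by_cases hW1 : W = ∅
    · subst hW1
      exact ⟨P, C, Q, h⟩
    have hstep : ∃ P' C' Q' W', Cfg r s U D T0 ab n K P' C' Q' W' ∧ W' ⊆ W0 ∧
        W'.card < W.card := by
      obtain ⟨q, hq⟩ : Q.Nonempty := hD.mono h.subD
      have hQW := Finset.disjoint_left.1 h.disjQW
      by_cases c1 : ∃ w ∈ W, Att r Q w
      · obtain ⟨w, hw, hatt⟩ := c1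
        refine ⟨P, C, Q ∪ {w}, W \ {w}, h.addQ (Finset.singleton_subset_iff.2 hw) ?_,
          Finset.sdiff_subset.trans hW, ?_⟩
        · apply h.cutQ.union_att ⟨q, hq⟩
          intro v hv
          rw [Finset.mem_singleton.1 hv]
          exact Or.inr hatt
        · apply Finset.card_lt_card
          rw [Finset.ssubset_iff_of_subset Finset.sdiff_subset]
          exact ⟨w, hw, by simp⟩
      · by_cases c2 : ∃ a ∈ W, (∀ u ∈ Q, r u a) ∧ ∃ b ∈ W, (∀ u ∈ Q, r b u) ∧ r a b
        · obtain ⟨a, ha, haQ, b, hb, hbQ, hab⟩ := c2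
          refine ⟨P, C, Q ∪ {a, b}, W \ {a, b}, h.addQ ?_ ?_, Finset.sdiff_subset.trans hW, ?_⟩
          · intro v hv
            rcases Finset.mem_insert.1 hv with rfl | hv
            · exact ha
            · rw [Finset.mem_singleton.1 hv]
              exact hb
          · apply StrongOn.cut
            have hs : Q ⊆ Q ∪ {a, b} := Finset.subset_union_left
            have haM : a ∈ Q ∪ {a, b} := by simp
            have hbM : b ∈ Q ∪ {a, b} := by simp
            have hQ1 := h.cutQ.strongOn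
            have r1 : Rch r (Q ∪ {a, b}) q a := Rch.single (hs hq) haM (haQ q hq)
            have r2 : Rch r (Q ∪ {a, b}) a b := Rch.single haM hbM hab
            have r3 : Rch r (Q ∪ {a, b}) b q := Rch.single hbM (hs hq) (hbQ q hq)
            apply StrongOn.of_hub q
            · intro v hv
              rcases Finset.mem_union.1 hv with hv | hv
              · exact Rch.mono hs (hQ1 q hq v hv)
              · rcases Finset.mem_insert.1 hv with rfl | hv
                · exact r1
                · rw [Finset.mem_singleton.1 hv]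
                  exact r1.trans r2
            · intro v hv
              rcases Finset.mem_union.1 hv with hv | hv
              · exact Rch.mono hs (hQ1 v hv q hq)
              · rcases Finset.mem_insert.1 hv with rfl | hv
                · exact r2.trans r3
                · rw [Finset.mem_singleton.1 hv]
                  exact r3
          · apply Finset.card_lt_card
            rw [Finset.ssubset_iff_of_subset Finset.sdiff_subset]
            exact ⟨a, ha, by simp⟩
        · push Not at c1 c2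
          obtain ⟨w, hw⟩ := Finset.nonempty_iff_ne_empty.2 hW1
          have hne : ∀ x ∈ Q, x ≠ w := fun x hx he => hQW hx (he ▸ hw)
          have h4 := c1 w hw
          unfold Att at h4
          rw [not_and_or] at h4
          push Not at h4
          rcases h4 with h4 | h4
          · exact h.plus hT hU hD hDT hW0 hK hW c1 c2
              ⟨w, hw, fun x hx => hT.of_not (hne x hx).symm (h4 x hx)⟩
          · obtain ⟨P', C', Q', W', h5, h6, h7⟩ := h.flip.plus hT.flip hU.flip hD hDT
              (fun w hw => (hW0 w hw).symm) hK' hW (fun w hw h0 => c1 w hw h0.flip)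
              (fun a ha h8 b hb h9 h10 => c2 b hb h9 a ha h8 h10)
              ⟨w, hw, fun x hx => hT.of_not (hne x hx) (h4 x hx)⟩
            exact ⟨P', C', Q', W', h5.flip, h6, h7⟩
    obtain ⟨P', C', Q', W', h1, h2, h3⟩ := hstep
    exact ih W'.card (by omega) P' C' Q' W' h1 h2 rfl

end Pool.Agent.Work.MP_1399e9_co
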