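import Pool.Agent.Work.MP_1399e9_co.Cut

/-!
# Removing geodesic vertices, and shortest paths
-/

namespace Pool.Agent.Work.MP_1399e9_co

open Finset Relation

variable {V : Type} {r : V → V → Prop} [DecidableEq V]

/-- Removing any set `Q` of vertices with distinct distances from `b` costs at most `4` in
connectivity. -/
theorem thin (hT : IsTournament r) {k : ℕ} {U : Finset V} (hU : Conn r k U) (d : V → ℕ)
    (hd : ∀ u ∈ U, ∀ v ∈ U, r u v → d v ≤ d u + 1) {Q : Finset V} (hQU : Q ⊆ U)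
    (hQ : ∀ p ∈ Q, ∀ q ∈ Q, d p = d q → p = q) {X : Finset V} (hX : X.card + 4 < k) :
    Cut r ((U \ Q) \ X) := by
  classical
  intro R hR hRne hRS
  by_contra hcon
  push Not at hcon
  let L : Finset V := ((U \ Q) \ X) \ R
  have hLne : L.Nonempty := by
    by_contra h
    rw [Finset.not_nonempty_iff_eq_empty, Finset.sdiff_eq_empty_iff_subset] at h
    exact hRS (Finset.Subset.antisymm hR h)
  have hRL : ∀ u ∈ R, ∀ v ∈ L, ¬ r u v := fun u hu v hv => hcon u hu v hv
  have hmemL : ∀ v, v ∈ L ↔ v ∈ U ∧ v ∉ Q ∧ v ∉ X ∧ v ∉ R := by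
    intro v
    simp only [L, Finset.mem_sdiff]
    tauto
  have hmemR : ∀ v ∈ R, v ∈ U ∧ v ∉ Q ∧ v ∉ X := by
    intro v hv
    have := hR hv
    simp only [Finset.mem_sdiff] at this
    tauto
  let Q' : Finset V := Q \ X
  have hmemQ' : ∀ v, v ∈ Q' ↔ v ∈ Q ∧ v ∉ X := fun v => Finset.mem_sdiff
  let J : Finset V := Q'.filter (fun q => ∃ l ∈ L, r q l)
  have hJne : J.Nonempty := by
    by_contra hJ
    rw [Finset.not_nonempty_iff_eq_empty] at hJ
    have hJ' : ∀ q ∈ Q', ∀ l ∈ L, ¬ r q l := by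
      intro q hq l hl hql
      have : q ∈ J := Finset.mem_filter.2 ⟨hq, l, hl, hql⟩
      rw [hJ] at this
      exact absurd this (Finset.notMem_empty _)
    obtain ⟨l0, hl0⟩ := hLne
    have hl0' := (hmemL l0).1 hl0
    obtain ⟨u, hu, v, hv, huv⟩ := hU X (by omega) (R ∪ Q')
      (by
        intro v hv
        rcases Finset.mem_union.1 hv with hv | hv
        · exact Finset.mem_sdiff.2 ⟨(hmemR v hv).1, (hmemR v hv).2.2⟩
        · exact Finset.mem_sdiff.2 ⟨hQU ((hmemQ' v).1 hv).1, ((hmemQ' v).1 hv).2⟩)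
      (hRne.mono Finset.subset_union_left)
      (by
        intro h
        have h1 : l0 ∈ R ∪ Q' := h ▸ Finset.mem_sdiff.2 ⟨hl0'.1, hl0'.2.2.1⟩
        rcases Finset.mem_union.1 h1 with h2 | h2
        · exact hl0'.2.2.2 h2
        · exact hl0'.2.1 ((hmemQ' l0).1 h2).1)
    have hvL : v ∈ L := by
      rw [Finset.mem_sdiff, Finset.mem_sdiff, Finset.mem_union, not_or] at hv
      refine (hmemL v).2 ⟨hv.1.1, fun h => hv.2.2 ((hmemQ' v).2 ⟨h, hv.1.2⟩), hv.1.2, hv.2.1⟩
    rcases Finset.mem_union.1 hu with h | h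
    · exact hRL u h v hvL huv
    · exact hJ' u h v hvL huv
  obtain ⟨q0, hq0, hmin⟩ := Finset.exists_min_image J d hJne
  obtain ⟨hq0Q', l0, hl0, hq0l0⟩ := Finset.mem_filter.1 hq0
  let m : ℕ := d q0
  let W0 : Finset V := Q'.filter (fun q => m ≤ d q ∧ d q ≤ m + 3)
  have hW0 : W0.card ≤ 4 := by
    have h1 : (W0.image d) ⊆ Finset.Icc m (m + 3) := by
      intro x hx
      obtain ⟨q, hq, rfl⟩ := Finset.mem_image.1 hx
      exact Finset.mem_Icc.2 (Finset.mem_filter.1 hq).2
    have h2 : (W0.image d).card = W0.card := by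
      apply Finset.card_image_of_injOn
      intro p hp q hq hpq
      exact hQ p ((hmemQ' p).1 (Finset.mem_filter.1 hp).1).1 q
        ((hmemQ' q).1 (Finset.mem_filter.1 hq).1).1 hpq
    have h3 := Finset.card_le_card h1
    rw [h2, Nat.card_Icc] at h3
    omega
  have hl0' := (hmemL l0).1 hl0
  have hq0U : q0 ∈ U := hQU ((hmemQ' q0).1 hq0Q').1
  obtain ⟨u, hu, v, hv, huv⟩ := hU (X ∪ W0) ((Finset.card_union_le _ _).trans_lt (by omega))
    (R ∪ Q'.filter (fun q => d q < m))
    (by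
      intro v hv
      rcases Finset.mem_union.1 hv with hv | hv
      · refine Finset.mem_sdiff.2 ⟨(hmemR v hv).1, ?_⟩
        rw [Finset.mem_union, not_or]
        refine ⟨(hmemR v hv).2.2, fun h => (hmemR v hv).2.1 ?_⟩
        exact ((hmemQ' v).1 (Finset.mem_filter.1 h).1).1
      · obtain ⟨h1, h2⟩ := Finset.mem_filter.1 hv
        refine Finset.mem_sdiff.2 ⟨hQU ((hmemQ' v).1 h1).1, ?_⟩
        rw [Finset.mem_union, not_or]
        refine ⟨((hmemQ' v).1 h1).2, fun h => ?_⟩
        have := (Finset.mem_filter.1 h).2.1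
        omega)
    (hRne.mono Finset.subset_union_left)
    (by
      intro h
      have h1 : l0 ∈ R ∪ Q'.filter (fun q => d q < m) := by
        rw [h, Finset.mem_sdiff, Finset.mem_union, not_or]
        refine ⟨hl0'.1, hl0'.2.2.1, fun h => hl0'.2.1 ?_⟩
        exact ((hmemQ' l0).1 (Finset.mem_filter.1 h).1).1
      rcases Finset.mem_union.1 h1 with h2 | h2
      · exact hl0'.2.2.2 h2
      · exact hl0'.2.1 ((hmemQ' l0).1 (Finset.mem_filter.1 h2).1).1)
  rw [Finset.mem_sdiff, Finset.mem_sdiff, Finset.mem_union, Finset.mem_union, not_or, not_or] at hv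
  obtain ⟨⟨hvU, hvX, hvW0⟩, hvR, hvQ⟩ := hv
  -- `v` is in `L` or a vertex of `Q` of large distance
  by_cases hvQQ : v ∈ Q
  · have hvQ' : v ∈ Q' := (hmemQ' v).2 ⟨hvQQ, hvX⟩
    have hdv : m + 4 ≤ d v := by
      by_contra h
      by_cases h2 : d v < m
      · exact hvQ (Finset.mem_filter.2 ⟨hvQ', h2⟩)
      · exact hvW0 (Finset.mem_filter.2 ⟨hvQ', by omega, by omega⟩)
    rcases Finset.mem_union.1 hu with hu | hu
    · -- from `R`
      have hu' := hmemR u hu
      have h1 : d l0 ≤ m + 1 := hd q0 hq0U l0 hl0'.1 hq0l0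
      have h2 : r l0 u := hT.of_not (fun h => hl0'.2.2.2 (h ▸ hu)) (hRL u hu l0 hl0)
      have h3 : d u ≤ d l0 + 1 := hd l0 hl0'.1 u hu'.1 h2
      have h4 : d v ≤ d u + 1 := hd u hu'.1 v hvU huv
      omega
    · obtain ⟨h1, h2⟩ := Finset.mem_filter.1 hu
      have h3 : d v ≤ d u + 1 := hd u (hQU ((hmemQ' u).1 h1).1) v hvU huv
      omega
  · have hvL : v ∈ L := (hmemL v).2 ⟨hvU, hvQQ, hvX, hvR⟩
    rcases Finset.mem_union.1 hu with hu | hu
    · exact hRL u hu v hvL huv
    · obtain ⟨h1, h2⟩ := Finset.mem_filter.1 hu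
      have h3 := hmin u (Finset.mem_filter.2 ⟨h1, v, hvL, huv⟩)
      omega

/-- `WalkN r U b n v`: there is a walk of length `n` from `b` to `v` inside `U`. -/
def WalkN (r : V → V → Prop) (U : Finset V) (b : V) : ℕ → V → Prop
  | 0, v => v = b
  | n + 1, v => ∃ u ∈ U, WalkN r U b n u ∧ v ∈ U ∧ r u v

omit [DecidableEq V] in
/-- Distances from `b` in the subdigraph induced on `U`. -/
theorem exists_dist {U : Finset V} (hU : StrongOn r U) {b : V} (hb : b ∈ U) :
    ∃ d : V → ℕ, d b = 0 ∧ (∀ u ∈ U, ∀ v ∈ U, r u v → d v ≤ d u + 1) ∧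
      (∀ v ∈ U, v ≠ b → ∃ u ∈ U, r u v ∧ d v = d u + 1) := by
  classical
  have hWs : ∀ n v, WalkN r U b (n + 1) v ↔ ∃ u ∈ U, WalkN r U b n u ∧ v ∈ U ∧ r u v :=
    fun n v => Iff.rfl
  have hex : ∀ v ∈ U, ∃ n, WalkN r U b n v := by
    intro v hv
    have h := hU b hb v hv
    clear hv
    induction h with
    | refl => exact ⟨0, rfl⟩
    | tail _ h1 ih =>
      obtain ⟨n, hn⟩ := ih
      exact ⟨n + 1, (hWs _ _).2 ⟨_, h1.1, hn, h1.2.1, h1.2.2⟩⟩
  refine ⟨fun v => if h : ∃ n, WalkN r U b n v then Nat.find h else 0, ?_, ?_, ?_⟩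
  · have h : ∃ n, WalkN r U b n b := ⟨0, rfl⟩
    simp only [dif_pos h]
    have h2 : WalkN r U b 0 b := rfl
    exact Nat.le_zero.1 (Nat.find_min' h h2)
  · intro u hu v hv huv
    simp only [dif_pos (hex u hu), dif_pos (hex v hv)]
    apply Nat.find_min'
    exact (hWs _ _).2 ⟨u, hu, Nat.find_spec (hex u hu), hv, huv⟩
  · intro v hv hvb
    have h1 := Nat.find_spec (hex v hv)
    obtain ⟨n, hn⟩ : ∃ n, Nat.find (hex v hv) = n + 1 := by
      apply Nat.exists_eq_succ_of_ne_zero
      intro h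
      rw [h] at h1
      exact hvb h1
    rw [hn] at h1
    obtain ⟨u, hu, h2, _, huv⟩ := (hWs _ _).1 h1
    refine ⟨u, hu, huv, ?_⟩
    simp only [dif_pos (hex u hu), dif_pos (hex v hv)]
    rw [hn]
    have h3 : Nat.find (hex u hu) ≤ n := Nat.find_min' _ h2
    have h4 : Nat.find (hex v hv) ≤ Nat.find (hex u hu) + 1 := by
      apply Nat.find_min'
      exact (hWs _ _).2 ⟨u, hu, Nat.find_spec (hex u hu), hv, huv⟩
    omega

/-- Shortest paths from `b`. -/
theorem exists_path {U : Finset V} {b : V} (hb : b ∈ U) {d : V → ℕ} (hdb : d b = 0)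
    (hpred : ∀ v ∈ U, v ≠ b → ∃ u ∈ U, r u v ∧ d v = d u + 1) :
    ∀ n, ∀ a ∈ U, d a = n → ∃ P ⊆ U, b ∈ P ∧ a ∈ P ∧ (∀ p ∈ P, d p ≤ n) ∧
      (∀ p ∈ P, ∀ q ∈ P, d p = d q → p = q) ∧ P.card = n + 1 ∧
      (∀ p ∈ P, Rch r P b p) ∧ (∀ p ∈ P, Rch r P p a) := by
  intro n
  induction n with
  | zero =>
    intro a ha hda
    have hab : a = b := by
      by_contra h
      obtain ⟨u, _, _, h1⟩ := hpred a ha h
      omega
    subst hab
    refine ⟨{a}, Finset.singleton_subset_iff.2 ha, Finset.mem_singleton_self _,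
      Finset.mem_singleton_self _, ?_, ?_, by simp, ?_, ?_⟩
    · intro p hp
      rw [Finset.mem_singleton.1 hp]
      exact hda.le
    · intro p hp q hq _
      rw [Finset.mem_singleton.1 hp, Finset.mem_singleton.1 hq]
    · intro p hp
      rw [Finset.mem_singleton.1 hp]
      exact Rch.refl
    · intro p hp
      rw [Finset.mem_singleton.1 hp]
      exact Rch.refl
  | succ n ih =>
    intro a ha hda
    have hab : a ≠ b := by
      rintro rfl
      omega
    obtain ⟨u, hu, hua, h1⟩ := hpred a ha hab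
    obtain ⟨P, hPU, hbP, huP, hle, hinj, hcard, hr1, hr2⟩ := ih u hu (by omega)
    have haP : a ∉ P := by
      intro h
      have := hle a h
      omega
    refine ⟨insert a P, Finset.insert_subset ha hPU, Finset.mem_insert_of_mem hbP,
      Finset.mem_insert_self _ _, ?_, ?_, ?_, ?_, ?_⟩
    · intro p hp
      rcases Finset.mem_insert.1 hp with rfl | hp
      · exact hda.le
      · exact (hle p hp).trans (Nat.le_succ n)
    · intro p hp q hq hpq
      rcases Finset.mem_insert.1 hp with hpa | hp1 <;>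
        rcases Finset.mem_insert.1 hq with hqa | hq1
      · rw [hpa, hqa]
      · have := hle q hq1
        rw [hpa] at hpq
        omega
      · have := hle p hp1
        rw [hqa] at hpq
        omega
      · exact hinj p hp1 q hq1 hpq
    · rw [Finset.card_insert_of_notMem haP, hcard]
    · have hua' : Rch r (insert a P) u a :=
        Rch.single (Finset.mem_insert_of_mem huP) (Finset.mem_insert_self _ _) hua
      intro p hp
      rcases Finset.mem_insert.1 hp with rfl | hp
      · exact ((hr1 u huP).mono (Finset.subset_insert _ _)).trans hua'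
      · exact (hr1 p hp).mono (Finset.subset_insert _ _)
    · have hua' : Rch r (insert a P) u a :=
        Rch.single (Finset.mem_insert_of_mem huP) (Finset.mem_insert_self _ _) hua
      intro p hp
      rcases Finset.mem_insert.1 hp with rfl | hp
      · exact Rch.refl
      · exact ((hr2 p hp).mono (Finset.subset_insert _ _)).trans hua'

/-- Intermediate levels are large. -/
theorem level_card {k : ℕ} {U : Finset V} (hU : Conn r k U) {b : V} (hb : b ∈ U) {d : V → ℕ}
    (hdb : d b = 0) (hd : ∀ u ∈ U, ∀ v ∈ U, r u v → d v ≤ d u + 1) {a : V} (ha : a ∈ U) {i : ℕ}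
    (hi : 0 < i) (hia : i < d a) : k ≤ (U.filter (fun v => d v = i)).card := by
  classical
  by_contra hlt
  push Not at hlt
  obtain ⟨u, hu, v, hv, huv⟩ := hU _ hlt (U.filter (fun v => d v < i))
    (by
      intro v hv
      obtain ⟨h1, h2⟩ := Finset.mem_filter.1 hv
      refine Finset.mem_sdiff.2 ⟨h1, fun h => ?_⟩
      have := (Finset.mem_filter.1 h).2
      omega)
    ⟨b, Finset.mem_filter.2 ⟨hb, by omega⟩⟩
    (by
      intro h
      have h1 : a ∈ U.filter (fun v => d v < i) := by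
        rw [h, Finset.mem_sdiff]
        refine ⟨ha, fun h => ?_⟩
        have := (Finset.mem_filter.1 h).2
        omega
      have := (Finset.mem_filter.1 h1).2
      omega)
  obtain ⟨hu1, hu2⟩ := Finset.mem_filter.1 hu
  rw [Finset.mem_sdiff, Finset.mem_sdiff] at hv
  obtain ⟨⟨hvU, hv1⟩, hv2⟩ := hv
  have h1 : d v ≤ d u + 1 := hd u hu1 v hvU huv
  have h2 : ¬ d v = i := fun h => hv1 (Finset.mem_filter.2 ⟨hvU, h⟩)
  have h3 : ¬ d v < i := fun h => hv2 (Finset.mem_filter.2 ⟨hvU, h⟩)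
  omega

theorem path_short {k : ℕ} {U : Finset V} (hU : Conn r k U) {b : V} (hb : b ∈ U) {d : V → ℕ}
    (hdb : d b = 0) (hd : ∀ u ∈ U, ∀ v ∈ U, r u v → d v ≤ d u + 1) {a : V} (ha : a ∈ U) :
    k * (d a - 1) ≤ U.card := by
  classical
  have h1 : ∀ i ∈ Finset.Ioo 0 (d a), k ≤ (U.filter (fun v => d v = i)).card := by
    intro i hi
    rw [Finset.mem_Ioo] at hi
    exact level_card hU hb hdb hd ha hi.1 hi.2
  have h2 := Finset.card_nsmul_le_sum _ _ _ h1
  have h3 : ∑ i ∈ Finset.Ioo 0 (d a), (U.filter (fun v => d v = i)).card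
      = (U.filter (fun v => d v ∈ Finset.Ioo 0 (d a))).card := by
    rw [Finset.card_eq_sum_card_fiberwise (f := d) (t := Finset.Ioo 0 (d a))]
    · apply Finset.sum_congr rfl
      intro i hi
      congr 1
      ext v
      simp only [Finset.mem_filter]
      constructor
      · rintro ⟨h4, rfl⟩
        exact ⟨⟨h4, hi⟩, rfl⟩
      · rintro ⟨⟨h4, _⟩, h5⟩
        exact ⟨h4, h5⟩
    · intro v hv
      exact (Finset.mem_filter.1 hv).2
  have h4 := Finset.card_le_card (Finset.filter_subset (fun v => d v ∈ Finset.Ioo 0 (d a)) U)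
  rw [h3] at h2
  simp only [Nat.card_Ioo, smul_eq_mul] at h2
  calc k * (d a - 1) = (d a - 0 - 1) * k := by rw [Nat.sub_zero, Nat.mul_comm]
    _ ≤ _ := h2
    _ ≤ _ := h4

end Pool.Agent.Work.MP_1399e9_co
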