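import Pool.Agent.Work.MP_1399e9_co.Sep

/-!
# Removing few vertices of each level; geodesics
-/

namespace Pool.Agent.Work.MP_1399e9_co

open Finset Relation

variable {V : Type} {r : V → V → Prop} [DecidableEq V]

theorem IsSep.memL {U L X R : Finset V} (h : IsSep r U L X R) {v : V} (hv : v ∈ L) : v ∈ U := by
  rw [← h.2.2.2.1]
  exact Finset.mem_union_left _ (Finset.mem_union_left _ hv)

theorem IsSep.memX {U L X R : Finset V} (h : IsSep r U L X R) {v : V} (hv : v ∈ X) : v ∈ U := by
  rw [← h.2.2.2.1]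
  exact Finset.mem_union_left _ (Finset.mem_union_right _ hv)

theorem IsSep.memR {U L X R : Finset V} (h : IsSep r U L X R) {v : V} (hv : v ∈ R) : v ∈ U := by
  rw [← h.2.2.2.1]
  exact Finset.mem_union_right _ hv

/-- Removing a set `Q` of vertices on distinct levels costs at most `4`. -/
theorem thin_sc (hT : IsTournament r) {k m : ℕ} {U : Finset V} (hU : SC r k m U) (d : V → ℕ)
    (hd : ∀ u ∈ U, ∀ v ∈ U, r u v → d v ≤ d u + 1) {Q : Finset V} (hQU : Q ⊆ U)
    (hQ : ∀ p ∈ Q, ∀ q ∈ Q, d p = d q → p = q) {k' : ℕ} (hk' : k' + 4 ≤ k) :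
    SC r k' m (U \ Q) := by
  classical
  intro L X R hs hL hR
  have hLQ : ∀ v ∈ L, v ∈ U ∧ v ∉ Q := fun v hv => Finset.mem_sdiff.1 (hs.memL hv)
  have hXQ : ∀ v ∈ X, v ∈ U ∧ v ∉ Q := fun v hv => Finset.mem_sdiff.1 (hs.memX hv)
  have hRQ : ∀ v ∈ R, v ∈ U ∧ v ∉ Q := fun v hv => Finset.mem_sdiff.1 (hs.memR hv)
  obtain ⟨h1, h2, h3, h4, h5⟩ := id hs
  have hcov : ∀ v ∈ U, v ∈ Q ∨ v ∈ L ∨ v ∈ X ∨ v ∈ R := by
    intro v hv
    by_cases hvQ : v ∈ Q
    · exact Or.inl hvQ
    · have : v ∈ U \ Q := Finset.mem_sdiff.2 ⟨hv, hvQ⟩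
      rw [← h4, Finset.mem_union, Finset.mem_union] at this
      tauto
  -- extend the separation by a threshold
  have key : ∀ (A W0 B : Finset V), A ⊆ Q → W0 ⊆ Q → B ⊆ Q → Disjoint A W0 → Disjoint A B →
      Disjoint W0 B → (∀ q ∈ Q, q ∈ A ∨ q ∈ W0 ∨ q ∈ B) → (∀ a ∈ B, ∀ b ∈ L, ¬ r a b) →
      (∀ a ∈ R, ∀ b ∈ A, ¬ r a b) → (∀ a ∈ B, ∀ b ∈ A, ¬ r a b) → W0.card ≤ 4 → k' ≤ X.card := by
    intro A W0 B hA hW hB d1 d2 d3 hc a1 a2 a3 hW4
    have hmem : ∀ {S T : Finset V}, (∀ v ∈ S, v ∈ U ∧ v ∉ Q) → T ⊆ Q → Disjoint S T := by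
      intro S T hS hT'
      rw [Finset.disjoint_left]
      intro v hv hv2
      exact (hS v hv).2 (hT' hv2)
    have hk : k ≤ (X ∪ W0).card := by
      refine hU (L ∪ A) (X ∪ W0) (R ∪ B) ⟨?_, ?_, ?_, ?_, ?_⟩
        (hL.trans (Finset.card_le_card Finset.subset_union_left))
        (hR.trans (Finset.card_le_card Finset.subset_union_left))
      · rw [Finset.disjoint_union_left, Finset.disjoint_union_right, Finset.disjoint_union_right]
        exact ⟨⟨h1, hmem hLQ hW⟩, (hmem hXQ hA).symm, d1⟩
      · rw [Finset.disjoint_union_left, Finset.disjoint_union_right, Finset.disjoint_union_right]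
        exact ⟨⟨h2, hmem hLQ hB⟩, (hmem hRQ hA).symm, d2⟩
      · rw [Finset.disjoint_union_left, Finset.disjoint_union_right, Finset.disjoint_union_right]
        exact ⟨⟨h3, hmem hXQ hB⟩, (hmem hRQ hW).symm, d3⟩
      · apply Finset.Subset.antisymm
        · intro v hv
          simp only [Finset.mem_union] at hv
          rcases hv with ((hv | hv) | (hv | hv)) | (hv | hv)
          · exact (hLQ v hv).1
          · exact hQU (hA hv)
          · exact (hXQ v hv).1
          · exact hQU (hW hv)
          · exact (hRQ v hv).1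
          · exact hQU (hB hv)
        · intro v hv
          simp only [Finset.mem_union]
          rcases hcov v hv with h | h | h | h
          · rcases hc v h with h' | h' | h' <;> simp [h']
          · simp [h]
          · simp [h]
          · simp [h]
      · intro a ha b hb
        rcases Finset.mem_union.1 ha with ha | ha <;> rcases Finset.mem_union.1 hb with hb | hb
        · exact h5 a ha b hb
        · exact a2 a ha b hb
        · exact a1 a ha b hb
        · exact a3 a ha b hb
    have := Finset.card_union_le X W0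
    omega
  let J : Finset V := Q.filter (fun q => ∃ l ∈ L, r q l)
  by_cases hJ : J.Nonempty
  · obtain ⟨q0, hq0, hmin⟩ := Finset.exists_min_image J d hJ
    obtain ⟨hq0Q, l0, hl0, hql0⟩ := Finset.mem_filter.1 hq0
    apply key (Q.filter (fun q => d q0 + 4 ≤ d q))
      (Q.filter (fun q => d q0 ≤ d q ∧ d q < d q0 + 4)) (Q.filter (fun q => d q < d q0))
      (Finset.filter_subset _ _) (Finset.filter_subset _ _) (Finset.filter_subset _ _)
    · rw [Finset.disjoint_filter]
      intro v _ e1 e2
      omega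
    · rw [Finset.disjoint_filter]
      intro v _ e1 e2
      omega
    · rw [Finset.disjoint_filter]
      intro v _ e1 e2
      omega
    · intro q hq
      simp only [Finset.mem_filter, hq, true_and]
      omega
    · intro a ha b hb hab
      obtain ⟨e1, e2⟩ := Finset.mem_filter.1 ha
      have := hmin a (Finset.mem_filter.2 ⟨e1, b, hb, hab⟩)
      omega
    · intro a ha b hb hab
      obtain ⟨e1, e2⟩ := Finset.mem_filter.1 hb
      have e3 : d l0 ≤ d q0 + 1 := hd q0 (hQU hq0Q) l0 (hLQ l0 hl0).1 hql0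
      have e4 : r l0 a := hT.of_not (fun h => (Finset.disjoint_left.1 h2) hl0 (h ▸ ha))
        (h5 a ha l0 hl0)
      have e5 : d a ≤ d l0 + 1 := hd l0 (hLQ l0 hl0).1 a (hRQ a ha).1 e4
      have e6 : d b ≤ d a + 1 := hd a (hRQ a ha).1 b (hQU e1) hab
      omega
    · intro a ha b hb hab
      obtain ⟨e1, e2⟩ := Finset.mem_filter.1 ha
      obtain ⟨e3, e4⟩ := Finset.mem_filter.1 hb
      have := hd a (hQU e1) b (hQU e3) hab
      omega
    · have e1 : ((Q.filter (fun q => d q0 ≤ d q ∧ d q < d q0 + 4)).image d) ⊆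
          Finset.Ico (d q0) (d q0 + 4) := by
        intro x hx
        obtain ⟨q, hq, rfl⟩ := Finset.mem_image.1 hx
        exact Finset.mem_Ico.2 (Finset.mem_filter.1 hq).2
      have e2 := Finset.card_le_card e1
      rw [Finset.card_image_of_injOn, Nat.card_Ico] at e2
      · omega
      · intro p hp q hq hpq
        exact hQ p (Finset.mem_filter.1 hp).1 q (Finset.mem_filter.1 hq).1 hpq
  · rw [Finset.not_nonempty_iff_eq_empty] at hJ
    apply key ∅ ∅ Q (Finset.empty_subset _) (Finset.empty_subset _) (Finset.Subset.refl _)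
      (Finset.disjoint_empty_left _) (Finset.disjoint_empty_left _) (Finset.disjoint_empty_left _)
      (fun q hq => Or.inr (Or.inr hq))
    · intro a ha b hb hab
      have : a ∈ J := Finset.mem_filter.2 ⟨ha, b, hb, hab⟩
      rw [hJ] at this
      exact absurd this (Finset.notMem_empty _)
    · intro a _ b hb
      exact absurd hb (Finset.notMem_empty _)
    · intro a _ b hb
      exact absurd hb (Finset.notMem_empty _)
    · simp

/-- Removing few arbitrary vertices. -/
theorem SC.sdiff {k m : ℕ} {U : Finset V} (hU : SC r k m U) (C : Finset V) {k' : ℕ}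
    (hk' : k' + C.card ≤ k) : SC r k' m (U \ C) := by
  intro L X R hs hL hR
  have hLQ : ∀ v ∈ L, v ∈ U ∧ v ∉ C := fun v hv => Finset.mem_sdiff.1 (hs.memL hv)
  have hXQ : ∀ v ∈ X, v ∈ U ∧ v ∉ C := fun v hv => Finset.mem_sdiff.1 (hs.memX hv)
  have hRQ : ∀ v ∈ R, v ∈ U ∧ v ∉ C := fun v hv => Finset.mem_sdiff.1 (hs.memR hv)
  obtain ⟨h1, h2, h3, h4, h5⟩ := hs
  have hk : k ≤ (X ∪ (C ∩ U)).card := by
    refine hU L (X ∪ (C ∩ U)) R ⟨?_, h2, ?_, ?_, h5⟩ hL hR
    · rw [Finset.disjoint_union_right]
      refine ⟨h1, ?_⟩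
      rw [Finset.disjoint_left]
      intro v hv hv2
      exact (hLQ v hv).2 (Finset.mem_inter.1 hv2).1
    · rw [Finset.disjoint_union_left]
      refine ⟨h3, ?_⟩
      rw [Finset.disjoint_left]
      intro v hv2 hv
      exact (hRQ v hv).2 (Finset.mem_inter.1 hv2).1
    · apply Finset.Subset.antisymm
      · intro v hv
        simp only [Finset.mem_union, Finset.mem_inter] at hv
        rcases hv with (hv | (hv | hv)) | hv
        · exact (hLQ v hv).1
        · exact (hXQ v hv).1
        · exact hv.2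
        · exact (hRQ v hv).1
      · intro v hv
        by_cases hvC : v ∈ C
        · simp [hv, hvC]
        · have : v ∈ U \ C := Finset.mem_sdiff.2 ⟨hv, hvC⟩
          rw [← h4, Finset.mem_union, Finset.mem_union] at this
          simp only [Finset.mem_union]
          tauto
  have e1 := Finset.card_union_le X (C ∩ U)
  have e2 := Finset.card_le_card (Finset.inter_subset_left : C ∩ U ⊆ C)
  omega

omit [DecidableEq V] in
/-- A geodesic from `b`. -/
theorem exists_geo {U : Finset V} {b : V} (hb : b ∈ U) {d : V → ℕ} (hdb : d b = 0)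
    (hpred : ∀ v ∈ U, v ≠ b → ∃ u ∈ U, r u v ∧ d v = d u + 1) :
    ∀ n, ∀ a ∈ U, d a = n → ∃ p : ℕ → V, p 0 = b ∧ p n = a ∧ (∀ j ≤ n, p j ∈ U ∧ d (p j) = j) ∧
      ∀ j < n, r (p j) (p (j + 1)) := by
  classical
  intro n
  induction n with
  | zero =>
    intro a ha hda
    have hab : a = b := by
      by_contra h
      obtain ⟨u, _, _, h1⟩ := hpred a ha h
      omega
    subst hab
    refine ⟨fun _ => a, rfl, rfl, ?_, ?_⟩
    · intro j hj
      have : j = 0 := by omega
      subst this
      exact ⟨ha, hda⟩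
    · intro j hj
      exact absurd hj (Nat.not_lt_zero j)
  | succ n ih =>
    intro a ha hda
    have hab : a ≠ b := by
      rintro rfl
      omega
    obtain ⟨u, hu, hua, h1⟩ := hpred a ha hab
    obtain ⟨p, hp0, hpn, hp, hr⟩ := ih u hu (by omega)
    refine ⟨fun j => if j = n + 1 then a else p j, ?_, ?_, ?_, ?_⟩
    · simp only [show ¬ (0 = n + 1) by omega, if_false]
      exact hp0
    · simp
    · intro j hj
      by_cases hjn : j = n + 1
      · subst hjn
        simp only [if_true]
        exact ⟨ha, hda⟩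
      · simp only [if_neg hjn]
        exact hp j (by omega)
    · intro j hj
      by_cases hjn : j = n
      · subst hjn
        simp only [show ¬ (j = j + 1) by omega, if_false, if_true]
        rw [hpn]
        exact hua
      · simp only [show ¬ (j = n + 1) by omega, show ¬ (j + 1 = n + 1) by omega, if_false]
        exact hr j (by omega)

/-- Levels in the middle are large. -/
theorem level_sc {k m : ℕ} {U : Finset V} (hU : SC r k m U) {d : V → ℕ}
    (hd : ∀ u ∈ U, ∀ v ∈ U, r u v → d v ≤ d u + 1) {p : ℕ → V} {l : ℕ}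
    (hp : ∀ j ≤ l, p j ∈ U ∧ d (p j) = j) {i : ℕ} (hi : m ≤ i) (hil : i + m ≤ l) :
    k ≤ (U.filter (fun v => d v = i)).card := by
  classical
  refine hU (U.filter (fun v => i < d v)) _ (U.filter (fun v => d v < i)) ⟨?_, ?_, ?_, ?_, ?_⟩ ?_ ?_
  · rw [Finset.disjoint_filter]
    intro v _ e1 e2
    omega
  · rw [Finset.disjoint_filter]
    intro v _ e1 e2
    omega
  · rw [Finset.disjoint_filter]
    intro v _ e1 e2
    omega
  · ext v
    simp only [Finset.mem_union, Finset.mem_filter]
    constructor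
    · rintro ((h | h) | h)
      · exact h.1
      · exact h.1
      · exact h.1
    · intro h
      rcases Nat.lt_trichotomy i (d v) with h1 | h1 | h1
      · exact Or.inl (Or.inl ⟨h, h1⟩)
      · exact Or.inl (Or.inr ⟨h, h1.symm⟩)
      · exact Or.inr ⟨h, h1⟩
  · intro a ha b hb hab
    obtain ⟨e1, e2⟩ := Finset.mem_filter.1 ha
    obtain ⟨e3, e4⟩ := Finset.mem_filter.1 hb
    have := hd a e1 b e3 hab
    omega
  · have h1 : ((Finset.Ioc i l).image p) ⊆ U.filter (fun v => i < d v) := by
      intro v hv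
      obtain ⟨j, hj, rfl⟩ := Finset.mem_image.1 hv
      rw [Finset.mem_Ioc] at hj
      obtain ⟨e1, e2⟩ := hp j hj.2
      exact Finset.mem_filter.2 ⟨e1, by omega⟩
    have h2 := Finset.card_le_card h1
    rw [Finset.card_image_of_injOn, Nat.card_Ioc] at h2
    · omega
    · intro x hx y hy hxy
      rw [Finset.coe_Ioc, Set.mem_Ioc] at hx hy
      have e1 := (hp x hx.2).2
      have e2 := (hp y hy.2).2
      rw [hxy] at e1
      omega
  · have h1 : ((Finset.range i).image p) ⊆ U.filter (fun v => d v < i) := by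
      intro v hv
      obtain ⟨j, hj, rfl⟩ := Finset.mem_image.1 hv
      rw [Finset.mem_range] at hj
      obtain ⟨e1, e2⟩ := hp j (by omega)
      exact Finset.mem_filter.2 ⟨e1, by omega⟩
    have h2 := Finset.card_le_card h1
    rw [Finset.card_image_of_injOn, Finset.card_range] at h2
    · omega
    · intro x hx y hy hxy
      rw [Finset.coe_range, Set.mem_Iio] at hx hy
      have e1 := (hp x (by omega)).2
      have e2 := (hp y (by omega)).2
      have hxy' : p x = p y := hxy
      rw [hxy'] at e1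
      omega

/-- Geodesics are short. -/
theorem geo_short {k m : ℕ} {U : Finset V} (hU : SC r k m U) {d : V → ℕ}
    (hd : ∀ u ∈ U, ∀ v ∈ U, r u v → d v ≤ d u + 1) {p : ℕ → V} {l : ℕ}
    (hp : ∀ j ≤ l, p j ∈ U ∧ d (p j) = j) : k * (l + 1 - 2 * m) ≤ U.card := by
  classical
  have h1 : ∀ i ∈ Finset.Icc m (l - m), l < 2 * m ∨ k ≤ (U.filter (fun v => d v = i)).card := by
    intro i hi
    rw [Finset.mem_Icc] at hi
    by_cases h : l < 2 * m
    · exact Or.inl h
    · exact Or.inr (level_sc hU hd hp hi.1 (by omega))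
  by_cases hl : l < 2 * m
  · have : l + 1 - 2 * m = 0 := by omega
    rw [this, Nat.mul_zero]
    exact Nat.zero_le _
  have h1' : ∀ i ∈ Finset.Icc m (l - m), k ≤ (U.filter (fun v => d v = i)).card :=
    fun i hi => (h1 i hi).resolve_left hl
  have h2 := Finset.card_nsmul_le_sum _ _ _ h1'
  have h3 : ∑ i ∈ Finset.Icc m (l - m), (U.filter (fun v => d v = i)).card
      = (U.filter (fun v => d v ∈ Finset.Icc m (l - m))).card := by
    rw [Finset.card_eq_sum_card_fiberwise (f := d) (t := Finset.Icc m (l - m))]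
    · apply Finset.sum_congr rfl
      intro i hi
      congr 1
      ext v
      simp only [Finset.mem_filter]
      constructor
      · rintro ⟨h4, rfl⟩
        exact ⟨⟨h4, hi⟩, rfl⟩
      · rintro ⟨⟨h4, _⟩, h5⟩
        exact ⟨h4, h5⟩
    · intro v hv
      exact (Finset.mem_filter.1 hv).2
  have h4 := Finset.card_le_card
    (Finset.filter_subset (fun v => d v ∈ Finset.Icc m (l - m)) U)
  rw [h3] at h2
  simp only [Nat.card_Icc, smul_eq_mul] at h2
  calc k * (l + 1 - 2 * m) = (l - m + 1 - m) * k := by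
        rw [Nat.mul_comm]
        congr 1
        omega
    _ ≤ _ := h2
    _ ≤ _ := h4

end Pool.Agent.Work.MP_1399e9_co
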