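import Pool.Agent.Work.MP_1399e9_co.Absorb2

/-!
# Strong sets of prescribed size in the middle of a geodesic
-/

namespace Pool.Agent.Work.MP_1399e9_co

open Finset Relation

variable {V : Type} {r : V → V → Prop} [DecidableEq V]

omit [DecidableEq V] in
theorem geo_arc (hT : IsTournament r) {U : Finset V} {d : V → ℕ}
    (hd : ∀ u ∈ U, ∀ v ∈ U, r u v → d v ≤ d u + 1) {u v : V} (hu : u ∈ U) (hv : v ∈ U)
    (h : d v + 2 ≤ d u) : r u v := by
  refine hT.of_not (fun huv => ?_) (fun hvu => ?_)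
  · rw [huv] at h
    omega
  · have := hd v hv u hu hvu
    omega

theorem image_geo {U : Finset V} {d : V → ℕ} {p : ℕ → V} {l : ℕ}
    (hp : ∀ j ≤ l, p j ∈ U ∧ d (p j) = j) {i j : ℕ} (hj : j ≤ l) :
    ((Finset.Icc i j).image p).card = j + 1 - i ∧ (Finset.Icc i j).image p ⊆ U ∧
      (∀ v ∈ (Finset.Icc i j).image p, i ≤ d v ∧ d v ≤ j ∧ p (d v) = v) ∧
      ∀ v ∈ (Finset.Icc i j).image p, ∀ w ∈ (Finset.Icc i j).image p, d v = d w → v = w := by
  have key : ∀ v ∈ (Finset.Icc i j).image p, v ∈ U ∧ i ≤ d v ∧ d v ≤ j ∧ p (d v) = v := by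
    intro v hv
    obtain ⟨x, hx, rfl⟩ := Finset.mem_image.1 hv
    rw [Finset.mem_Icc] at hx
    obtain ⟨h1, h2⟩ := hp x (hx.2.trans hj)
    rw [h2]
    exact ⟨h1, hx.1, hx.2, rfl⟩
  refine ⟨?_, fun v hv => (key v hv).1, fun v hv => (key v hv).2, ?_⟩
  · rw [Finset.card_image_of_injOn, Nat.card_Icc]
    intro x hx y hy hxy
    rw [Finset.coe_Icc, Set.mem_Icc] at hx hy
    have e1 := (hp x (hx.2.trans hj)).2
    have e2 := (hp y (hy.2.trans hj)).2
    have hxy' : p x = p y := hxy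
    rw [hxy'] at e1
    omega
  · intro v hv w hw hvw
    rw [← (key v hv).2.2.2, ← (key w hw).2.2.2, hvw]

theorem geo_cut (hT : IsTournament r) {U : Finset V} {d : V → ℕ}
    (hd : ∀ u ∈ U, ∀ v ∈ U, r u v → d v ≤ d u + 1) {p : ℕ → V} {l : ℕ}
    (hp : ∀ j ≤ l, p j ∈ U ∧ d (p j) = j) (hr : ∀ j < l, r (p j) (p (j + 1))) {i j : ℕ}
    (hij : i + 2 ≤ j) (hj : j ≤ l) : Cut r ((Finset.Icc i j).image p) := by
  apply StrongOn.cut
  have hi : p i ∈ (Finset.Icc i j).image p :=
    Finset.mem_image_of_mem _ (Finset.mem_Icc.2 ⟨le_rfl, by omega⟩)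
  have hj' : p j ∈ (Finset.Icc i j).image p :=
    Finset.mem_image_of_mem _ (Finset.mem_Icc.2 ⟨by omega, le_rfl⟩)
  have hback : Rch r ((Finset.Icc i j).image p) (p j) (p i) := by
    refine Rch.single hj' hi (geo_arc hT hd (hp j hj).1 (hp i (by omega)).1 ?_)
    rw [(hp i (by omega)).2, (hp j hj).2]
    exact hij
  apply StrongOn.of_hub (p i)
  · intro v hv
    obtain ⟨x, hx, rfl⟩ := Finset.mem_image.1 hv
    rw [Finset.mem_Icc] at hx
    exact (geo_rch hr hx.1 (hx.2.trans hj)).mono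
      (Finset.image_subset_image (Finset.Icc_subset_Icc_right hx.2))
  · intro v hv
    obtain ⟨x, hx, rfl⟩ := Finset.mem_image.1 hv
    rw [Finset.mem_Icc] at hx
    exact ((geo_rch hr hx.2 hj).mono
      (Finset.image_subset_image (Finset.Icc_subset_Icc_left hx.1))).trans hback

open Classical in
theorem window (hT : IsTournament r) {k m w n : ℕ} {U : Finset V} (hsc : SC r k m U) {d : V → ℕ}
    (hd : ∀ u ∈ U, ∀ v ∈ U, r u v → d v ≤ d u + 1) {p : ℕ → V} {l : ℕ}
    (hp : ∀ j ≤ l, p j ∈ U ∧ d (p j) = j) (hr : ∀ j < l, r (p j) (p (j + 1)))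
    (hmw : m ≤ w) (hk : 2 ≤ k) (hn : 3 ≤ n) (hl : 2 * w + 8 ≤ l) (hnl : n + 4 * w + 14 ≤ 2 * l) :
    ∃ K ⊆ U, K.card = n ∧ Cut r K ∧ (∀ k', k' + 8 ≤ k → SC r k' m (U \ K)) ∧
      (∀ v ∈ U \ K, (∃ y ∈ K, r y v) → w < ((U \ K).filter (fun u => r u v)).card) ∧
      ∀ v ∈ U \ K, (∃ y ∈ K, r v y) → w < ((U \ K).filter (fun u => r v u)).card := by
  -- it suffices to find `K` with levels in the window
  have key : ∀ K ⊆ U, (∀ v ∈ K, w + 3 ≤ d v ∧ d v + w + 3 ≤ l) →
      (∀ v ∈ U \ K, (∃ y ∈ K, r y v) → w < ((U \ K).filter (fun u => r u v)).card) ∧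
      ∀ v ∈ U \ K, (∃ y ∈ K, r v y) → w < ((U \ K).filter (fun u => r v u)).card := by
    intro K hKU hK
    constructor
    · rintro v hv ⟨y, hy, hyv⟩
      have hvU := (Finset.mem_sdiff.1 hv).1
      have h1 := hd y (hKU hy) v hvU hyv
      have h2 := hK y hy
      obtain ⟨e1, e2, e3, _⟩ := image_geo hp (i := l - w) (j := l) le_rfl
      have h3 : (Finset.Icc (l - w) l).image p ⊆ (U \ K).filter (fun u => r u v) := by
        intro u hu
        have h4 := e3 u hu
        refine Finset.mem_filter.2 ⟨Finset.mem_sdiff.2 ⟨e2 hu, fun huK => ?_⟩,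
          geo_arc hT hd (e2 hu) hvU (by omega)⟩
        have := hK u huK
        omega
      have h4 := Finset.card_le_card h3
      omega
    · rintro v hv ⟨y, hy, hyv⟩
      have hvU := (Finset.mem_sdiff.1 hv).1
      have h1 := hd v hvU y (hKU hy) hyv
      have h2 := hK y hy
      obtain ⟨e1, e2, e3, _⟩ := image_geo hp (i := 0) (j := w) (by omega)
      have h3 : (Finset.Icc 0 w).image p ⊆ (U \ K).filter (fun u => r v u) := by
        intro u hu
        have h4 := e3 u hu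
        refine Finset.mem_filter.2 ⟨Finset.mem_sdiff.2 ⟨e2 hu, fun huK => ?_⟩,
          geo_arc hT hd hvU (e2 hu) (by omega)⟩
        have := hK u huK
        omega
      have h4 := Finset.card_le_card h3
      omega
  by_cases hcase : n + 2 * w + 5 ≤ l
  · obtain ⟨e1, e2, e3, e4⟩ := image_geo hp (i := w + 3) (j := w + 2 + n) (by omega)
    refine ⟨_, e2, by omega, geo_cut hT hd hp hr (by omega) (by omega), ?_, ?_⟩
    · intro k' hk'
      exact thin_sc hT hsc d hd e2 e4 (by omega)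
    · apply key _ e2
      intro v hv
      have := e3 v hv
      omega
  · obtain ⟨e1, e2, e3, e4⟩ := image_geo hp (i := w + 3) (j := l - w - 3) (by omega)
    obtain ⟨Q, hQ⟩ : ∃ Q, Q = (Finset.Icc (w + 3) (l - w - 3)).image p := ⟨_, rfl⟩
    -- a second vertex on every level
    have hsec : ∀ j, ∃ v, w + 5 ≤ j → j + w + 5 ≤ l → v ∈ U ∧ d v = j ∧ v ≠ p j := by
      intro j
      by_cases hj : w + 5 ≤ j ∧ j + w + 5 ≤ l
      · have h1 := level_sc hsc hd hp (i := j) (by omega) (by omega)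
        obtain ⟨v, hv, hvj⟩ := Finset.exists_mem_ne (by omega :
          1 < (U.filter (fun v => d v = j)).card) (p j)
        obtain ⟨h2, h3⟩ := Finset.mem_filter.1 hv
        exact ⟨v, fun _ _ => ⟨h2, h3, hvj⟩⟩
      · exact ⟨p j, fun h1 h2 => absurd ⟨h1, h2⟩ hj⟩
    choose q hq using hsec
    obtain ⟨J, hJ, hJc⟩ : ∃ J ⊆ Finset.Icc (w + 5) (l - w - 5), J.card = n - (l - 2 * w - 5) :=
      Finset.exists_subset_card_eq (by rw [Nat.card_Icc]; omega)
    have hJ' : ∀ j ∈ J, w + 5 ≤ j ∧ j + w + 5 ≤ l := by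
      intro j hj
      have := Finset.mem_Icc.1 (hJ hj)
      have h0 : J.Nonempty := ⟨j, hj⟩
      have h1 : (Finset.Icc (w + 5) (l - w - 5)).Nonempty := h0.mono hJ
      omega
    obtain ⟨M, hM⟩ : ∃ M, M = J.image q := ⟨_, rfl⟩
    have hMmem : ∀ v ∈ M, v ∈ U ∧ w + 5 ≤ d v ∧ d v + w + 5 ≤ l ∧ v ≠ p (d v) ∧ q (d v) = v := by
      intro v hv
      rw [hM] at hv
      obtain ⟨j, hj, rfl⟩ := Finset.mem_image.1 hv
      obtain ⟨h1, h2⟩ := hJ' j hj
      obtain ⟨h3, h4, h5⟩ := hq j h1 h2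
      rw [h4]
      exact ⟨h3, h1, h2, h5, rfl⟩
    have hMc : M.card = J.card := by
      rw [hM]
      apply Finset.card_image_of_injOn
      intro x hx y hy hxy
      have e5 := (hq x (hJ' x hx).1 (hJ' x hx).2).2.1
      have e6 := (hq y (hJ' y hy).1 (hJ' y hy).2).2.1
      rw [← e5, ← e6, hxy]
    have hMinj : ∀ v ∈ M, ∀ u ∈ M, d v = d u → v = u := by
      intro v hv u hu hvu
      rw [← (hMmem v hv).2.2.2.2, ← (hMmem u hu).2.2.2.2, hvu]
    have hQM : Disjoint Q M := by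
      rw [Finset.disjoint_left]
      intro v hv hv2
      rw [hQ] at hv
      exact (hMmem v hv2).2.2.2.1 (e3 v hv).2.2.symm
    have hQcut : Cut r Q := by
      rw [hQ]
      exact geo_cut hT hd hp hr (by omega) (by omega)
    have hs : p (w + 3) ∈ Q := by
      rw [hQ]
      exact Finset.mem_image_of_mem _ (Finset.mem_Icc.2 ⟨le_rfl, by omega⟩)
    have he : p (l - w - 3) ∈ Q := by
      rw [hQ]
      exact Finset.mem_image_of_mem _ (Finset.mem_Icc.2 ⟨by omega, le_rfl⟩)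
    rw [← hQ] at e1 e2 e3 e4
    have hKU : Q ∪ M ⊆ U := Finset.union_subset e2 (fun v hv => (hMmem v hv).1)
    refine ⟨Q ∪ M, hKU, ?_, ?_, ?_, ?_⟩
    · rw [Finset.card_union_of_disjoint hQM]
      omega
    · apply hQcut.union_att ⟨_, hs⟩
      intro v hv
      right
      obtain ⟨h1, h2, h3, _⟩ := hMmem v hv
      have e5 := hp (w + 3) (by omega)
      have e6 := hp (l - w - 3) (by omega)
      exact ⟨⟨_, he, geo_arc hT hd e6.1 h1 (by omega)⟩, _, hs,
        geo_arc hT hd h1 e5.1 (by omega)⟩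
    · intro k' hk'
      have h1 : SC r (k' + 4) m (U \ Q) := thin_sc hT hsc d hd e2 e4 (by omega)
      have h2 : U \ (Q ∪ M) = (U \ Q) \ M := by
        ext v
        simp only [Finset.mem_sdiff, Finset.mem_union]
        tauto
      rw [h2]
      apply thin_sc hT h1 d _ _ hMinj le_rfl
      · intro u hu v hv
        exact hd u (Finset.mem_sdiff.1 hu).1 v (Finset.mem_sdiff.1 hv).1
      · intro v hv
        exact Finset.mem_sdiff.2 ⟨(hMmem v hv).1, fun h => (Finset.disjoint_left.1 hQM) h hv⟩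
    · apply key _ hKU
      intro v hv
      rcases Finset.mem_union.1 hv with hv | hv
      · have := e3 v hv
        omega
      · have := hMmem v hv
        omega

end Pool.Agent.Work.MP_1399e9_co
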